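import Pool.Agent.Run7.h876.LS.Loc

/-!
# The proportion of the members with bad reduction
-/

set_option autoImplicit false
set_option linter.unusedSectionVars false

namespace Run7.h876.LS

open NumberField IsDedekindDomain Finset
open Pool.Agent.Y722.HS (IsSmooth)
open Run7.h876.MM (nv kv two_le_nv nv_pos avg card_kv xv norm_xv instFieldKv instFintypeKv instDecKv
  norm_avg_le avg_sub' SZ mem_SZ)
open Run7.h876.EN
open Run7.h876.HY (one_le_nv)
open Run7.h876.GN

open Classical in
theorem E_zero {k : Type} [Field k] [Fintype k] {ι : Type} [Fintype ι] [DecidableEq ι] {P : MvPolynomial ι k} (hP : P ≠ 0) :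
    E (fun c : ι → k => if MvPolynomial.eval c P = 0 then (1 : ℝ) else 0) ≤ P.totalDegree / Fintype.card k := by
  set e : ι ≃ Fin (Fintype.card ι) := Fintype.equivFin _ with he
  set Q : MvPolynomial (Fin (Fintype.card ι)) k := MvPolynomial.rename e P with hQ
  have hQne : Q ≠ 0 := by
    intro h0
    apply hP
    exact (MvPolynomial.rename_injective e e.injective) (by rw [map_zero]; exact h0)
  have hQdeg : Q.totalDegree ≤ P.totalDegree := MvPolynomial.totalDegree_rename_le _ _
  have hSZ := MvPolynomial.schwartz_zippel_totalDegree hQne (Finset.univ : Finset k)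
  have hcard : (#{g ∈ Fintype.piFinset fun _ : Fin (Fintype.card ι) =>
      (Finset.univ : Finset k) | MvPolynomial.eval g Q = 0}) = #{c : ι → k | MvPolynomial.eval c P = 0} := by
    refine Finset.card_bij' (fun g _ => fun m => g (e m)) (fun c _ => fun i => c (e.symm i)) ?_ ?_ ?_ ?_
    · intro g hg
      simp only [Finset.mem_filter, Finset.mem_univ, true_and]
      have h1 : MvPolynomial.eval g Q = 0 := (Finset.mem_filter.mp hg).2
      rw [hQ, MvPolynomial.eval_rename] at h1
      exact h1
    · intro c hc
      simp only [Finset.mem_filter, Finset.mem_univ, true_and] at hc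
      simp only [Finset.mem_filter, Fintype.mem_piFinset, Finset.mem_univ, implies_true, true_and]
      rw [hQ, MvPolynomial.eval_rename]
      have hcomp : (fun i => c (e.symm i)) ∘ e = c := by
        funext m
        simp
      rw [hcomp]
      exact hc
    · intro g _
      funext i
      simp
    · intro c _
      funext m
      simp
  rw [hcard, Finset.card_univ] at hSZ
  have hk : (0 : ℝ) < Fintype.card k := by exact_mod_cast Fintype.card_pos
  have h1 : ((#{c : ι → k | MvPolynomial.eval c P = 0} : ℕ) : ℝ) / (Fintype.card k : ℝ) ^ Fintype.card ι ≤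
      (Q.totalDegree : ℝ) / Fintype.card k := by
    have h2 := (NNRat.cast_le (K := ℝ)).mpr hSZ
    push_cast at h2
    exact h2
  unfold E
  have e1 : ∑ c : ι → k, (if MvPolynomial.eval c P = 0 then (1 : ℝ) else 0) =
      ((#{c : ι → k | MvPolynomial.eval c P = 0} : ℕ) : ℝ) := by
    rw [Finset.card_filter]
    push_cast
    rfl
  have e2 : (Fintype.card (ι → k) : ℝ) = (Fintype.card k : ℝ) ^ Fintype.card ι := by
    rw [Fintype.card_fun]; push_cast; rfl
  rw [e1, e2]
  refine h1.trans ?_
  gcongr

section
variable {K : Type} [Field K] [NumberField K] {J : Type} [Fintype J] [DecidableEq J] {n : ℕ}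
  (f : J → MvPolynomial (Fin (n + 1)) (𝓞 K))

open Classical in
/-- the indicator of the members that are singular modulo `v` -/
noncomputable def bad (v : HeightOneSpectrum (𝓞 K)) (c : J → kv v) : ℝ := if SmoothMod f v c then 0 else 1

theorem bad_sq (v : HeightOneSpectrum (𝓞 K)) (c : J → kv v) : bad f v c ^ 2 = bad f v c := by
  unfold bad; split_ifs <;> norm_num

theorem bad_nonneg (v : HeightOneSpectrum (𝓞 K)) (c : J → kv v) : 0 ≤ bad f v c := by
  unfold bad; split_ifs <;> norm_num

theorem bad_le_one (v : HeightOneSpectrum (𝓞 K)) (c : J → kv v) : bad f v c ≤ 1 := by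
  unfold bad; split_ifs <;> norm_num

/-- what the discriminant gives -/
theorem exists_bad {d : ℕ} (hd : 1 ≤ d) (hf : ∀ i, (f i).IsHomogeneous d) (hs : (smooth f).Nonempty) :
    ∃ (D : ℝ) (Bd : Set (HeightOneSpectrum (𝓞 K))), 0 ≤ D ∧ Bd.Finite ∧
      (∀ v, v ∉ Bd → E (bad f v) ≤ D / nv v) ∧
      ∀ (ι : Type) [Fintype ι] [DecidableEq ι] (ω : Module.Basis ι ℤ (𝓞 K)), ∃ Cb : ℝ, 0 ≤ Cb ∧ Thin ω (smooth f) Cb := by
  classical
  obtain ⟨c0, hc0⟩ := hs
  obtain ⟨P, hP0, hP⟩ := exists_disc f hd hf c0 hc0
  refine ⟨P.totalDegree, {v | MvPolynomial.eval c0 P ∈ v.asIdeal}, by positivity, ?_, fun v hv => ?_, fun ι _ _ ω => ?_⟩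
  · have h1 := Ideal.finite_factors (R := 𝓞 K) (I := Ideal.span {MvPolynomial.eval c0 P}) (by
      rw [Ne, Ideal.zero_eq_bot, Ideal.span_singleton_eq_bot]
      exact hP0)
    refine h1.subset fun v hv => ?_
    show v.asIdeal ∣ Ideal.span {MvPolynomial.eval c0 P}
    rw [Ideal.dvd_span_singleton]
    exact hv
  · set Pv : MvPolynomial J (kv v) := MvPolynomial.map (res v) P with hPv
    have hPv0 : Pv ≠ 0 := by
      intro h0
      apply hv
      show MvPolynomial.eval c0 P ∈ v.asIdeal
      rw [← Ideal.Quotient.eq_zero_iff_mem]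
      have h1 : res v (MvPolynomial.eval c0 P) = MvPolynomial.eval (fun i => res v (c0 i)) Pv := by
        rw [hPv, MvPolynomial.eval_map]
        have := MvPolynomial.eval₂_comp_left (res v) (RingHom.id (𝓞 K)) c0 P
        rw [MvPolynomial.eval₂_id] at this
        rw [this]
        rfl
      show res v (MvPolynomial.eval c0 P) = 0
      rw [h1, h0, map_zero]
    have h1 := E_zero hPv0
    rw [card_kv] at h1
    have h2 : (Pv.totalDegree : ℝ) ≤ P.totalDegree := by
      have : Pv.totalDegree ≤ P.totalDegree := by
        refine Finset.sup_mono ?_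
        exact MvPolynomial.support_map_subset _ _
      exact_mod_cast this
    have h3 : E (bad f v) ≤ E (fun c : J → kv v => if MvPolynomial.eval c Pv = 0 then (1 : ℝ) else 0) := by
      refine E_mono fun c => ?_
      unfold bad
      by_cases hc : MvPolynomial.eval c Pv = 0
      · rw [if_pos hc]; split_ifs <;> norm_num
      · rw [if_neg hc]
        have h4 : SmoothMod f v c := by
          unfold SmoothMod resForm
          refine hP _ _ _ ?_
          have h5 : MvPolynomial.eval₂ ((algebraMap (kv v) (AlgebraicClosure (kv v))).comp (res v))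
              (fun i => algebraMap (kv v) (AlgebraicClosure (kv v)) (c i)) P =
              algebraMap (kv v) (AlgebraicClosure (kv v)) (MvPolynomial.eval c Pv) := by
            rw [hPv, MvPolynomial.eval_map, MvPolynomial.hom_eval₂]
          rw [h5]
          intro h0
          exact hc ((map_eq_zero _).1 h0)
        rw [if_pos h4]
    refine h3.trans (h1.trans ?_)
    have := nv_pos v
    gcongr
  · exact thin_of_poly ω P c0 hP0 (smooth f) fun t ht => by
      show IsSmooth (form f (toBar K) (fun i => toBar K (t i)))
      refine hP _ _ _ ?_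
      have h5 : MvPolynomial.eval₂ (toBar K) (fun i => toBar K (t i)) P = toBar K (MvPolynomial.eval t P) := by
        have := MvPolynomial.eval₂_comp_left (toBar K) (RingHom.id (𝓞 K)) t P
        rw [MvPolynomial.eval₂_id] at this
        rw [this]
        rfl
      rw [h5]
      intro h0
      apply ht
      have h6 : Function.Injective (toBar K) := by
        unfold toBar
        exact (algebraMap K (AlgebraicClosure K)).injective.comp NumberField.RingOfIntegers.coe_injective
      exact h6 (by rw [h0, map_zero])

end

end Run7.h876.LS
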