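import Pool.Agent.Run7.h876.LS.Form
import Pool.Agent.Y722.LS.Bad

/-!
# A discriminant of a linear system over the integers of a number field
-/

set_option autoImplicit false

namespace Run7.h876.LS

open Finset NumberField
open Pool.Agent.Y722.HS (IsSmooth Mon mkMon mkMon_apply mev)
open Pool.Agent.Y722.LS (toFs toFs_inj hom_mul)

section loc
attribute [local instance] MvPolynomial.algebraMvPolynomial

theorem clear_den {K : Type} [Field K] [NumberField K] {σ : Type*} (I : Ideal (MvPolynomial σ (𝓞 K)))
    (z : MvPolynomial σ (𝓞 K))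
    (h : MvPolynomial.map (algebraMap (𝓞 K) K) z ∈ I.map (MvPolynomial.map (algebraMap (𝓞 K) K))) :
    ∃ a : 𝓞 K, a ≠ 0 ∧ MvPolynomial.C a * z ∈ I := by
  have h1 : (algebraMap (MvPolynomial σ (𝓞 K)) (MvPolynomial σ K)) =
      MvPolynomial.map (algebraMap (𝓞 K) K) := by
    rw [MvPolynomial.algebraMap_def]
  rw [← h1] at h
  rw [IsLocalization.mem_map_algebraMap_iff ((nonZeroDivisors (𝓞 K)).map (MvPolynomial.C (σ := σ)))
    (MvPolynomial σ K)] at h
  obtain ⟨⟨x, m⟩, hx⟩ := h
  obtain ⟨a, ha, hm⟩ := m.2
  refine ⟨a, nonZeroDivisors.ne_zero ha, ?_⟩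
  have h2 : z * (m : MvPolynomial σ (𝓞 K)) = x := by
    rw [h1] at hx
    apply MvPolynomial.map_injective (algebraMap (𝓞 K) K) NumberField.RingOfIntegers.coe_injective
    rw [map_mul]
    exact hx
  rw [hm, mul_comm, h2]
  exact x.2

end loc

section
variable {K : Type} [Field K] [NumberField K] {n : ℕ} {ι : Type} [Fintype ι] [DecidableEq ι]

/-- The form with coefficients in the ring of integers. -/
noncomputable def zform (f : ι → MvPolynomial (Fin (n + 1)) (𝓞 K)) (c : ι → 𝓞 K) :
    MvPolynomial (Fin (n + 1)) (𝓞 K) := ∑ i, MvPolynomial.C (c i) * f i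

theorem form_cast (f : ι → MvPolynomial (Fin (n + 1)) (𝓞 K)) {R : Type} [CommRing R] (φ : 𝓞 K →+* R) (c : ι → 𝓞 K) :
    form f φ (fun i => φ (c i)) = MvPolynomial.map φ (zform f c) := by
  simp [form, zform, map_sum]

/-- the embedding of the integers in the algebraic closure -/
noncomputable abbrev toBar (K : Type) [Field K] [NumberField K] : 𝓞 K →+* AlgebraicClosure K :=
  (algebraMap K (AlgebraicClosure K)).comp (algebraMap (𝓞 K) K)

/-- If a member is smooth, then a multiple of a power of every variable is a combination of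
the derivatives of the form, over the ring of integers. -/
theorem exists_pow (f : ι → MvPolynomial (Fin (n + 1)) (𝓞 K)) {d : ℕ} (hd : 1 ≤ d)
    (hf : ∀ i, (f i).IsHomogeneous d) (c0 : ι → 𝓞 K)
    (hs : IsSmooth (form f (toBar K) (fun i => toBar K (c0 i)))) :
    ∃ (a : 𝓞 K) (k : ℕ), a ≠ 0 ∧ ∀ i, MvPolynomial.C a * MvPolynomial.X i ^ k ∈
      Ideal.span (Set.range fun j => MvPolynomial.pderiv j (zform f c0)) := by
  set F0 := zform f c0 with hF0
  set I := Ideal.span (Set.range fun j => MvPolynomial.pderiv j F0) with hI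
  have hF0h : F0.IsHomogeneous d := by
    rw [hF0, zform]
    refine MvPolynomial.IsHomogeneous.sum _ _ _ fun i _ => ?_
    have := (MvPolynomial.isHomogeneous_C (Fin (n + 1)) (c0 i)).mul (hf i)
    rwa [zero_add] at this
  have hmap : I.map (MvPolynomial.map (algebraMap (𝓞 K) K)) =
      Ideal.span (Set.range fun j => MvPolynomial.map (algebraMap (𝓞 K) K)
        (MvPolynomial.pderiv j F0)) := by
    rw [hI, Ideal.map_span, ← Set.range_comp]
    rfl
  have hzero : MvPolynomial.zeroLocus (AlgebraicClosure K) (I.map (MvPolynomial.map (algebraMap (𝓞 K) K))) ⊆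
      ({0} : Set (Fin (n + 1) → AlgebraicClosure K)) := by
    intro x hx
    rw [hmap, MvPolynomial.zeroLocus_span] at hx
    by_contra hx0
    have hx1 : ∀ j, MvPolynomial.eval x (MvPolynomial.pderiv j
        (form f (toBar K) (fun i => toBar K (c0 i)))) = 0 := by
      intro j
      have h1 := hx _ ⟨j, rfl⟩
      rw [form_cast, MvPolynomial.pderiv_map, MvPolynomial.eval_map]
      rw [MvPolynomial.aeval_def, MvPolynomial.eval₂_map] at h1
      exact h1
    have hF : (form f (toBar K) (fun i => toBar K (c0 i))).IsHomogeneous d := by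
      rw [form_cast]
      exact hF0h.map _
    have hE := congrArg (MvPolynomial.eval x) hF.sum_X_mul_pderiv
    rw [map_sum] at hE
    simp only [map_mul, hx1, mul_zero, Finset.sum_const_zero, nsmul_eq_mul, map_natCast] at hE
    have hd0 : (d : AlgebraicClosure K) ≠ 0 := by exact_mod_cast (by omega : d ≠ 0)
    have hF1 : MvPolynomial.eval x (form f (toBar K) (fun i => toBar K (c0 i))) = 0 := by
      rcases mul_eq_zero.mp hE.symm with h | h
      · exact absurd h hd0
      · exact h
    obtain ⟨i, hi⟩ := hs x hx0 hF1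
    exact hi (hx1 i)
  have hrad : ∀ i : Fin (n + 1), ∃ k : ℕ, ∃ a : 𝓞 K, a ≠ 0 ∧
      MvPolynomial.C a * MvPolynomial.X i ^ k ∈ I := by
    intro i
    have h1 : (MvPolynomial.X i : MvPolynomial (Fin (n + 1)) K) ∈
        (I.map (MvPolynomial.map (algebraMap (𝓞 K) K))).radical := by
      rw [← MvPolynomial.vanishingIdeal_zeroLocus_eq_radical (K := AlgebraicClosure K),
        MvPolynomial.mem_vanishingIdeal_iff]
      intro x hx
      have h2 := hzero hx
      rw [Set.mem_singleton_iff] at h2
      rw [h2]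
      simp
    obtain ⟨k, hk⟩ := h1
    have h3 : MvPolynomial.map (algebraMap (𝓞 K) K) (MvPolynomial.X i ^ k : MvPolynomial (Fin (n + 1)) (𝓞 K))
        ∈ I.map (MvPolynomial.map (algebraMap (𝓞 K) K)) := by
      rw [map_pow, MvPolynomial.map_X]
      exact hk
    obtain ⟨a, ha, h4⟩ := clear_den I _ h3
    exact ⟨k, a, ha, h4⟩
  choose k a ha hka using hrad
  refine ⟨∏ i, a i, ∑ i, k i, Finset.prod_ne_zero_iff.mpr fun i _ => ha i, fun i => ?_⟩
  have h1 : MvPolynomial.C (∏ i, a i) * MvPolynomial.X i ^ (∑ i, k i) =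
      (MvPolynomial.C (∏ j ∈ univ.erase i, a j) * MvPolynomial.X i ^ (∑ j ∈ univ.erase i, k j)) *
        (MvPolynomial.C (a i) * MvPolynomial.X i ^ (k i)) := by
    rw [← Finset.mul_prod_erase univ _ (Finset.mem_univ i),
      ← Finset.add_sum_erase univ _ (Finset.mem_univ i), map_mul, pow_add]
    ring
  rw [h1]
  exact I.mul_mem_left _ (hka i)

/-- The value of a form, by its coefficients. -/
theorem eval_hom {D : ℕ} {R : Type} [CommRing R] (φ : 𝓞 K →+* R) (P : MvPolynomial (Fin (n + 1)) (𝓞 K))
    (hP : P.IsHomogeneous D) (x : Fin (n + 1) → R) :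
    MvPolynomial.eval₂ φ x P = ∑ ν : Mon n D, φ (P.coeff (toFs ν)) * mev x ν := by
  classical
  rw [MvPolynomial.eval₂_eq']
  have h1 : ∀ ν : Mon n D, φ (P.coeff (toFs ν)) * mev x ν =
      (fun m : Fin (n + 1) →₀ ℕ => φ (P.coeff m) * ∏ i, x i ^ m i) (toFs ν) := by
    intro ν
    simp [mev, toFs]
  rw [Finset.sum_congr rfl fun ν _ => h1 ν, ← Finset.sum_image (s := Finset.univ)
    (f := fun m : Fin (n + 1) →₀ ℕ => φ (P.coeff m) * ∏ i, x i ^ m i)
    (g := toFs (n := n) (D := D)) (fun a _ b _ h => toFs_inj h)]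
  apply Finset.sum_subset
  · intro m hm
    rw [Finset.mem_image]
    have h2 : ∑ i, m i = D := by
      have h3 := hP (MvPolynomial.mem_support_iff.mp hm)
      rw [Finsupp.weight_apply, Finsupp.sum_fintype _ _ (fun i => by simp)] at h3
      simpa using h3
    refine ⟨mkMon (fun i => m i) h2, Finset.mem_univ _, ?_⟩
    ext i
    simp [toFs]
  · intro m _ hm
    rw [MvPolynomial.notMem_support_iff.mp hm]
    simp

/-- The matrix of the coefficients of linear combinations. -/
noncomputable def Tm {D : ℕ} (R : Mon n D → ι → MvPolynomial (Fin (n + 1)) (𝓞 K)) {S : Type}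
    [CommRing S] (φ : 𝓞 K →+* S) (c : ι → S) : Matrix (Mon n D) (Mon n D) S :=
  fun μ ν => ∑ i, c i * φ ((R μ i).coeff (toFs ν))

/-- **A discriminant.**  If a member is smooth, then there is a polynomial in the coefficients
that does not vanish at this member, and such that all members over a field at which it does not
vanish are smooth. -/
theorem exists_disc (f : ι → MvPolynomial (Fin (n + 1)) (𝓞 K)) {d : ℕ} (hd : 1 ≤ d)
    (hf : ∀ i, (f i).IsHomogeneous d) (c0 : ι → 𝓞 K)
    (hs : IsSmooth (form f (toBar K) (fun i => toBar K (c0 i)))) :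
    ∃ P : MvPolynomial ι (𝓞 K), MvPolynomial.eval c0 P ≠ 0 ∧ ∀ (L : Type) [Field L] (φ : 𝓞 K →+* L) (c : ι → L),
      MvPolynomial.eval₂ φ c P ≠ 0 → IsSmooth (form f φ c) := by
  obtain ⟨a, k, ha, hk⟩ := exists_pow f hd hf c0 hs
  set F0 := zform f c0 with hF0
  set I := Ideal.span (Set.range fun j => MvPolynomial.pderiv j F0) with hI
  have hfd : ∀ i j, (MvPolynomial.pderiv j (f i)).IsHomogeneous (d - 1) := fun i j => (hf i).pderiv
  have hF0h : F0.IsHomogeneous d := by
    rw [hF0, zform]
    refine MvPolynomial.IsHomogeneous.sum _ _ _ fun i _ => ?_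
    have := (MvPolynomial.isHomogeneous_C (Fin (n + 1)) (c0 i)).mul (hf i)
    rwa [zero_add] at this
  set E : ℕ := (n + 1) * k with hE
  set D : ℕ := E + (d - 1) with hD
  -- all monomials of degree `D`
  have hmon : ∀ μ : Mon n D, ∃ G : Fin (n + 1) → MvPolynomial (Fin (n + 1)) (𝓞 K),
      (∀ j, (G j).IsHomogeneous E) ∧
        ∑ j, G j * MvPolynomial.pderiv j F0 = MvPolynomial.monomial (toFs μ) a := by
    intro μ
    have h1 : ∃ i, k ≤ (μ.1 i : ℕ) := by
      by_contra hcon
      push Not at hcon
      have h2 : ∑ i, (μ.1 i : ℕ) < ∑ _i : Fin (n + 1), k := by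
        apply Finset.sum_lt_sum_of_nonempty ⟨0, Finset.mem_univ _⟩
        intro i _
        exact hcon i
      rw [μ.2] at h2
      simp at h2
      omega
    obtain ⟨i, hi⟩ := h1
    have h2 : MvPolynomial.monomial (toFs μ) a ∈ I := by
      have h3 : (MvPolynomial.monomial (toFs μ) a : MvPolynomial (Fin (n + 1)) (𝓞 K)) =
          (∏ j, MvPolynomial.X j ^ ((μ.1 j : ℕ) - if j = i then k else 0)) *
            (MvPolynomial.C a * MvPolynomial.X i ^ k) := by
        rw [MvPolynomial.monomial_eq, Finsupp.prod_fintype _ _ (fun i => by simp)]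
        have h4 : ∀ j, (MvPolynomial.X j : MvPolynomial (Fin (n + 1)) (𝓞 K)) ^ (toFs μ j) =
            MvPolynomial.X j ^ ((μ.1 j : ℕ) - if j = i then k else 0) *
              MvPolynomial.X j ^ (if j = i then k else 0) := by
          intro j
          rw [← pow_add]
          congr 1
          have : toFs μ j = (μ.1 j : ℕ) := by simp [toFs]
          rw [this]
          split_ifs with hj
          · subst hj; omega
          · simp
        rw [Finset.prod_congr rfl fun j _ => h4 j, Finset.prod_mul_distrib]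
        have h5 : ∏ j, (MvPolynomial.X j : MvPolynomial (Fin (n + 1)) (𝓞 K)) ^ (if j = i then k else 0) =
            MvPolynomial.X i ^ k := by
          rw [Finset.prod_eq_single i]
          · rw [if_pos rfl]
          · intro j _ hj
            rw [if_neg hj, pow_zero]
          · intro h; exact absurd (Finset.mem_univ _) h
        rw [h5]
        ring
      rw [h3]
      exact I.mul_mem_left _ (hk i)
    rw [hI, Ideal.mem_span_range_iff_exists_fun] at h2
    obtain ⟨g, hg⟩ := h2
    refine ⟨fun j => MvPolynomial.homogeneousComponent E (g j), fun j =>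
      MvPolynomial.homogeneousComponent_isHomogeneous E (g j), ?_⟩
    have h3 : ∀ j, MvPolynomial.homogeneousComponent E (g j) * MvPolynomial.pderiv j F0 =
        MvPolynomial.homogeneousComponent D (g j * MvPolynomial.pderiv j F0) := by
      intro j
      rw [hD, hom_mul _ _ _ _ hF0h.pderiv]
    rw [Finset.sum_congr rfl fun j _ => h3 j, ← map_sum, hg]
    have h4 : (MvPolynomial.monomial (toFs μ) a : MvPolynomial (Fin (n + 1)) (𝓞 K)).IsHomogeneous D := by
      apply MvPolynomial.isHomogeneous_monomial
      rw [Finsupp.degree_eq_sum]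
      have : ∀ i, toFs μ i = (μ.1 i : ℕ) := by intro i; simp [toFs]
      rw [Finset.sum_congr rfl fun i _ => this i]
      exact μ.2
    rw [MvPolynomial.homogeneousComponent_of_mem h4, if_pos rfl]
  choose G hGh hG using hmon
  -- the coefficients of the rows
  set R : Mon n D → ι → MvPolynomial (Fin (n + 1)) (𝓞 K) := fun μ i =>
    ∑ j, G μ j * MvPolynomial.pderiv j (f i) with hR
  have hRh : ∀ μ i, (R μ i).IsHomogeneous D := by
    intro μ i
    refine MvPolynomial.IsHomogeneous.sum _ _ _ fun j _ => ?_
    exact (hGh μ j).mul (hfd i j)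
  refine ⟨(Tm R (MvPolynomial.C (σ := ι)) (fun i => (MvPolynomial.X i : MvPolynomial ι (𝓞 K)))).det, ?_, ?_⟩
  · have h1 : (MvPolynomial.eval c0) (Tm R (MvPolynomial.C (σ := ι)) (fun i => (MvPolynomial.X i : MvPolynomial ι (𝓞 K)))).det =
        (Tm R (RingHom.id _) c0).det := by
      rw [RingHom.map_det]
      congr 1
      ext μ ν
      simp [Tm, map_sum]
    rw [h1]
    have h2 : Tm R (RingHom.id _) c0 = Matrix.diagonal (fun _ => a) := by
      ext μ ν
      have h3 : Tm R (RingHom.id _) c0 μ ν = (∑ j, G μ j * MvPolynomial.pderiv j F0).coeff (toFs ν) := by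
        have h4 : ∑ j, G μ j * MvPolynomial.pderiv j F0 =
            ∑ i, MvPolynomial.C (c0 i) * R μ i := by
          rw [hF0, zform, hR]
          simp only [map_sum, Finset.mul_sum]
          rw [Finset.sum_comm]
          refine Finset.sum_congr rfl fun i _ => Finset.sum_congr rfl fun j _ => ?_
          rw [Derivation.leibniz, MvPolynomial.pderiv_C, smul_zero, add_zero, smul_eq_mul]
          ring
        rw [h4, MvPolynomial.coeff_sum]
        simp only [Tm, MvPolynomial.coeff_C_mul, RingHom.id_apply]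
      rw [h3, hG, MvPolynomial.coeff_monomial, Matrix.diagonal_apply]
      by_cases h : μ = ν
      · rw [if_pos h, if_pos (by rw [h])]
      · rw [if_neg h, if_neg (fun h' => h (toFs_inj h'))]
    rw [h2, Matrix.det_diagonal, Finset.prod_const]
    exact pow_ne_zero _ ha
  · intro L _ φ c hc
    have h1 : MvPolynomial.eval₂ φ c
        (Tm R (MvPolynomial.C (σ := ι)) (fun i => (MvPolynomial.X i : MvPolynomial ι (𝓞 K)))).det = (Tm R φ c).det := by
      have h2 : MvPolynomial.eval₂ φ c
          (Tm R (MvPolynomial.C (σ := ι)) (fun i => (MvPolynomial.X i : MvPolynomial ι (𝓞 K)))).det =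
          (MvPolynomial.eval₂Hom φ c)
            (Tm R (MvPolynomial.C (σ := ι)) (fun i => (MvPolynomial.X i : MvPolynomial ι (𝓞 K)))).det := rfl
      rw [h2, RingHom.map_det]
      congr 1
      ext μ ν
      simp only [Tm, RingHom.mapMatrix_apply, Matrix.map_apply, map_sum, map_mul, MvPolynomial.eval₂Hom_C,
        MvPolynomial.eval₂Hom_X']
    rw [h1] at hc
    intro x hx _
    by_contra hcon
    push Not at hcon
    apply hc
    obtain ⟨i, hi⟩ : ∃ i, x i ≠ 0 := Function.ne_iff.mp hx
    refine Matrix.exists_mulVec_eq_zero_iff.mp ⟨fun ν => mev x ν, ?_, ?_⟩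
    · intro h0
      have hs : ∑ j : Fin (n + 1), (if j = i then D else 0) = D := by simp
      have h1 := congrFun h0 (mkMon _ hs)
      simp only [mev, mkMon_apply, Pi.zero_apply] at h1
      rw [Finset.prod_eq_zero_iff] at h1
      obtain ⟨j, _, hj⟩ := h1
      split_ifs at hj with hji
      · subst hji
        by_contra h
        exact pow_ne_zero _ hi hj
      · simp at hj
    · funext μ
      have h2 : ∑ ν, Tm R φ c μ ν * mev x ν =
          ∑ j, MvPolynomial.eval₂ φ x (G μ j) * MvPolynomial.eval x (MvPolynomial.pderiv j (form f φ c)) := by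
        have h3 : ∑ ν, Tm R φ c μ ν * mev x ν = ∑ i, c i * MvPolynomial.eval₂ φ x (R μ i) := by
          simp only [Tm, Finset.sum_mul]
          rw [Finset.sum_comm]
          refine Finset.sum_congr rfl fun i _ => ?_
          rw [eval_hom φ _ (hRh μ i), Finset.mul_sum]
          refine Finset.sum_congr rfl fun ν _ => by ring
        rw [h3]
        have h6 : ∀ i, MvPolynomial.eval₂ φ x (R μ i) =
            ∑ j, MvPolynomial.eval₂ φ x (G μ j) * MvPolynomial.eval₂ φ x (MvPolynomial.pderiv j (f i)) := by
          intro i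
          rw [hR]
          simp only [← MvPolynomial.coe_eval₂Hom, map_sum, map_mul]
        simp only [h6, Finset.mul_sum]
        rw [Finset.sum_comm]
        refine Finset.sum_congr rfl fun j _ => ?_
        have h4 : MvPolynomial.eval x (MvPolynomial.pderiv j (form f φ c)) =
            ∑ i, c i * MvPolynomial.eval₂ φ x (MvPolynomial.pderiv j (f i)) := by
          rw [form, map_sum, map_sum]
          refine Finset.sum_congr rfl fun i _ => ?_
          rw [Derivation.leibniz, MvPolynomial.pderiv_C, smul_zero, add_zero, smul_eq_mul,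
            map_mul, MvPolynomial.eval_C, MvPolynomial.pderiv_map, MvPolynomial.eval_map]
        rw [h4, Finset.mul_sum]
        refine Finset.sum_congr rfl fun i _ => by ring
      have h5 : (Tm R φ c).mulVec (fun ν => mev x ν) μ = ∑ ν, Tm R φ c μ ν * mev x ν := by
        simp [Matrix.mulVec, dotProduct]
      rw [h5, h2]
      simp [hcon]

end

end Run7.h876.LS
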