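import Pool.Agent.Run7.h876.LS.Count
import Pool.Agent.Run7.h876.LS.Disc
import Pool.Agent.Run7.h876.MM.Red

/-!
# The L-functions of the middle cohomology of the members of a linear system
-/

set_option autoImplicit false

namespace Run7.h876.LS

open NumberField IsDedekindDomain
open Pool.Agent.Y722.HS (IsSmooth)
open Run7.h876.MM (nv kv instFieldKv)

section
variable {K : Type} [Field K] [NumberField K] {J : Type} [Fintype J] {n : ℕ}
  (f : J → MvPolynomial (Fin (n + 1)) (𝓞 K))

/-- The reduction modulo `v`. -/
noncomputable abbrev res (v : HeightOneSpectrum (𝓞 K)) : 𝓞 K →+* kv v := Ideal.Quotient.mk v.asIdeal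

/-- The member of the linear system with coefficients `c` in the residue field at `v`, over an
extension `E` of the residue field. -/
noncomputable def resForm (v : HeightOneSpectrum (𝓞 K)) (E : Type) [Field E] [Algebra (kv v) E] (c : J → kv v) :
    MvPolynomial (Fin (n + 1)) E :=
  form f ((algebraMap (kv v) E).comp (res v)) (fun i => algebraMap (kv v) E (c i))

/-- The hypersurface with coefficients `c` in the residue field is smooth. -/
def SmoothMod (v : HeightOneSpectrum (𝓞 K)) (c : J → kv v) : Prop :=
  IsSmooth (resForm f v (AlgebraicClosure (kv v)) c)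

/-- The hypersurface `X_t : ∑ t i f i = 0` is smooth modulo `v`. -/
def GoodAt (t : J → 𝓞 K) (v : HeightOneSpectrum (𝓞 K)) : Prop := SmoothMod f v (fun i => res v (t i))

/-- The `α v j` are the eigenvalues of the Frobenius at `v` on the middle cohomology `H^(n-1)` of the
hypersurface `X_t` in `ℙⁿ`, for the `v` at which it is smooth: the number of the points over every
extension `E` of the residue field is `∑_{i < n, 2 i ≠ n - 1} |E|^i + (-1)^(n-1) ∑ α_j^[E : k(v)]` (the
number of the nonzero vectors is `|E| - 1` times as large), and the absolute values are at most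
`Nv^((n-1)/2)`.  (By Grothendieck and Deligne such numbers exist.) -/
structure IsFrobenius (b : ℕ) (t : J → 𝓞 K) (α : HeightOneSpectrum (𝓞 K) → Fin b → ℂ) : Prop where
  bound : ∀ v, GoodAt f t v → ∀ j, ‖α v j‖ ≤ (nv v : ℝ) ^ (((n : ℝ) - 1) / 2)
  count : ∀ v, GoodAt f t v → ∀ (E : Type) [Field E] [Fintype E] [Algebra (kv v) E],
    (cone (resForm f v E (fun i => res v (t i))) : ℂ) = ((Fintype.card E : ℂ) - 1) *
      ((∑ i ∈ (Finset.range n).filter (fun i => 2 * i ≠ n - 1), (Fintype.card E : ℂ) ^ i) +
        (-1) ^ (n - 1) * ∑ j, α v j ^ Module.finrank (kv v) E)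

open Classical in
/-- The Euler factor of the middle cohomology: `∏ (1 - α_j Nv^(-s))⁻¹` if `X_t` is smooth modulo `v`,
and `1` otherwise. -/
noncomputable def factor {b : ℕ} (t : J → 𝓞 K) (α : HeightOneSpectrum (𝓞 K) → Fin b → ℂ)
    (v : HeightOneSpectrum (𝓞 K)) (s : ℂ) : ℂ :=
  if GoodAt f t v then ∏ j, (1 - α v j * (nv v : ℂ) ^ (-s))⁻¹ else 1

/-- The L-function of the middle cohomology of `X_t`, without the Euler factors at the other places. -/
noncomputable def LSeries {b : ℕ} (t : J → 𝓞 K) (α : HeightOneSpectrum (𝓞 K) → Fin b → ℂ) (s : ℂ) : ℂ :=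
  ∏' v : HeightOneSpectrum (𝓞 K), factor f t α v s

open Classical in
/-- The part `Nv ≤ Z` of the Euler product, a finite product. -/
noncomputable def partialProduct {b : ℕ} (Z : ℕ) (t : J → 𝓞 K) (α : HeightOneSpectrum (𝓞 K) → Fin b → ℂ) (s : ℂ) : ℂ :=
  ∏' v : HeightOneSpectrum (𝓞 K), if nv v ≤ Z then factor f t α v s else 1

/-- The parameters for which the hypersurface `X_t` is smooth. -/
def smooth : Set (J → 𝓞 K) := {t | IsSmooth (form f (toBar K) (fun i => toBar K (t i)))}

end

end Run7.h876.LS
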