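import Pool.Agent.Run7.h876.LS.Odd2

/-!
# Linear systems of hypersurfaces of odd dimension: the moments
-/

set_option autoImplicit false
set_option linter.unusedSectionVars false

namespace Run7.h876.LS

open NumberField IsDedekindDomain Finset Filter Topology
open Pool.Agent.Y722.HS (IsSmooth)
open Run7.h876.MM (nv kv two_le_nv nv_pos avg card_kv xv norm_xv instFieldKv instFintypeKv instDecKv
  norm_avg_le avg_sub' SZ mem_SZ)
open Run7.h876.EN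
open Run7.h876.HY (one_le_nv)
open Run7.h876.GN

/-- **The order at the centre.** -/
theorem centre_order {K : Type} [Field K] [NumberField K] (i : ℕ) {G : ℂ → ℂ} (hG : DifferentiableOn ℂ G {s | (i : ℝ) + 5 / 6 < s.re})
    (hG2 : ∀ x : ℝ, (i : ℝ) + 5 / 6 < x → ∃ r : ℝ, 0 < r ∧ G x = r) (n κ : ℤ) :
    ∃ c : ℝ, 0 < c ∧ Tendsto (fun x : ℝ => ((x : ℂ) - (i + 1)) ^ (κ + n) *
      (dedekindZeta K (x - i) ^ n * dedekindZeta K (2 * x - (2 * i + 1)) ^ κ * G x)) (𝓝[>] ((i : ℝ) + 1)) (𝓝 (c : ℂ)) := by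
  obtain ⟨g, hg0, hg⟩ := hG2 (i + 1) (by linarith)
  set R := dedekindZeta_residue K with hR
  have hR0 : 0 < R := dedekindZeta_residue_pos K
  have hRc : (R : ℂ) ≠ 0 := by exact_mod_cast hR0.ne'
  have hRc2 : ((R / 2 : ℝ) : ℂ) ≠ 0 := by exact_mod_cast (by positivity : R / 2 ≠ 0)
  refine ⟨R ^ n * (R / 2) ^ κ * g, by positivity, ?_⟩
  have h1 := tendsto_sub_one_mul_dedekindZeta_nhdsGT K
  have h0 : Tendsto (fun x : ℝ => ((x : ℂ) - (i + 1)) * dedekindZeta K (x - i)) (𝓝[>] ((i : ℝ) + 1)) (𝓝 ((R : ℝ) : ℂ)) := by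
    have hm : Tendsto (fun x : ℝ => x - i) (𝓝[>] ((i : ℝ) + 1)) (𝓝[>] 1) := by
      refine tendsto_nhdsWithin_iff.2 ⟨?_, ?_⟩
      · have : Tendsto (fun x : ℝ => x - i) (𝓝 ((i : ℝ) + 1)) (𝓝 ((i : ℝ) + 1 - i)) := Continuous.tendsto (by fun_prop) _
        have e : (i : ℝ) + 1 - i = 1 := by ring
        rw [e] at this
        exact this.mono_left nhdsWithin_le_nhds
      · filter_upwards [self_mem_nhdsWithin] with x hx
        have : (i : ℝ) + 1 < x := hx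
        show (1 : ℝ) < x - i
        linarith
    refine (h1.comp hm).congr fun x => ?_
    simp only [Function.comp_apply]
    push_cast
    ring
  have h2 : Tendsto (fun x : ℝ => ((x : ℂ) - (i + 1)) * dedekindZeta K (2 * x - (2 * i + 1))) (𝓝[>] ((i : ℝ) + 1))
      (𝓝 ((R / 2 : ℝ) : ℂ)) := by
    have hm : Tendsto (fun x : ℝ => 2 * x - (2 * i + 1)) (𝓝[>] ((i : ℝ) + 1)) (𝓝[>] 1) := by
      refine tendsto_nhdsWithin_iff.2 ⟨?_, ?_⟩
      · have : Tendsto (fun x : ℝ => 2 * x - (2 * i + 1)) (𝓝 ((i : ℝ) + 1)) (𝓝 (2 * ((i : ℝ) + 1) - (2 * i + 1))) :=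
          Continuous.tendsto (by fun_prop) _
        have e : 2 * ((i : ℝ) + 1) - (2 * i + 1) = 1 := by ring
        rw [e] at this
        exact this.mono_left nhdsWithin_le_nhds
      · filter_upwards [self_mem_nhdsWithin] with x hx
        have : (i : ℝ) + 1 < x := hx
        show (1 : ℝ) < 2 * x - (2 * i + 1)
        linarith
    have h3 := (h1.comp hm).mul_const (1 / 2 : ℂ)
    have e2 : (R : ℂ) * (1 / 2) = ((R / 2 : ℝ) : ℂ) := by push_cast; ring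
    rw [e2] at h3
    refine h3.congr fun x => ?_
    simp only [Function.comp_apply]
    push_cast
    ring
  have h3 : Tendsto (fun x : ℝ => G (x : ℂ)) (𝓝[>] ((i : ℝ) + 1)) (𝓝 (g : ℂ)) := by
    have h4 : ContinuousAt G (((i : ℝ) + 1 : ℝ) : ℂ) :=
      (hG.differentiableAt ((isOpen_lt continuous_const Complex.continuous_re).mem_nhds (by simp; norm_num))).continuousAt
    have h5 : Tendsto (fun x : ℝ => (x : ℂ)) (𝓝[>] ((i : ℝ) + 1)) (𝓝 (((i : ℝ) + 1 : ℝ) : ℂ)) :=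
      (Complex.continuous_ofReal.tendsto _).mono_left nhdsWithin_le_nhds
    have h6 := h4.tendsto.comp h5
    rw [hg] at h6
    exact h6
  have h4 := ((h0.zpow₀ n (Or.inl hRc)).mul (h2.zpow₀ κ (Or.inl hRc2))).mul h3
  have e : (R : ℂ) ^ n * ((R / 2 : ℝ) : ℂ) ^ κ * (g : ℂ) = ((R ^ n * (R / 2) ^ κ * g : ℝ) : ℂ) := by push_cast; ring
  rw [e] at h4
  refine h4.congr' ?_
  filter_upwards [self_mem_nhdsWithin] with x hx
  have hx1 : (i : ℝ) + 1 < x := hx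
  have hx0 : ((x : ℂ) - (i + 1)) ≠ 0 := by
    have : (x : ℂ) - (i + 1) = ((x - (i + 1) : ℝ) : ℂ) := by push_cast; ring
    rw [this]
    exact_mod_cast (by linarith : x - ((i : ℝ) + 1) ≠ 0)
  rw [mul_zpow, mul_zpow, zpow_add₀ hx0]
  ring

section
variable {K : Type} [Field K] [NumberField K] {J : Type} [Fintype J] [DecidableEq J] {i : ℕ}
  (f : J → MvPolynomial (Fin (2 * i + 2 + 1)) (𝓞 K)) {b : ℕ} {α : (J → 𝓞 K) → HeightOneSpectrum (𝓞 K) → Fin b → ℂ}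
  (hα : ∀ t, IsFrobenius f b t (α t))

theorem LD_h2 : (LD f hα).h = i + 1 / 2 := by
  show (((2 * i + 2 : ℕ) : ℝ) - 1) / 2 = i + 1 / 2
  push_cast; ring

theorem maj_odd {d : ℕ} (hd : 1 ≤ d) (hf : ∀ i, (f i).IsHomogeneous d) (hs : (smooth f).Nonempty)
    (S : Set (HeightOneSpectrum (𝓞 K))) (hS : S.Finite)
    (hsep : ∀ v, v ∉ S → ∀ (E' : Type) [Field E'] [Fintype E'] [Algebra (kv v) E'], Module.finrank (kv v) E' = 2 →
      Separates3 f ((algebraMap (kv v) E').comp (res v))) (e : ℕ) {C₀ : ℝ} (hC₀ : 0 ≤ C₀)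
    (hZ : ∀ v, v ∉ S → ∀ (E' : Type) [Field E'] [Fintype E'] [Algebra (kv v) E'], Module.finrank (kv v) E' ≤ 2 →
      |(baseCone f ((algebraMap (kv v) E').comp (res v)) : ℝ) / ((Fintype.card E' : ℝ) - 1) - e * (Fintype.card E' : ℝ) ^ i| ≤
        C₀ * (Fintype.card E' : ℝ) ^ ((i : ℝ) - 1 / 2)) (k : ℂ) :
    Maj (LD f hα) (e2 i) f2 ((i : ℝ) + 5 / 6) k ![-(k * ((e : ℝ) : ℂ)), kp k] := by
  obtain ⟨D, Bd, hD, hBd, hbad, _⟩ := exists_bad f hd hf hs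
  have hCO : 0 ≤ CO i (2 * C₀ + 2 * e + 1) D := by
    have hk1 : 0 ≤ k1 i D := Real.sqrt_nonneg _
    have hk2 : 0 ≤ k2 i D := by unfold k2; positivity
    have hk3 : 0 ≤ k3 i D := Real.sqrt_nonneg _
    unfold CO; positivity
  have main : ∀ v, v ∉ Bd ∪ S →
      |E (fun c => tr f hα v c 0) + e * (nv v : ℝ) ^ i| ≤ CO i (2 * C₀ + 2 * e + 1) D * (nv v : ℝ) ^ ((i : ℝ) - 1 / 4) ∧
      |E (fun c => (tr f hα v c 0 + e * (nv v : ℝ) ^ i) ^ 2) - (nv v : ℝ) ^ (2 * i + 1)| ≤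
        CO i (2 * C₀ + 2 * e + 1) D * (nv v : ℝ) ^ (2 * (i : ℝ) + 1 / 2) ∧
      |E (fun c => tr f hα v c 1) + (nv v : ℝ) ^ (2 * i + 1)| ≤
        CO i (2 * C₀ + 2 * e + 1) D * (nv v : ℝ) ^ (2 * (i : ℝ) + 1 / 2) := by
    intro v hv
    rw [Set.mem_union, not_or] at hv
    have hq := nv_pos v
    have hq1 := one_le_nv v
    have h2nv := two_le_nv v
    obtain ⟨E', i1, i2, i3, i4, hfr, hcard⟩ := exists_ext (k := kv v) 2 (by omega)
    obtain ⟨x, hxd⟩ : ∃ x : ℝ, x = (nv v : ℝ) ^ (1 / 4 : ℝ) := ⟨_, rfl⟩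
    obtain ⟨Q, hQ⟩ : ∃ Q : ℝ, Q = (nv v : ℝ) ^ i := ⟨_, rfl⟩
    have hx1 : 1 ≤ x := by rw [hxd]; exact Real.one_le_rpow hq1 (by norm_num)
    have hx0 : 0 < x := by linarith
    have hx : x ^ 4 = nv v := by
      rw [hxd, ← Real.rpow_natCast, ← Real.rpow_mul hq.le]
      norm_num
    have hQr : Q = (nv v : ℝ) ^ (i : ℝ) := by rw [hQ, Real.rpow_natCast]
    have hQx : Q / x = (nv v : ℝ) ^ ((i : ℝ) - 1 / 4) := by
      rw [hQr, hxd, ← Real.rpow_sub hq]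
    have hQx2 : Q / x ^ 2 = (nv v : ℝ) ^ ((i : ℝ) - 1 / 2) := by
      rw [hQr, hxd, ← Real.rpow_natCast, ← Real.rpow_mul hq.le, ← Real.rpow_sub hq]
      congr 1; push_cast; ring
    have hQ2x2 : Q ^ 2 * x ^ 2 = (nv v : ℝ) ^ (2 * (i : ℝ) + 1 / 2) := by
      rw [hQr, hxd, ← Real.rpow_natCast, ← Real.rpow_natCast, ← Real.rpow_mul hq.le, ← Real.rpow_mul hq.le, ← Real.rpow_add hq]
      congr 1; push_cast; ring
    have hQ2x4 : Q ^ 2 * x ^ 4 = (nv v : ℝ) ^ (2 * i + 1) := by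
      rw [hx, hQ]; ring
    -- the base locus over the residue field
    have hq1' : (0 : ℝ) < (nv v : ℝ) - 1 := by
      have : (2 : ℝ) ≤ nv v := by exact_mod_cast h2nv
      linarith
    have hz1 : |(zz f (res v) : ℝ) - e * Q| ≤ C₀ * (Q / x ^ 2) := by
      have h1 := hZ v hv.2 (kv v) (by rw [Module.finrank_self]; norm_num)
      rw [Algebra.algebraMap_self, RingHom.id_comp, card_kv] at h1
      have hzz : (zz f (res v) : ℝ) = (baseCone f (res v) : ℝ) / ((nv v : ℝ) - 1) := by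
        rw [baseCone_eq f (res v) hf, card_kv]
        have : ((zz f (res v) * (nv v - 1) : ℕ) : ℝ) = zz f (res v) * ((nv v : ℝ) - 1) := by
          push_cast [Nat.cast_sub (by omega : 1 ≤ nv v)]
          ring
        rw [this]
        field_simp
      rw [hzz, hQ, ← hQ, hQx2, hQ]
      exact h1
    -- the base locus over the quadratic extension
    have hz2 : (zz f (ψ E' (res v)) : ℝ) ≤ (2 * C₀ + 2 * e + 1) * Q ^ 2 := by
      have h1 := hZ v hv.2 E' (by rw [hfr])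
      have hcE : (Fintype.card E' : ℝ) = (nv v : ℝ) ^ 2 := by
        rw [card_sq hfr, card_kv]; push_cast; rfl
      have h4 : 2 ≤ nv v ^ 2 := by nlinarith
      have h4' : (0 : ℝ) < (nv v : ℝ) ^ 2 - 1 := by
        have : (2 : ℝ) ≤ (nv v : ℝ) ^ 2 := by exact_mod_cast h4
        linarith
      have hzz : (zz f (ψ E' (res v)) : ℝ) = (baseCone f (ψ E' (res v)) : ℝ) / ((nv v : ℝ) ^ 2 - 1) := by
        rw [baseCone_eq f (ψ E' (res v)) hf, card_sq hfr, card_kv]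
        have : ((zz f (ψ E' (res v)) * (nv v ^ 2 - 1) : ℕ) : ℝ) = zz f (ψ E' (res v)) * ((nv v : ℝ) ^ 2 - 1) := by
          push_cast [Nat.cast_sub (by omega : 1 ≤ nv v ^ 2)]
          ring
        rw [this]
        field_simp
      rw [hcE] at h1
      have h5 : (zz f (ψ E' (res v)) : ℝ) ≤ e * ((nv v : ℝ) ^ 2) ^ i + C₀ * ((nv v : ℝ) ^ 2) ^ ((i : ℝ) - 1 / 2) := by
        rw [hzz]
        have := (abs_le.1 h1).2
        linarith
      have h6 : ((nv v : ℝ) ^ 2) ^ ((i : ℝ) - 1 / 2) ≤ Q ^ 2 := by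
        have h7 : (1 : ℝ) ≤ (nv v : ℝ) ^ 2 := one_le_pow₀ hq1
        calc ((nv v : ℝ) ^ 2) ^ ((i : ℝ) - 1 / 2) ≤ ((nv v : ℝ) ^ 2) ^ (i : ℝ) :=
              Real.rpow_le_rpow_of_exponent_le h7 (by linarith)
          _ = Q ^ 2 := by rw [Real.rpow_natCast, hQ, ← pow_mul, ← pow_mul, mul_comm]
      have h7 : ((nv v : ℝ) ^ 2) ^ i = Q ^ 2 := by rw [hQ, ← pow_mul, ← pow_mul, mul_comm]
      rw [h7] at h5
      have h8 : C₀ * ((nv v : ℝ) ^ 2) ^ ((i : ℝ) - 1 / 2) ≤ C₀ * Q ^ 2 := by gcongr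
      have h9 : (2 * C₀ + 2 * e + 1) * Q ^ 2 = e * Q ^ 2 + C₀ * Q ^ 2 + (C₀ + e + 1) * Q ^ 2 := by ring
      have h10 : 0 ≤ (C₀ + e + 1) * Q ^ 2 := by positivity
      rw [h9]
      linarith
    have h := moments_odd f hα hf (e := e) hD hC₀ (hbad v hv.1) hfr (hsep v hv.2 E' hfr) hx1 hx hQ hz1 hz2
    rw [hQx, hQ2x2, hQ2x4, hQ] at h
    exact h
  refine maj_second (LD f hα) i (LD_h2 f hα) k (e : ℝ) (by positivity) (Bd ∪ S) (hBd.union hS) (C := CO i (2 * C₀ + 2 * e + 1) D) hCO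
    (fun v hv => ?_) (fun v hv => ?_) (fun v hv => ?_)
  · have h2 : avg Finset.univ (fun c : J → kv v => ((LD f hα).a v c 0 : ℂ)) = ((E (fun c => tr f hα v c 0) : ℝ) : ℂ) :=
      avg_eq_E _
    rw [h2, ← Complex.ofReal_add, Complex.norm_real]
    exact (main v hv).1
  · have h2 : avg Finset.univ (fun c : J → kv v => (((LD f hα).a v c 0 : ℂ) + (((e : ℝ) * (nv v : ℝ) ^ i : ℝ) : ℂ)) ^ 2) =
        ((E (fun c => (tr f hα v c 0 + e * (nv v : ℝ) ^ i) ^ 2) : ℝ) : ℂ) := by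
      rw [← avg_eq_E]
      congr 1
      funext c
      show ((tr f hα v c 0 : ℝ) + (((e : ℝ) * (nv v : ℝ) ^ i : ℝ) : ℂ)) ^ 2 = _
      push_cast
      ring
    rw [h2, ← Complex.ofReal_sub, Complex.norm_real]
    exact (main v hv).2.1
  · have h2 : avg Finset.univ (fun c : J → kv v => ((LD f hα).a v c 1 : ℂ)) = ((E (fun c => tr f hα v c 1) : ℝ) : ℂ) :=
      avg_eq_E _
    rw [h2, ← Complex.ofReal_add, Complex.norm_real]
    exact (main v hv).2.2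

end

end Run7.h876.LS
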