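import Pool.Agent.Y722.HS.Form

/-!
# Linear systems of hypersurfaces

`f i` are forms with coefficients in a ring `A`, and the members of the linear system over an
`A`-algebra `φ : A → R` are the forms `∑ c i f i` with `c i ∈ R`.
-/

set_option autoImplicit false

namespace Run7.h876.LS

open Pool.Agent.Y722.HS (IsSmooth)

/-- The member `∑ c i f i` over `R`. -/
noncomputable def form {n : ℕ} {ι : Type} [Fintype ι] {A R : Type} [CommRing A] [CommRing R]
    (f : ι → MvPolynomial (Fin (n + 1)) A) (φ : A →+* R) (c : ι → R) : MvPolynomial (Fin (n + 1)) R :=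
  ∑ i, MvPolynomial.C (c i) * MvPolynomial.map φ (f i)

/-- The value of the member `∑ c i f i` at a point. -/
noncomputable def val {n : ℕ} {ι : Type} [Fintype ι] {A R : Type} [CommRing A] [CommRing R]
    (f : ι → MvPolynomial (Fin (n + 1)) A) (φ : A →+* R) (c : ι → R) (x : Fin (n + 1) → R) : R :=
  ∑ i, c i * MvPolynomial.eval₂ φ x (f i)

section
variable {n : ℕ} {ι : Type} [Fintype ι] {A R : Type} [CommRing A] [CommRing R]
  (f : ι → MvPolynomial (Fin (n + 1)) A) (φ : A →+* R)

theorem eval_form (c : ι → R) (x : Fin (n + 1) → R) : MvPolynomial.eval x (form f φ c) = val f φ c x := by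
  unfold form val
  rw [map_sum]
  refine Finset.sum_congr rfl fun i _ => ?_
  rw [map_mul, MvPolynomial.eval_C, MvPolynomial.eval_map]

theorem map_form {S : Type} [CommRing S] (ψ : R →+* S) (c : ι → R) :
    MvPolynomial.map ψ (form f φ c) = form f (ψ.comp φ) (fun i => ψ (c i)) := by
  unfold form
  rw [map_sum]
  refine Finset.sum_congr rfl fun i _ => ?_
  rw [map_mul, MvPolynomial.map_C, MvPolynomial.map_map]

theorem val_add (a b : ι → R) (x : Fin (n + 1) → R) : val f φ (a + b) x = val f φ a x + val f φ b x := by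
  simp [val, add_mul, Finset.sum_add_distrib]

theorem val_smul (t : R) (b : ι → R) (x : Fin (n + 1) → R) : val f φ (t • b) x = t * val f φ b x := by
  simp [val, Finset.mul_sum, mul_assoc]

theorem val_zero (x : Fin (n + 1) → R) : val f φ 0 x = 0 := by
  simp [val]

/-- The forms at a multiple of a vector. -/
theorem eval₂_smul {d : ℕ} (P : MvPolynomial (Fin (n + 1)) A) (hP : P.IsHomogeneous d) (t : R) (x : Fin (n + 1) → R) :
    MvPolynomial.eval₂ φ (fun i => t * x i) P = t ^ d * MvPolynomial.eval₂ φ x P := by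
  rw [MvPolynomial.eval₂_eq', MvPolynomial.eval₂_eq', Finset.mul_sum]
  refine Finset.sum_congr rfl fun m hm => ?_
  have h1 : ∑ i, m i = d := by
    have h3 := hP (MvPolynomial.mem_support_iff.mp hm)
    rw [Finsupp.weight_apply, Finsupp.sum_fintype _ _ (fun i => by simp)] at h3
    simpa using h3
  simp only [mul_pow]
  rw [Finset.prod_mul_distrib, Finset.prod_pow_eq_pow_sum, h1]
  ring

theorem val_smul_vec {d : ℕ} (hf : ∀ i, (f i).IsHomogeneous d) (c : ι → R) (t : R) (x : Fin (n + 1) → R) :
    val f φ c (fun i => t * x i) = t ^ d * val f φ c x := by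
  unfold val
  rw [Finset.mul_sum]
  refine Finset.sum_congr rfl fun i _ => ?_
  rw [eval₂_smul φ (f i) (hf i)]
  ring

end

end Run7.h876.LS
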