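import Pool.Agent.Run7.h876.LS.Prob
import Pool.Agent.Run7.h876.LS.Form

/-!
# The number of the points of the members of a linear system over a finite field
-/

set_option autoImplicit false
set_option linter.unusedSectionVars false

namespace Run7.h876.LS

open Finset
open scoped LinearAlgebra.Projectivization

/-- The number of the nonzero vectors with coordinates in `E` at which the form `F` vanishes. -/
noncomputable def cone {n : ℕ} {E : Type} [CommRing E] (F : MvPolynomial (Fin (n + 1)) E) : ℕ :=
  Nat.card {x : Fin (n + 1) → E // x ≠ 0 ∧ MvPolynomial.eval x F = 0}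

/-- The number of the nonzero vectors at which all members vanish. -/
noncomputable def baseCone {n : ℕ} {ι : Type} [Fintype ι] {A E : Type} [CommRing A] [CommRing E]
    (f : ι → MvPolynomial (Fin (n + 1)) A) (φ : A →+* E) : ℕ :=
  Nat.card {x : Fin (n + 1) → E // x ≠ 0 ∧ ∀ i, MvPolynomial.eval₂ φ x (f i) = 0}

/-- Every point off the base locus can be separated from every other point. -/
def Separates {n : ℕ} {ι : Type} [Fintype ι] {A E : Type} [CommRing A] [CommRing E]
    (f : ι → MvPolynomial (Fin (n + 1)) A) (φ : A →+* E) : Prop :=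
  ∀ x y : Fin (n + 1) → E, (∃ i j, x i * y j ≠ x j * y i) → (∃ i, MvPolynomial.eval₂ φ x (f i) ≠ 0) →
    ∃ c : ι → E, MvPolynomial.eval x (form f φ c) ≠ 0 ∧ MvPolynomial.eval y (form f φ c) = 0

section
variable {k : Type} [Field k] [Fintype k] {V : Type} [AddCommGroup V] [Module k V] [Finite V]

theorem cone_card (Q : V → Prop) (hQ : ∀ (a : kˣ) x, Q (a • x) ↔ Q x) :
    Nat.card {x : V // x ≠ 0 ∧ Q x} = Nat.card {p : ℙ k V // Q p.rep} * (Nat.card k - 1) := by
  have h : Nat.card {x : V // x ≠ 0 ∧ Q x} = Nat.card ({p : ℙ k V // Q p.rep} × kˣ) := by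
    refine (Nat.card_congr (Equiv.ofBijective (fun z : {p : ℙ k V // Q p.rep} × kˣ =>
      (⟨z.2 • z.1.1.rep, smul_ne_zero z.2.ne_zero z.1.1.rep_nonzero, (hQ _ _).2 z.1.2⟩ : {x : V // x ≠ 0 ∧ Q x})) ⟨?_, ?_⟩)).symm
    · rintro ⟨⟨p, hp⟩, a⟩ ⟨⟨p', hp'⟩, b⟩ h
      have h1 : a • p.rep = b • p'.rep := congrArg Subtype.val h
      have h2 : p = p' := by
        rw [← p.mk_rep, ← p'.mk_rep]
        rw [Projectivization.mk_eq_mk_iff]
        refine ⟨a⁻¹ * b, ?_⟩
        rw [mul_smul, ← h1, smul_smul, inv_mul_cancel, one_smul]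
      subst h2
      have h3 : ((a : k) - (b : k)) • p.rep = 0 := by
        rw [sub_smul]
        exact sub_eq_zero.2 h1
      have h4 : (a : k) = b := by
        rcases smul_eq_zero.1 h3 with h | h
        · exact sub_eq_zero.1 h
        · exact absurd h p.rep_nonzero
      have h5 : a = b := Units.ext h4
      subst h5
      rfl
    · rintro ⟨x, hx, hQx⟩
      obtain ⟨a, ha⟩ := Projectivization.exists_smul_eq_mk_rep k x hx
      refine ⟨(⟨Projectivization.mk k x hx, ?_⟩, a⁻¹), ?_⟩
      · rw [← ha]
        exact (hQ _ _).2 hQx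
      · apply Subtype.ext
        show a⁻¹ • (Projectivization.mk k x hx).rep = x
        rw [← ha, smul_smul, inv_mul_cancel, one_smul]
  classical
  rw [h, Nat.card_prod, Nat.card_eq_fintype_card (α := kˣ), Fintype.card_units, Nat.card_eq_fintype_card (α := k)]

end

section
variable {n : ℕ} {ι : Type} [Fintype ι] [DecidableEq ι] {A : Type} [CommRing A] {k : Type} [Field k] [Fintype k]
  [DecidableEq k] (f : ι → MvPolynomial (Fin (n + 1)) A) (φ : A →+* k)

/-- the projective space -/
abbrev PP (n : ℕ) (k : Type) [Field k] : Type := ℙ k (Fin (n + 1) → k)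

noncomputable instance instFPP : Fintype (PP n k) := Fintype.ofFinite _
noncomputable instance instDPP : DecidableEq (PP n k) := Classical.decEq _

/-- the points off the base locus -/
def OffBase : Type := {p : PP n k // ∃ i, MvPolynomial.eval₂ φ p.rep (f i) ≠ 0}

noncomputable instance : Fintype (OffBase f φ) := by
  classical
  exact inferInstanceAs (Fintype {p : PP n k // ∃ i, MvPolynomial.eval₂ φ p.rep (f i) ≠ 0})
noncomputable instance : DecidableEq (OffBase f φ) := Classical.decEq _

/-- the evaluation at a vector as a functional of the member -/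
noncomputable def evl (x : Fin (n + 1) → k) : Module.Dual k (ι → k) where
  toFun c := val f φ c x
  map_add' a b := val_add f φ a b x
  map_smul' t b := val_smul f φ t b x

/-- the evaluation at a point off the base locus -/
noncomputable def ev (p : OffBase f φ) : Module.Dual k (ι → k) := evl f φ p.1.rep

theorem exists_val {x : Fin (n + 1) → k} (hx : ∃ i, MvPolynomial.eval₂ φ x (f i) ≠ 0) : ∃ c, val f φ c x ≠ 0 := by
  obtain ⟨i, hi⟩ := hx
  refine ⟨Pi.single i 1, ?_⟩
  unfold val
  rw [Finset.sum_eq_single i]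
  · rw [Pi.single_eq_same, one_mul]
    exact hi
  · intro b _ hb
    simp [hb]
  · intro h
    exact absurd (Finset.mem_univ _) h

theorem nonz : Nonz (ev f φ) := fun p => exists_val f φ p.2

theorem not_prop {p p' : PP n k} (h : p ≠ p') : ∃ i j, p.rep i * p'.rep j ≠ p.rep j * p'.rep i := by
  by_contra hc
  push Not at hc
  apply h
  rw [← p.mk_rep, ← p'.mk_rep, Projectivization.mk_eq_mk_iff]
  obtain ⟨j, hj⟩ := Function.ne_iff.1 p'.rep_nonzero
  obtain ⟨i, hi⟩ := Function.ne_iff.1 p.rep_nonzero
  have hpj : p.rep j ≠ 0 := by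
    intro h0
    have := hc i j
    rw [h0, zero_mul] at this
    rcases mul_eq_zero.1 this with h | h
    · exact hi h
    · exact hj h
  refine ⟨Units.mk0 (p.rep j / p'.rep j) (div_ne_zero hpj hj), ?_⟩
  funext l
  rw [Pi.smul_apply, Units.smul_def, Units.val_mk0, smul_eq_mul]
  have := hc l j
  have hj' : p'.rep j ≠ 0 := hj
  field_simp
  linear_combination -this

theorem sep2 (hs : Separates f φ) : Sep2 (ev f φ) := by
  intro p p' hne
  have hne' : p.1 ≠ p'.1 := fun h => hne (Subtype.ext h)
  obtain ⟨c, h1, h2⟩ := hs p.1.rep p'.1.rep (not_prop hne') p.2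
  rw [eval_form] at h1 h2
  exact ⟨c, h1, h2⟩

variable {d : ℕ}

/-- the number of the points of the base locus -/
noncomputable def zz : ℕ := Nat.card {p : PP n k // ∀ i, MvPolynomial.eval₂ φ p.rep (f i) = 0}

theorem inv_val (hf : ∀ i, (f i).IsHomogeneous d) (c : ι → k) (a : kˣ) (x : Fin (n + 1) → k) :
    MvPolynomial.eval (a • x) (form f φ c) = 0 ↔ MvPolynomial.eval x (form f φ c) = 0 := by
  rw [eval_form, eval_form]
  have h := val_smul_vec f φ hf c (a : k) x
  have e : a • x = fun i => (a : k) * x i := by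
    funext i; rfl
  rw [e, h, mul_eq_zero]
  have := pow_ne_zero d a.ne_zero
  tauto

theorem cone_eq (hf : ∀ i, (f i).IsHomogeneous d) (c : ι → k) :
    cone (form f φ c) = Nat.card {p : PP n k // val f φ c p.rep = 0} * (Fintype.card k - 1) := by
  unfold cone
  have h := cone_card (k := k) (V := Fin (n + 1) → k) (fun x => MvPolynomial.eval x (form f φ c) = 0)
    (fun a x => inv_val f φ hf c a x)
  rw [h, Nat.card_eq_fintype_card (α := k)]
  congr 1
  refine Nat.card_congr (Equiv.subtypeEquivRight fun p => ?_)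
  rw [eval_form]

theorem baseCone_eq (hf : ∀ i, (f i).IsHomogeneous d) : baseCone f φ = zz f φ * (Fintype.card k - 1) := by
  unfold baseCone zz
  have h := cone_card (k := k) (V := Fin (n + 1) → k) (fun x => ∀ i, MvPolynomial.eval₂ φ x (f i) = 0)
    (fun a x => by
      have e : a • x = fun i => (a : k) * x i := by funext i; rfl
      rw [e]
      constructor
      · intro h i
        have h1 := h i
        rw [eval₂_smul φ (f i) (hf i), mul_eq_zero] at h1
        exact h1.resolve_left (pow_ne_zero d a.ne_zero)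
      · intro h i
        rw [eval₂_smul φ (f i) (hf i), h i, mul_zero])
  rw [h, Nat.card_eq_fintype_card (α := k)]

theorem card_PP : (Fintype.card (PP n k) : ℝ) = ∑ i ∈ range (n + 1), (Fintype.card k : ℝ) ^ i := by
  have h := Projectivization.card_of_finrank k (Fin (n + 1) → k) (n := n + 1) (by simp)
  rw [← Nat.card_eq_fintype_card, h, Nat.card_eq_fintype_card]
  push_cast
  rfl

theorem card_off : (Fintype.card (OffBase f φ) : ℝ) = Fintype.card (PP n k) - zz f φ := by
  classical
  have h1 : Fintype.card (OffBase f φ) + zz f φ = Fintype.card (PP n k) := by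
    unfold zz
    rw [Nat.card_eq_fintype_card]
    have h2 := Fintype.card_subtype_compl (fun p : PP n k => ∀ i, MvPolynomial.eval₂ φ p.rep (f i) = 0)
    have h3 : Fintype.card (OffBase f φ) = Fintype.card {p : PP n k // ¬ ∀ i, MvPolynomial.eval₂ φ p.rep (f i) = 0} := by
      refine Fintype.card_congr (Equiv.subtypeEquivRight fun p => ?_)
      push Not
      rfl
    have h4 : Fintype.card {p : PP n k // ∀ i, MvPolynomial.eval₂ φ p.rep (f i) = 0} ≤ Fintype.card (PP n k) :=
      Fintype.card_subtype_le _
    rw [h3, h2]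
    omega
  rw [← h1]
  push_cast
  ring

/-- **The number of the points of a member.** -/
theorem card_pts (c : ι → k) : (Nat.card {p : PP n k // val f φ c p.rep = 0} : ℝ) =
    zz f φ + (Fintype.card (PP n k) - zz f φ) / Fintype.card k + AA (ev f φ) c := by
  classical
  have h1 : Nat.card {p : PP n k // val f φ c p.rep = 0} = zz f φ +
      Fintype.card {p : OffBase f φ // ev f φ p c = 0} := by
    unfold zz
    rw [Nat.card_eq_fintype_card, Nat.card_eq_fintype_card, ← Fintype.card_sum]
    refine Fintype.card_congr ?_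
    refine (Equiv.ofBijective (fun z : {p : PP n k // ∀ i, MvPolynomial.eval₂ φ p.rep (f i) = 0} ⊕
        {p : OffBase f φ // ev f φ p c = 0} => (Sum.elim (fun p => ⟨p.1, by
          unfold val
          exact Finset.sum_eq_zero fun i _ => by rw [p.2 i, mul_zero]⟩) (fun p => ⟨p.1.1, p.2⟩) z :
          {p : PP n k // val f φ c p.rep = 0})) ⟨?_, ?_⟩).symm
    · rintro (⟨p, hp⟩ | ⟨⟨p, hp⟩, hp2⟩) (⟨p', hp'⟩ | ⟨⟨p', hp'⟩, hp2'⟩) h
      · have : p = p' := congrArg Subtype.val h
        subst this; rfl
      · have : p = p' := congrArg Subtype.val h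
        subst this
        obtain ⟨i, hi⟩ := hp'
        exact absurd (hp i) hi
      · have : p = p' := congrArg Subtype.val h
        subst this
        obtain ⟨i, hi⟩ := hp
        exact absurd (hp' i) hi
      · have : p = p' := congrArg Subtype.val h
        subst this; rfl
    · rintro ⟨p, hp⟩
      by_cases hb : ∀ i, MvPolynomial.eval₂ φ p.rep (f i) = 0
      · exact ⟨Sum.inl ⟨p, hb⟩, rfl⟩
      · push Not at hb
        exact ⟨Sum.inr ⟨⟨p, hb⟩, hp⟩, rfl⟩
  have h2 : (Fintype.card {p : OffBase f φ // ev f φ p c = 0} : ℝ) =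
      Fintype.card (OffBase f φ) / Fintype.card k + AA (ev f φ) c := by
    unfold AA g0
    rw [Finset.sum_sub_distrib, Finset.sum_const, Finset.card_univ, nsmul_eq_mul, Fintype.card_subtype,
      Finset.card_filter]
    push_cast
    ring
  rw [h1]
  push_cast
  rw [h2, card_off]
  ring

end

end Run7.h876.LS
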