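import Mathlib

/-!
# Mean values over the members of a linear system over a finite field
-/

set_option autoImplicit false
set_option linter.unusedSectionVars false

namespace Run7.h876.LS

open Finset

/-- the mean value -/
noncomputable def E {Ω : Type*} [Fintype Ω] (f : Ω → ℝ) : ℝ := (∑ t, f t) / Fintype.card Ω

section
variable {Ω : Type*} [Fintype Ω] [Nonempty Ω]

theorem card_pos' : (0 : ℝ) < Fintype.card Ω := by exact_mod_cast Fintype.card_pos

theorem E_add (f g : Ω → ℝ) : E (fun t => f t + g t) = E f + E g := by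
  unfold E; rw [Finset.sum_add_distrib, add_div]

theorem E_sub (f g : Ω → ℝ) : E (fun t => f t - g t) = E f - E g := by
  unfold E; rw [Finset.sum_sub_distrib, sub_div]

theorem E_const (c : ℝ) : E (fun _ : Ω => c) = c := by
  have := card_pos' (Ω := Ω)
  unfold E; rw [Finset.sum_const, Finset.card_univ, nsmul_eq_mul]; field_simp

theorem E_mul (c : ℝ) (f : Ω → ℝ) : E (fun t => c * f t) = c * E f := by
  unfold E; rw [← Finset.mul_sum]; ring

theorem E_sum {β : Type*} (B : Finset β) (f : β → Ω → ℝ) : E (fun t => ∑ b ∈ B, f b t) = ∑ b ∈ B, E (f b) := by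
  unfold E
  rw [Finset.sum_comm, Finset.sum_div]

theorem E_mono {f g : Ω → ℝ} (h : ∀ t, f t ≤ g t) : E f ≤ E g := by
  have := card_pos' (Ω := Ω)
  unfold E
  exact div_le_div_of_nonneg_right (Finset.sum_le_sum fun t _ => h t) this.le

theorem E_nonneg {f : Ω → ℝ} (h : ∀ t, 0 ≤ f t) : 0 ≤ E f := by
  unfold E
  exact div_nonneg (Finset.sum_nonneg fun t _ => h t) (by positivity)

theorem abs_E_le (f : Ω → ℝ) : |E f| ≤ E (fun t => |f t|) := by
  have := card_pos' (Ω := Ω)
  unfold E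
  rw [abs_div, abs_of_pos this]
  exact div_le_div_of_nonneg_right (Finset.abs_sum_le_sum_abs _ _) this.le

/-- Cauchy-Schwarz. -/
theorem E_mul_sq_le (f g : Ω → ℝ) : E (fun t => f t * g t) ^ 2 ≤ E (fun t => f t ^ 2) * E (fun t => g t ^ 2) := by
  have hp := card_pos' (Ω := Ω)
  have h := Finset.sum_mul_sq_le_sq_mul_sq (Finset.univ : Finset Ω) f g
  unfold E
  rw [div_pow, div_mul_div_comm, ← sq]
  exact div_le_div_of_nonneg_right h (by positivity)

theorem abs_E_mul_le (f g : Ω → ℝ) {a b : ℝ} (ha : E (fun t => f t ^ 2) ≤ a) (hb : E (fun t => g t ^ 2) ≤ b) :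
    |E (fun t => f t * g t)| ≤ Real.sqrt (a * b) := by
  refine Real.le_sqrt_of_sq_le ?_
  rw [sq_abs]
  refine (E_mul_sq_le f g).trans ?_
  have h1 : 0 ≤ E (fun t => f t ^ 2) := E_nonneg fun t => by positivity
  have h2 : 0 ≤ E (fun t => g t ^ 2) := E_nonneg fun t => by positivity
  exact mul_le_mul ha hb h2 (h1.trans ha)

end

/-- **Independence by translations.** -/
theorem E_indep {Ω W : Type*} [AddCommGroup Ω] [Fintype Ω] [AddCommGroup W] [Fintype W] (ev : Ω → W) (s : W → Ω)
    (hs : ∀ t w, ev (t + s w) = ev t + w) (H : Ω → ℝ) (hH : ∀ t w, H (t + s w) = H t) (g : W → ℝ) :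
    E (fun t => g (ev t) * H t) = E g * E H := by
  have hΩ := card_pos' (Ω := Ω)
  have hW := card_pos' (Ω := W)
  have h1 : ∀ w : W, ∑ t, g (ev t) * H t = ∑ t, g (ev t + w) * H t := by
    intro w
    rw [← Equiv.sum_comp (Equiv.addRight (s w)) (fun t => g (ev t) * H t)]
    refine Finset.sum_congr rfl fun t _ => ?_
    simp only [Equiv.coe_addRight]
    rw [hs, hH]
  have h2 : (Fintype.card W : ℝ) * ∑ t, g (ev t) * H t = (∑ w, g w) * ∑ t, H t := by
    calc (Fintype.card W : ℝ) * ∑ t, g (ev t) * H t = ∑ _w : W, ∑ t, g (ev t) * H t := by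
          rw [Finset.sum_const, Finset.card_univ, nsmul_eq_mul]
      _ = ∑ w : W, ∑ t, g (ev t + w) * H t := Finset.sum_congr rfl fun w _ => h1 w
      _ = ∑ t, ∑ w : W, g (ev t + w) * H t := Finset.sum_comm
      _ = ∑ t, (∑ w, g w) * H t := by
          refine Finset.sum_congr rfl fun t _ => ?_
          rw [← Finset.sum_mul]
          congr 1
          exact Equiv.sum_comp (Equiv.addLeft (ev t)) g
      _ = _ := by rw [← Finset.mul_sum]
  unfold E
  field_simp
  linarith

/-! ### the number of the points off the base locus -/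

section
variable {k : Type} [Field k] [Fintype k] [DecidableEq k] {ι : Type} [Fintype ι] [DecidableEq ι]
variable {P : Type} [Fintype P] [DecidableEq P] (ev : P → Module.Dual k (ι → k))

/-- the centred indicator of zero -/
noncomputable def g0 (x : k) : ℝ := (if x = 0 then 1 else 0) - 1 / Fintype.card k

theorem one_le_q : (1 : ℝ) ≤ Fintype.card k := by exact_mod_cast Fintype.card_pos

theorem E_ind : E (fun x : k => if x = 0 then (1 : ℝ) else 0) = 1 / Fintype.card k := by
  unfold E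
  rw [Finset.sum_ite_eq' Finset.univ (0 : k), if_pos (Finset.mem_univ _)]

theorem E_g0 : E (g0 (k := k)) = 0 := by
  unfold g0
  rw [E_sub, E_ind, E_const, sub_self]

theorem g0_abs (x : k) : |g0 x| ≤ 1 := by
  have h := one_le_q (k := k)
  have h2 : 1 / (Fintype.card k : ℝ) ≤ 1 := by rw [div_le_one (by linarith)]; exact h
  have h3 : 0 < 1 / (Fintype.card k : ℝ) := by positivity
  unfold g0
  rw [abs_le]
  split_ifs <;> constructor <;> linarith

theorem E_g0_sq : E (fun x : k => g0 x ^ 2) = 1 / Fintype.card k - (1 / Fintype.card k) ^ 2 := by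
  have h : (fun x : k => g0 x ^ 2) = fun x => (1 - 2 * (1 / (Fintype.card k : ℝ))) * (if x = 0 then (1 : ℝ) else 0) +
      (1 / (Fintype.card k : ℝ)) ^ 2 := by
    funext x
    unfold g0
    split_ifs <;> ring
  rw [h, E_add, E_mul, E_ind, E_const]
  ring

theorem E_g0_sq_le : E (fun x : k => g0 x ^ 2) ≤ 1 / Fintype.card k := by
  rw [E_g0_sq]
  have : 0 ≤ (1 / (Fintype.card k : ℝ)) ^ 2 := by positivity
  linarith

/-- the section -/
theorem indep_of {Q : Type*} (ev' : Q → Module.Dual k (ι → k)) (l : Module.Dual k (ι → k)) (c : ι → k)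
    (hc : l c ≠ 0) (hc' : ∀ x, ev' x c = 0) (H : (Q → k) → ℝ) (g : k → ℝ) :
    E (fun t : ι → k => g (l t) * H (fun x => ev' x t)) = E g * E (fun t : ι → k => H (fun x => ev' x t)) := by
  refine E_indep (fun t => l t) (fun w => (w / l c) • c) (fun t w => ?_) (fun t => H (fun x => ev' x t)) (fun t w => ?_) g
  · rw [map_add, map_smul, smul_eq_mul, div_mul_cancel₀ _ hc]
  · congr 1
    funext x
    rw [map_add, map_smul, hc', smul_zero, add_zero]

/-- the centred number of the points off the base locus -/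
noncomputable def AA (t : ι → k) : ℝ := ∑ p, g0 (ev p t)

/-- each functional is nonzero -/
def Nonz : Prop := ∀ p, ∃ c, ev p c ≠ 0

/-- two functionals are independent -/
def Sep2 : Prop := ∀ p p', p ≠ p' → ∃ c, ev p c ≠ 0 ∧ ev p' c = 0

theorem E_point {p : P} (h : ∃ c, ev p c ≠ 0) (g : k → ℝ) : E (fun t : ι → k => g (ev p t)) = E g := by
  obtain ⟨c, hc⟩ := h
  have := indep_of (Q := Empty) (fun x => x.elim) (ev p) c hc (fun x => x.elim) (fun _ => 1) g
  simpa [E_const] using this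

theorem E_AA (h : Nonz ev) : E (AA ev) = 0 := by
  have e : AA ev = fun t => ∑ p, g0 (ev p t) := rfl
  rw [e, E_sum]
  refine Finset.sum_eq_zero fun p _ => ?_
  rw [E_point ev (h p), E_g0]

theorem E_AA_sq (h : Nonz ev) (h2 : Sep2 ev) : E (fun t => AA ev t ^ 2) =
    Fintype.card P * (1 / Fintype.card k - (1 / Fintype.card k) ^ 2) := by
  have e : (fun t => AA ev t ^ 2) = fun t => ∑ p, ∑ p', g0 (ev p t) * g0 (ev p' t) := by
    funext t
    unfold AA
    rw [sq, Finset.sum_mul_sum]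
  rw [e, E_sum]
  have h3 : ∀ p, E (fun t => ∑ p', g0 (ev p t) * g0 (ev p' t)) = 1 / Fintype.card k - (1 / Fintype.card k) ^ 2 := by
    intro p
    rw [E_sum, Finset.sum_eq_single p]
    · have e2 : (fun t => g0 (ev p t) * g0 (ev p t)) = fun t => g0 (ev p t) ^ 2 := by funext t; ring
      rw [e2, E_point ev (h p) (fun x => g0 x ^ 2), E_g0_sq]
    · intro p' _ hne
      obtain ⟨c, hc, hc'⟩ := h2 p p' hne.symm
      have := indep_of (Q := Unit) (fun _ => ev p') (ev p) c hc (fun _ => hc') (fun x => g0 (x ())) g0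
      rw [this, E_g0, zero_mul]
    · intro hp
      exact absurd (Finset.mem_univ p) hp
  rw [Finset.sum_congr rfl fun p _ => h3 p, Finset.sum_const, Finset.card_univ, nsmul_eq_mul]

theorem E_AA_sq_le (h : Nonz ev) (h2 : Sep2 ev) : E (fun t => AA ev t ^ 2) ≤ Fintype.card P / Fintype.card k := by
  have e : (Fintype.card P : ℝ) / Fintype.card k = Fintype.card P * (1 / Fintype.card k) := by ring
  rw [E_AA_sq ev h h2, e]
  refine mul_le_mul_of_nonneg_left ?_ (by positivity)
  have : 0 ≤ (1 / (Fintype.card k : ℝ)) ^ 2 := by positivity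
  linarith

/-- three further functionals -/
def Sep4 : Prop := ∀ p p₁ p₂ p₃, p ≠ p₁ → p ≠ p₂ → p ≠ p₃ → ∃ c, ev p c ≠ 0 ∧ ev p₁ c = 0 ∧ ev p₂ c = 0 ∧ ev p₃ c = 0

theorem four_zero (h4 : Sep4 ev) {p p₁ p₂ p₃ : P} (h1 : p ≠ p₁) (h2 : p ≠ p₂) (h3 : p ≠ p₃) :
    E (fun t => g0 (ev p t) * (g0 (ev p₁ t) * g0 (ev p₂ t) * g0 (ev p₃ t))) = 0 := by
  obtain ⟨c, hc, c1, c2, c3⟩ := h4 p p₁ p₂ p₃ h1 h2 h3
  have := indep_of (Q := Fin 3) (fun i => ![ev p₁, ev p₂, ev p₃] i) (ev p) c hc
    (fun i => by fin_cases i <;> simp [c1, c2, c3]) (fun x => g0 (x 0) * g0 (x 1) * g0 (x 2)) g0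
  simp only [Matrix.cons_val_zero, Matrix.cons_val_one, Matrix.cons_val] at this
  rw [this, E_g0, zero_mul]

theorem Sep4.sep2 (h4 : Sep4 ev) : Sep2 ev := fun p p' h => by
  obtain ⟨c, hc, c1, _, _⟩ := h4 p p' p' p' h h h
  exact ⟨c, hc, c1⟩

/-- the second mixed moments -/
noncomputable def SS (p r : P) : ℝ := E (fun t => g0 (ev p t) ^ 2 * g0 (ev r t) ^ 2)

theorem SS_nonneg (p r : P) : 0 ≤ SS ev p r := E_nonneg fun t => by positivity

theorem four_le (h4 : Sep4 ev) (a b c d : P) :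
    E (fun t => g0 (ev a t) * g0 (ev b t) * (g0 (ev c t) * g0 (ev d t))) ≤
      (if a = b ∧ c = d then SS ev a c else 0) + (if a = c ∧ b = d then SS ev a b else 0) +
        (if a = d ∧ b = c then SS ev a b else 0) := by
  have n1 : 0 ≤ (if a = b ∧ c = d then SS ev a c else 0) := by split_ifs; exacts [SS_nonneg ev _ _, le_rfl]
  have n2 : 0 ≤ (if a = c ∧ b = d then SS ev a b else 0) := by split_ifs; exacts [SS_nonneg ev _ _, le_rfl]
  have n3 : 0 ≤ (if a = d ∧ b = c then SS ev a b else 0) := by split_ifs; exacts [SS_nonneg ev _ _, le_rfl]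
  by_cases k1 : a = b ∧ c = d
  · obtain ⟨rfl, rfl⟩ := k1
    have e : E (fun t => g0 (ev a t) * g0 (ev a t) * (g0 (ev c t) * g0 (ev c t))) = SS ev a c := by
      unfold SS; congr 1; funext t; ring
    rw [e, if_pos ⟨rfl, rfl⟩]
    linarith
  by_cases k2 : a = c ∧ b = d
  · obtain ⟨rfl, rfl⟩ := k2
    have e : E (fun t => g0 (ev a t) * g0 (ev b t) * (g0 (ev a t) * g0 (ev b t))) = SS ev a b := by
      unfold SS; congr 1; funext t; ring
    rw [e, if_pos (⟨rfl, rfl⟩ : a = a ∧ b = b)]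
    linarith
  by_cases k3 : a = d ∧ b = c
  · obtain ⟨rfl, rfl⟩ := k3
    have e : E (fun t => g0 (ev a t) * g0 (ev b t) * (g0 (ev b t) * g0 (ev a t))) = SS ev a b := by
      unfold SS; congr 1; funext t; ring
    rw [e, if_pos (⟨rfl, rfl⟩ : a = a ∧ b = b)]
    linarith
  -- an isolated index
  have h0 : E (fun t => g0 (ev a t) * g0 (ev b t) * (g0 (ev c t) * g0 (ev d t))) = 0 := by
    by_cases ha : a ≠ b ∧ a ≠ c ∧ a ≠ d
    · rw [← four_zero ev h4 ha.1 ha.2.1 ha.2.2]
      congr 1; funext t; ring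
    by_cases hb : b ≠ a ∧ b ≠ c ∧ b ≠ d
    · rw [← four_zero ev h4 hb.1 hb.2.1 hb.2.2]
      congr 1; funext t; ring
    by_cases hc : c ≠ a ∧ c ≠ b ∧ c ≠ d
    · rw [← four_zero ev h4 hc.1 hc.2.1 hc.2.2]
      congr 1; funext t; ring
    by_cases hd : d ≠ a ∧ d ≠ b ∧ d ≠ c
    · rw [← four_zero ev h4 hd.1 hd.2.1 hd.2.2]
      congr 1; funext t; ring
    exfalso
    by_cases e1 : a = b <;> by_cases e2 : a = c <;> by_cases e3 : a = d <;> by_cases e4 : b = c <;> by_cases e5 : b = d <;>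
      by_cases e6 : c = d <;> simp_all
  rw [h0]
  linarith

theorem SS_le (h : Nonz ev) (h2 : Sep2 ev) (p r : P) :
    SS ev p r ≤ (if p = r then 1 / (Fintype.card k : ℝ) else 0) + (1 / (Fintype.card k : ℝ)) ^ 2 := by
  have hq := one_le_q (k := k)
  have hpos : 0 ≤ (1 / (Fintype.card k : ℝ)) ^ 2 := by positivity
  by_cases hpr : p = r
  · subst hpr
    rw [if_pos rfl]
    have h3 : SS ev p p ≤ E (fun t => g0 (ev p t) ^ 2) := by
      refine E_mono fun t => ?_
      have h4 : g0 (ev p t) ^ 2 ≤ 1 := by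
        rw [← sq_abs]
        exact pow_le_one₀ (abs_nonneg _) (g0_abs _)
      exact mul_le_of_le_one_right (by positivity) h4
    rw [E_point ev (h p) (fun x => g0 x ^ 2)] at h3
    have := E_g0_sq_le (k := k)
    linarith
  · rw [if_neg hpr, zero_add]
    obtain ⟨c, hc, hc'⟩ := h2 p r hpr
    have h3 := indep_of (Q := Unit) (fun _ => ev r) (ev p) c hc (fun _ => hc') (fun x => g0 (x ()) ^ 2) (fun x => g0 x ^ 2)
    unfold SS
    rw [h3, E_point ev (h r) (fun x => g0 x ^ 2), sq]
    have h4 := E_g0_sq_le (k := k)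
    have h5 : 0 ≤ E (fun x : k => g0 x ^ 2) := E_nonneg fun x => by positivity
    exact mul_le_mul h4 h4 h5 (by positivity)

/-- **The fourth moment.** -/
theorem E_AA_four (h : Nonz ev) (h4 : Sep4 ev) : E (fun t => AA ev t ^ 4) ≤
    3 * ((Fintype.card P / Fintype.card k : ℝ) + (Fintype.card P / Fintype.card k : ℝ) ^ 2) := by
  have hS := SS_le ev h h4.sep2
  have e : (fun t => AA ev t ^ 4) = fun t => ∑ a, ∑ b, ∑ c, ∑ d, g0 (ev a t) * g0 (ev b t) * (g0 (ev c t) * g0 (ev d t)) := by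
    funext t
    have e1 : AA ev t ^ 4 = (AA ev t * AA ev t) * (AA ev t * AA ev t) := by ring
    have e2 : AA ev t * AA ev t = ∑ a, ∑ b, g0 (ev a t) * g0 (ev b t) := by
      unfold AA
      rw [Finset.sum_mul_sum]
    rw [e1, e2, Finset.sum_mul]
    refine Finset.sum_congr rfl fun a _ => ?_
    rw [Finset.sum_mul]
    refine Finset.sum_congr rfl fun b _ => ?_
    rw [Finset.mul_sum]
    refine Finset.sum_congr rfl fun c _ => ?_
    rw [Finset.mul_sum]
  rw [e]
  simp only [E_sum]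
  have hle : ∑ a, ∑ b, ∑ c, ∑ d, E (fun t => g0 (ev a t) * g0 (ev b t) * (g0 (ev c t) * g0 (ev d t))) ≤
      ∑ a, ∑ b, ∑ c, ∑ d, ((if a = b ∧ c = d then SS ev a c else 0) + (if a = c ∧ b = d then SS ev a b else 0) +
        (if a = d ∧ b = c then SS ev a b else 0)) :=
    Finset.sum_le_sum fun a _ => Finset.sum_le_sum fun b _ => Finset.sum_le_sum fun c _ => Finset.sum_le_sum fun d _ =>
      four_le ev h4 a b c d
  refine hle.trans ?_
  have hT : ∑ p, ∑ r, SS ev p r ≤ (Fintype.card P / Fintype.card k : ℝ) + (Fintype.card P / Fintype.card k : ℝ) ^ 2 := by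
    refine (Finset.sum_le_sum fun p _ => Finset.sum_le_sum fun r _ => hS p r).trans (le_of_eq ?_)
    simp only [Finset.sum_add_distrib, Finset.sum_ite_eq, Finset.mem_univ, if_true, Finset.sum_const, Finset.card_univ,
      nsmul_eq_mul]
    ring
  have s1 : ∑ a, ∑ b, ∑ c, ∑ d, (if a = b ∧ c = d then SS ev a c else 0) = ∑ p, ∑ r, SS ev p r := by
    refine Finset.sum_congr rfl fun a _ => ?_
    rw [Finset.sum_eq_single a]
    · refine Finset.sum_congr rfl fun c _ => ?_
      rw [Finset.sum_eq_single c]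
      · rw [if_pos ⟨rfl, rfl⟩]
      · intro d _ hd; rw [if_neg (fun h => hd h.2.symm)]
      · intro h; exact absurd (Finset.mem_univ _) h
    · intro b _ hb
      refine Finset.sum_eq_zero fun c _ => Finset.sum_eq_zero fun d _ => ?_
      rw [if_neg (fun h => hb h.1.symm)]
    · intro h; exact absurd (Finset.mem_univ _) h
  have s2 : ∑ a, ∑ b, ∑ c, ∑ d, (if a = c ∧ b = d then SS ev a b else 0) = ∑ p, ∑ r, SS ev p r := by
    refine Finset.sum_congr rfl fun a _ => Finset.sum_congr rfl fun b _ => ?_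
    rw [Finset.sum_eq_single a]
    · rw [Finset.sum_eq_single b]
      · rw [if_pos ⟨rfl, rfl⟩]
      · intro d _ hd; rw [if_neg (fun h => hd h.2.symm)]
      · intro h; exact absurd (Finset.mem_univ _) h
    · intro c _ hc
      refine Finset.sum_eq_zero fun d _ => ?_
      rw [if_neg (fun h => hc h.1.symm)]
    · intro h; exact absurd (Finset.mem_univ _) h
  have s3 : ∑ a, ∑ b, ∑ c, ∑ d, (if a = d ∧ b = c then SS ev a b else 0) = ∑ p, ∑ r, SS ev p r := by
    refine Finset.sum_congr rfl fun a _ => Finset.sum_congr rfl fun b _ => ?_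
    rw [Finset.sum_eq_single b]
    · rw [Finset.sum_eq_single a]
      · rw [if_pos ⟨rfl, rfl⟩]
      · intro d _ hd; rw [if_neg (fun h => hd h.1.symm)]
      · intro h; exact absurd (Finset.mem_univ _) h
    · intro c _ hc
      refine Finset.sum_eq_zero fun d _ => ?_
      rw [if_neg (fun h => hc h.2.symm)]
    · intro h; exact absurd (Finset.mem_univ _) h
  simp only [Finset.sum_add_distrib, s1, s2, s3]
  linarith

end

end Run7.h876.LS
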