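import Pool.Agent.Run7.h876.LS.Disc
import Pool.Agent.Run7.h876.LS.Prob
import Pool.Agent.Run7.h876.EN.Eng2

/-!
# The singular members are rare
-/

set_option autoImplicit false
set_option linter.unusedSectionVars false

namespace Run7.h876.LS

open Finset NumberField IsDedekindDomain
open Run7.h876.EN
open Run7.h876.MM (nv kv card_kv instFieldKv instFintypeKv instDecKv nv_pos)

/-- The lemma of Schwartz and Zippel for a box. -/
theorem sz {R : Type} [CommRing R] [IsDomain R] [DecidableEq R] {J : Type} [Fintype J] [DecidableEq J] {P : MvPolynomial J R}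
    (hP : P ≠ 0) : ∃ D : ℕ, ∀ (S : J → Finset R) (M : ℕ), 0 < M → (∀ j, M ≤ (S j).card) →
      ((#{x ∈ Fintype.piFinset S | MvPolynomial.eval x P = 0} : ℕ) : ℝ) * M ≤ D * ∏ j, ((S j).card : ℝ) := by
  classical
  set e : J ≃ Fin (Fintype.card J) := Fintype.equivFin J with he
  set Q : MvPolynomial (Fin (Fintype.card J)) R := MvPolynomial.rename e P with hQ
  have hQne : Q ≠ 0 := by
    intro h0
    apply hP
    exact (MvPolynomial.rename_injective e e.injective) (by rw [map_zero]; exact h0)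
  refine ⟨∑ i, Q.degreeOf i, fun S M hM hS => ?_⟩
  have h1 := MvPolynomial.schwartz_zippel_sum_degreeOf hQne (fun i => S (e.symm i))
  have hcard : #{x ∈ Fintype.piFinset (fun i => S (e.symm i)) | MvPolynomial.eval x Q = 0} =
      #{x ∈ Fintype.piFinset S | MvPolynomial.eval x P = 0} := by
    refine Finset.card_bij' (fun g _ => fun m => g (e m)) (fun c _ => fun i => c (e.symm i)) ?_ ?_ ?_ ?_
    · intro g hg
      rw [Finset.mem_filter, Fintype.mem_piFinset] at hg ⊢
      refine ⟨fun j => ?_, ?_⟩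
      · have := hg.1 (e j)
        simpa using this
      · have h2 := hg.2
        rw [hQ, MvPolynomial.eval_rename] at h2
        exact h2
    · intro c hc
      rw [Finset.mem_filter, Fintype.mem_piFinset] at hc ⊢
      refine ⟨fun j => hc.1 _, ?_⟩
      rw [hQ, MvPolynomial.eval_rename]
      have hcomp : (fun i => c (e.symm i)) ∘ e = c := by
        funext m
        simp
      rw [hcomp]
      exact hc.2
    · intro g _
      funext i
      simp
    · intro c _
      funext m
      simp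
  have hprod : ∏ i, ((S (e.symm i)).card : ℚ≥0) = ∏ j, ((S j).card : ℚ≥0) :=
    Equiv.prod_comp e.symm (fun j => ((S j).card : ℚ≥0))
  rw [hcard, hprod] at h1
  have hpos : (0 : ℚ≥0) < ∏ j, ((S j).card : ℚ≥0) := Finset.prod_pos fun j _ => by
    exact_mod_cast hM.trans_le (hS j)
  rw [div_le_iff₀ hpos] at h1
  have h2 : (∑ i, (Q.degreeOf i / #(S (e.symm i)) : ℚ≥0)) ≤ (∑ i, Q.degreeOf i : ℕ) / (M : ℚ≥0) := by
    push_cast
    rw [Finset.sum_div]
    refine Finset.sum_le_sum fun i _ => ?_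
    have h3 : (M : ℚ≥0) ≤ #(S (e.symm i)) := by exact_mod_cast hS _
    have h4 : (0 : ℚ≥0) < M := by exact_mod_cast hM
    exact div_le_div_of_nonneg_left (by positivity) h4 h3
  have h5 : (#{x ∈ Fintype.piFinset S | MvPolynomial.eval x P = 0} : ℚ≥0) ≤
      ((∑ i, Q.degreeOf i : ℕ) / (M : ℚ≥0)) * ∏ j, ((S j).card : ℚ≥0) :=
    h1.trans (mul_le_mul_left h2 _)
  have h5' : ((#{x ∈ Fintype.piFinset S | MvPolynomial.eval x P = 0} : ℕ) : ℝ) ≤
      (((∑ i, Q.degreeOf i : ℕ) : ℝ) / (M : ℝ)) * ∏ j, ((S j).card : ℝ) := by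
    have h7 := (NNRat.cast_le (K := ℝ)).mpr h5
    push_cast at h7 ⊢
    exact h7
  have h4 : (0 : ℝ) < M := by exact_mod_cast hM
  generalize ((#{x ∈ Fintype.piFinset S | MvPolynomial.eval x P = 0} : ℕ) : ℝ) = X at h5' ⊢
  generalize ((∑ i, Q.degreeOf i : ℕ) : ℝ) = D at h5' ⊢
  generalize ∏ j, ((S j).card : ℝ) = Y at h5' ⊢
  calc X * M ≤ (D / (M : ℝ) * Y) * M := mul_le_mul_of_nonneg_right h5' h4.le
    _ = D * Y := by field_simp

section
variable {k : Type} [Field k] [Fintype k] [DecidableEq k] {ι : Type} [Fintype ι] [DecidableEq ι]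

open Classical in
theorem E_zero_le {P : MvPolynomial ι k} {D : ℕ}
    (h : ∀ (S : ι → Finset k) (M : ℕ), 0 < M → (∀ j, M ≤ (S j).card) →
      ((#{x ∈ Fintype.piFinset S | MvPolynomial.eval x P = 0} : ℕ) : ℝ) * M ≤ D * ∏ j, ((S j).card : ℝ)) :
    E (fun c : ι → k => if MvPolynomial.eval c P = 0 then (1 : ℝ) else 0) ≤ D / Fintype.card k := by
  have h1 := h (fun _ => Finset.univ) (Fintype.card k) Fintype.card_pos (fun _ => by rw [Finset.card_univ])
  have hk : (0 : ℝ) < Fintype.card k := by exact_mod_cast Fintype.card_pos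
  have h2 : (0 : ℝ) < Fintype.card (ι → k) := by exact_mod_cast Fintype.card_pos
  unfold E
  rw [div_le_div_iff₀ h2 hk]
  have e1 : ∑ c : ι → k, (if MvPolynomial.eval c P = 0 then (1 : ℝ) else 0) =
      ((#{x ∈ Fintype.piFinset (fun _ : ι => (Finset.univ : Finset k)) | MvPolynomial.eval x P = 0} : ℕ) : ℝ) := by
    rw [Finset.card_filter, Fintype.piFinset_univ]
    push_cast
    rfl
  have e2 : (Fintype.card (ι → k) : ℝ) = ∏ _j : ι, ((Finset.univ : Finset k).card : ℝ) := by
    rw [Finset.prod_const, Finset.card_univ, Finset.card_univ, Fintype.card_fun]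
    push_cast
    rfl
  rw [e1, e2]
  exact h1

end

section
variable {K : Type} [Field K] [NumberField K] {J : Type} [Fintype J] [DecidableEq J]
variable {ι : Type} [Fintype ι] [DecidableEq ι] (ω : Module.Basis ι ℤ (𝓞 K))

/-- The zeros of a polynomial are thin. -/
theorem thin_of_poly (P : MvPolynomial J (𝓞 K)) (c0 : J → 𝓞 K) (h0 : MvPolynomial.eval c0 P ≠ 0) (G : Set (J → 𝓞 K))
    (hG : ∀ t, MvPolynomial.eval t P ≠ 0 → t ∈ G) : ∃ Cb : ℝ, 0 ≤ Cb ∧ Thin ω G Cb := by
  classical
  set θ : MvPolynomial J (𝓞 K) →+* MvPolynomial (J × ι) (𝓞 K) := (MvPolynomial.aeval (R := 𝓞 K)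
    (fun j => ∑ i, MvPolynomial.C (ω i) * MvPolynomial.X (j, i) : J → MvPolynomial (J × ι) (𝓞 K))).toRingHom with hθ
  set Q : MvPolynomial (J × ι) (𝓞 K) := θ P with hQ
  have hev : ∀ c : J × ι → ℤ, MvPolynomial.eval (fun p => ((c p : ℤ) : 𝓞 K)) Q = MvPolynomial.eval (tuple ω c) P := by
    intro c
    have h1 : (MvPolynomial.eval (fun p => ((c p : ℤ) : 𝓞 K))).comp θ = MvPolynomial.eval (tuple ω c) := by
      apply MvPolynomial.ringHom_ext
      · intro a
        simp [hθ]
      · intro j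
        simp only [hθ, AlgHom.toRingHom_eq_coe, RingHom.coe_comp, RingHom.coe_coe, Function.comp_apply,
          MvPolynomial.aeval_X, map_sum, map_mul, MvPolynomial.eval_C, MvPolynomial.eval_X, tuple]
        refine Finset.sum_congr rfl fun i _ => ?_
        rw [zsmul_eq_mul, mul_comm]
    rw [← h1]
    rfl
  have hQ0 : Q ≠ 0 := by
    intro h
    have h1 := hev (fun p => ω.repr (c0 p.1) p.2)
    rw [h, map_zero] at h1
    have h2 : tuple ω (fun p : J × ι => ω.repr (c0 p.1) p.2) = c0 := by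
      funext j
      unfold tuple
      exact ω.sum_repr (c0 j)
    rw [h2] at h1
    exact h0 h1.symm
  obtain ⟨D, hD⟩ := sz hQ0
  refine ⟨D, by positivity, fun H M hM => ?_⟩
  set S : J × ι → Finset (𝓞 K) := fun p => (Finset.Icc (-(H p.1 : ℤ)) (H p.1)).image (fun z : ℤ => (z : 𝓞 K)) with hS
  have hcS : ∀ p, (S p).card = 2 * H p.1 + 1 := by
    intro p
    rw [hS, Finset.card_image_of_injective _ Int.cast_injective, Int.card_Icc]
    omega
  have h1 := hD S (2 * M + 1) (by omega) (fun p => by rw [hcS]; have := hM p.1; omega)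
  have hbox : ((box ι H).card : ℝ) = ∏ p : J × ι, ((S p).card : ℝ) := by
    have h2 : (box ι H).card = ∏ p : J × ι, (2 * H p.1 + 1) := Run7.h876.MM.card_bx _
    rw [h2]
    push_cast
    refine Finset.prod_congr rfl fun p _ => ?_
    rw [hcS]
    push_cast
    rfl
  have hle : ((box ι H).filter fun c => ¬ (tuple ω c ∈ G)).card ≤ #{x ∈ Fintype.piFinset S | MvPolynomial.eval x Q = 0} := by
    refine Finset.card_le_card_of_injOn (fun c => fun p => ((c p : ℤ) : 𝓞 K)) ?_ ?_
    · intro c hc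
      have hc' := Finset.mem_filter.1 (Finset.mem_coe.1 hc)
      refine Finset.mem_coe.2 (Finset.mem_filter.2 ⟨Fintype.mem_piFinset.2 fun p => ?_, ?_⟩)
      · rw [hS]
        exact Finset.mem_image.2 ⟨c p, Fintype.mem_piFinset.1 hc'.1 p, rfl⟩
      · rw [hev]
        by_contra hne
        exact hc'.2 (hG _ hne)
    · intro c _ c' _ h
      funext p
      exact Int.cast_injective (α := 𝓞 K) (congrFun h p)
  rw [hbox]
  have h3 : ((((box ι H).filter fun c => ¬ (tuple ω c ∈ G)).card : ℕ) : ℝ) ≤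
      ((#{x ∈ Fintype.piFinset S | MvPolynomial.eval x Q = 0} : ℕ) : ℝ) := by exact_mod_cast hle
  have h4 : (((2 * M + 1 : ℕ) : ℕ) : ℝ) = 2 * M + 1 := by push_cast; ring
  rw [h4] at h1
  refine le_trans ?_ h1
  refine le_trans (le_of_eq ?_) (mul_le_mul_of_nonneg_right h3 (by positivity))
  congr!

end

end Run7.h876.LS
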