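import Pool.Agent.Run7.h876.LS.Defs
import Pool.Agent.Run7.h876.LS.Thin
import Pool.Agent.Run7.h876.GN.First

/-!
# The local data of a linear system
-/

set_option autoImplicit false
set_option linter.unusedSectionVars false

namespace Run7.h876.LS

open NumberField IsDedekindDomain Finset
open Pool.Agent.Y722.HS (IsSmooth)
open Run7.h876.MM (nv kv two_le_nv nv_pos avg card_kv xv norm_xv instFieldKv instFintypeKv instDecKv
  norm_avg_le avg_sub' SZ mem_SZ)
open Run7.h876.EN
open Run7.h876.HY (one_le_nv)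
open Run7.h876.GN

theorem avg_eq_E {Ω : Type*} [Fintype Ω] (g : Ω → ℝ) : avg Finset.univ (fun t => (g t : ℂ)) = ((E g : ℝ) : ℂ) := by
  unfold avg E
  rw [Finset.card_univ]
  push_cast
  rfl

section
variable {K : Type} [Field K] [NumberField K] {J : Type} [Fintype J] [DecidableEq J] {n : ℕ}
  (f : J → MvPolynomial (Fin (n + 1)) (𝓞 K)) {b : ℕ} {α : (J → 𝓞 K) → HeightOneSpectrum (𝓞 K) → Fin b → ℂ}
  (hα : ∀ t, IsFrobenius f b t (α t))

/-- a lift of the residues -/
noncomputable def lift (v : HeightOneSpectrum (𝓞 K)) (c : J → kv v) : J → 𝓞 K := fun i =>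
  (Ideal.Quotient.mk_surjective (c i)).choose

theorem res_lift (v : HeightOneSpectrum (𝓞 K)) (c : J → kv v) : (fun i => res v (lift v c i)) = c := by
  funext i
  exact (Ideal.Quotient.mk_surjective (c i)).choose_spec

include hα in
/-- The power sums depend only on the residues. -/
theorem power_sum_eq {v : HeightOneSpectrum (𝓞 K)} {t t' : J → 𝓞 K} (h : ∀ i, res v (t i) = res v (t' i))
    (hg : GoodAt f t v) (m : ℕ) : ∑ j, α t v j ^ (m + 1) = ∑ j, α t' v j ^ (m + 1) := by
  have e : (fun i => res v (t i)) = fun i => res v (t' i) := funext h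
  have hg' : GoodAt f t' v := by
    unfold GoodAt at hg ⊢
    rw [← e]; exact hg
  obtain ⟨E, i1, i2, i3, i4, hfr, hcard⟩ := exists_ext (k := kv v) (m + 1) (by omega)
  have h1 := (hα t).count v hg E
  have h2 := (hα t').count v hg' E
  rw [e, h2, hfr] at h1
  have hE : ((Fintype.card E : ℂ) - 1) ≠ 0 := by
    have : 1 < Fintype.card E := Fintype.one_lt_card
    rw [sub_ne_zero]
    exact_mod_cast this.ne'
  have h3 := mul_left_cancel₀ hE h1
  have h4 := add_left_cancel h3
  have h5 : ((-1 : ℂ)) ^ (n - 1) ≠ 0 := pow_ne_zero _ (by norm_num)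
  exact (mul_left_cancel₀ h5 h4).symm

include hα in
theorem power_sum_real {v : HeightOneSpectrum (𝓞 K)} {t : J → 𝓞 K}
    (hg : GoodAt f t v) (m : ℕ) : (((∑ j, α t v j ^ (m + 1)).re : ℝ) : ℂ) = ∑ j, α t v j ^ (m + 1) := by
  obtain ⟨E, i1, i2, i3, i4, hfr, hcard⟩ := exists_ext (k := kv v) (m + 1) (by omega)
  have h1 := (hα t).count v hg E
  rw [hfr] at h1
  have hE : ((Fintype.card E : ℂ) - 1) ≠ 0 := by
    have : 1 < Fintype.card E := Fintype.one_lt_card
    rw [sub_ne_zero]
    exact_mod_cast this.ne'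
  have h5 : ((-1 : ℂ)) ^ (n - 1) * (-1) ^ (n - 1) = 1 := by
    rw [← mul_pow]; norm_num
  have h6 : ∑ j, α t v j ^ (m + 1) = (-1) ^ (n - 1) * ((cone (resForm f v E (fun i => res v (t i))) : ℂ) / ((Fintype.card E : ℂ) - 1) -
      ∑ i ∈ (Finset.range n).filter (fun i => 2 * i ≠ n - 1), (Fintype.card E : ℂ) ^ i) := by
    rw [h1, mul_div_cancel_left₀ _ hE, add_sub_cancel_left, ← mul_assoc, h5, one_mul]
  have h7 : ∑ j, α t v j ^ (m + 1) = (((-1) ^ (n - 1) * ((cone (resForm f v E (fun i => res v (t i))) : ℝ) / ((Fintype.card E : ℝ) - 1) -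
      ∑ i ∈ (Finset.range n).filter (fun i => 2 * i ≠ n - 1), (Fintype.card E : ℝ) ^ i) : ℝ) : ℂ) := by
    rw [h6]
    push_cast
    rfl
  rw [h7, Complex.ofReal_re]

open Classical in
/-- the traces as functions of the residues -/
noncomputable def tr (_hα : ∀ t, IsFrobenius f b t (α t)) (v : HeightOneSpectrum (𝓞 K)) (c : J → kv v) (m : ℕ) : ℝ :=
  if SmoothMod f v c then (∑ j, α (lift v c) v j ^ (m + 1)).re else 0

theorem good_lift {v : HeightOneSpectrum (𝓞 K)} {c : J → kv v} : GoodAt f (lift v c) v ↔ SmoothMod f v c := by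
  unfold GoodAt
  rw [res_lift]

/-- the local data -/
noncomputable def LD : Loc K J where
  h := ((n : ℝ) - 1) / 2
  D := b
  a := tr f hα
  D_nonneg := by positivity
  bound := fun v c m => by
    classical
    have hn := (nv_pos v).le
    unfold tr
    split_ifs with h
    · refine (Complex.abs_re_le_norm _).trans ((norm_sum_le _ _).trans ?_)
      have h1 : ∀ j ∈ (Finset.univ : Finset (Fin b)), ‖α (lift v c) v j ^ (m + 1)‖ ≤ ((nv v : ℝ) ^ (((n : ℝ) - 1) / 2)) ^ (m + 1) := by
        intro j _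
        rw [norm_pow]
        exact pow_le_pow_left₀ (norm_nonneg _) ((hα _).bound v ((good_lift f).2 h) j) _
      refine (Finset.sum_le_sum h1).trans ?_
      rw [Finset.sum_const, Finset.card_univ, Fintype.card_fin, nsmul_eq_mul]
    · rw [abs_zero]; positivity

theorem factor_eq (t : J → 𝓞 K) (v : HeightOneSpectrum (𝓞 K)) {s : ℂ} (hs : ((n : ℝ) - 1) / 2 < s.re) :
    factor f t (α t) v s = ef (LD f hα) v (rd v t) s := by
  classical
  unfold factor ef
  by_cases h : GoodAt f t v
  · rw [if_pos h]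
    have hsm : SmoothMod f v (rd v t) := h
    have hq := nv_pos v
    have h2nv : (2 : ℝ) ≤ nv v := by exact_mod_cast two_le_nv v
    have hlt : ∀ j, ‖α t v j * xv v s‖ < 1 := by
      intro j
      rw [norm_mul, norm_xv]
      have h1 := (hα t).bound v h j
      calc ‖α t v j‖ * (nv v : ℝ) ^ (-s.re) ≤ (nv v : ℝ) ^ (((n : ℝ) - 1) / 2) * (nv v : ℝ) ^ (-s.re) := by gcongr
        _ = (nv v : ℝ) ^ (((n : ℝ) - 1) / 2 - s.re) := by rw [← Real.rpow_add hq]; congr 1
        _ < 1 := Real.rpow_lt_one_of_one_lt_of_neg (by linarith) (by linarith)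
    have e1 : ∀ m, ((LD f hα).a v (rd v t) m : ℂ) = ∑ j, α t v j ^ (m + 1) := by
      intro m
      show ((tr f hα v (rd v t) m : ℝ) : ℂ) = _
      unfold tr
      rw [if_pos hsm, power_sum_real f hα ((good_lift f).2 hsm)]
      refine (power_sum_eq f hα (fun i => ?_) h m).symm
      exact (congrFun (res_lift v (rd v t)) i).symm
    have e2 : ell (fun m => ((LD f hα).a v (rd v t) m : ℂ)) (xv v s) = ∑ j, ell (fun _ => 1) (α t v j * xv v s) := by
      unfold ell
      rw [← Summable.tsum_finsetSum]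
      · refine tsum_congr fun m => ?_
        simp only
        rw [e1, Finset.sum_mul, Finset.sum_div]
        refine Finset.sum_congr rfl fun j _ => ?_
        rw [mul_pow, one_mul]
      · intro j _
        exact ell_summable (a := fun _ => (1 : ℂ)) (D := 1) (Q := 1) zero_le_one zero_le_one one_bound (by
          rw [one_mul]; exact hlt j)
    rw [e2, Complex.exp_sum]
    exact Finset.prod_congr rfl fun j _ => (exp_ell_one (hlt j)).symm
  · rw [if_neg h]
    have hsm : ¬ SmoothMod f v (rd v t) := h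
    have e : (fun m => ((LD f hα).a v (rd v t) m : ℂ)) = fun _ => 0 := by
      funext m
      show ((tr f hα v (rd v t) m : ℝ) : ℂ) = 0
      unfold tr
      rw [if_neg hsm, Complex.ofReal_zero]
    rw [e]
    unfold ell
    simp

theorem LSeries_eq (t : J → 𝓞 K) {s : ℂ} (hs : ((n : ℝ) - 1) / 2 < s.re) :
    LSeries f t (α t) s = LL (LD f hα) t s := by
  unfold LSeries LL
  exact tprod_congr fun v => factor_eq f hα t v hs

theorem partialProduct_eq (Z : ℕ) (t : J → 𝓞 K) {s : ℂ} (hs : ((n : ℝ) - 1) / 2 < s.re) :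
    partialProduct f Z t (α t) s = ∏ v ∈ SZ K Z, ef (LD f hα) v (rd v t) s := by
  classical
  unfold partialProduct
  rw [tprod_eq_prod (s := SZ K Z) (fun v hv => if_neg fun h => hv (mem_SZ.2 h))]
  exact Finset.prod_congr rfl fun v hv => by rw [if_pos (mem_SZ.1 hv), factor_eq f hα t v hs]

/-- the member over the residue field itself -/
theorem resForm_self (v : HeightOneSpectrum (𝓞 K)) (c : J → kv v) : resForm f v (kv v) c = form f (res v) c := rfl

/-- **The trace in terms of the number of points.** -/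
theorem tr_zero {v : HeightOneSpectrum (𝓞 K)} {c : J → kv v} {d : ℕ} (hf : ∀ i, (f i).IsHomogeneous d) (h : SmoothMod f v c) :
    tr f hα v c 0 = (-1) ^ (n - 1) * ((Nat.card {p : PP n (kv v) // val f (res v) c p.rep = 0} : ℝ) -
      ∑ i ∈ (Finset.range n).filter (fun i => 2 * i ≠ n - 1), (nv v : ℝ) ^ i) := by
  classical
  have hg := (good_lift f).2 h
  have h1 := (hα (lift v c)).count v hg (kv v)
  rw [res_lift, resForm_self, cone_eq f (res v) hf, Module.finrank_self, card_kv] at h1
  have h2nv := two_le_nv v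
  have e1 : ((Nat.card {p : PP n (kv v) // val f (res v) c p.rep = 0} * (nv v - 1) : ℕ) : ℂ) =
      ((nv v : ℂ) - 1) * (Nat.card {p : PP n (kv v) // val f (res v) c p.rep = 0} : ℂ) := by
    push_cast [Nat.cast_sub (by omega : 1 ≤ nv v)]
    ring
  rw [e1] at h1
  have hq : ((nv v : ℂ) - 1) ≠ 0 := by
    rw [sub_ne_zero]
    exact_mod_cast (by omega : nv v ≠ 1)
  have h2 := mul_left_cancel₀ hq h1
  have h5 : ((-1 : ℂ)) ^ (n - 1) * (-1) ^ (n - 1) = 1 := by
    rw [← mul_pow]; norm_num
  have h3 : ∑ j, α (lift v c) v j ^ (0 + 1) = (((-1) ^ (n - 1) * ((Nat.card {p : PP n (kv v) // val f (res v) c p.rep = 0} : ℝ) -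
      ∑ i ∈ (Finset.range n).filter (fun i => 2 * i ≠ n - 1), (nv v : ℝ) ^ i) : ℝ) : ℂ) := by
    push_cast
    rw [h2, add_sub_cancel_left, ← mul_assoc, h5, one_mul]
  unfold tr
  rw [if_pos h, h3, Complex.ofReal_re]

end

end Run7.h876.LS
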