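import Pool.Agent.Run7.h876.LS.Quad

/-!
# The number of the points over a quadratic extension: mean and variance
-/

set_option autoImplicit false
set_option linter.unusedSectionVars false

namespace Run7.h876.LS

open Finset
open scoped LinearAlgebra.Projectivization

section
variable {n : ℕ} {ι : Type} [Fintype ι] [DecidableEq ι] {A : Type} [CommRing A] {k : Type} [Field k] [Fintype k]
  [DecidableEq k] {E' : Type} [Field E'] [Fintype E'] [DecidableEq E'] [Algebra k E'] (f : ι → MvPolynomial (Fin (n + 1)) A) (φ : A →+* k)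

/-- the coefficients over the extension -/
noncomputable abbrev ψ (E' : Type) [Field E'] [Algebra k E'] (φ : A →+* k) : A →+* E' := (algebraMap k E').comp φ

/-- the coefficients of a member over the extension -/
noncomputable abbrev up (E' : Type) [Field E'] [Algebra k E'] (c : ι → k) : ι → E' := fun i => algebraMap k E' (c i)

/-- the traces of the coefficients -/
noncomputable def tc (c : ι → E') : ι → k := fun i => Algebra.trace k E' (c i)

theorem fr_eval (x : Fin (n + 1) → E') (P : MvPolynomial (Fin (n + 1)) A) :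
    fr (k := k) (MvPolynomial.eval₂ (ψ E' φ) x P) = MvPolynomial.eval₂ (ψ E' φ) (cj (k := k) x) P := by
  have h := MvPolynomial.eval₂_comp_left ((fr (k := k) : E' →ₐ[k] E') : E' →+* E') (ψ E' φ) x P
  have e : ((fr (k := k) : E' →ₐ[k] E') : E' →+* E').comp (ψ E' φ) = ψ E' φ := by
    ext a
    show fr (k := k) (algebraMap k E' (φ a)) = algebraMap k E' (φ a)
    rw [AlgHom.commutes]
  rw [e] at h
  exact h

theorem val_tc (h : Module.finrank k E' = 2) (c : ι → E') (x : Fin (n + 1) → E') :
    val f (ψ E' φ) (up E' (tc (k := k) c)) x = val f (ψ E' φ) c x + fr (k := k) (val f (ψ E' φ) c (cj (k := k) x)) := by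
  unfold val up tc
  rw [map_sum, ← Finset.sum_add_distrib]
  refine Finset.sum_congr rfl fun i _ => ?_
  rw [trace_eq h, map_mul, fr_eval]
  have e : cj (k := k) (cj (k := k) x) = x := by
    funext j
    exact fr_fr h (x j)
  rw [e]
  ring

theorem val_up_add (a b : ι → k) (x : Fin (n + 1) → E') : val f (ψ E' φ) (up E' (a + b)) x =
    val f (ψ E' φ) (up E' a) x + val f (ψ E' φ) (up E' b) x := by
  rw [← val_add]
  congr 1
  funext i
  simp [up]

/-- the conjugate of the value -/
theorem fr_val (c : ι → k) (x : Fin (n + 1) → E') :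
    fr (k := k) (val f (ψ E' φ) (up E' c) x) = val f (ψ E' φ) (up E' c) (cj (k := k) x) := by
  unfold val up
  rw [map_sum]
  refine Finset.sum_congr rfl fun i _ => ?_
  rw [map_mul, fr_eval, AlgHom.commutes]

/-- the points that are not rational and off the base locus -/
def NRo (f : ι → MvPolynomial (Fin (n + 1)) A) (φ : A →+* k) (E' : Type) [Field E'] [Fintype E'] [Algebra k E'] : Type :=
  {P : PP n E' // Npr P.rep (cj (k := k) P.rep) ∧ ∃ i, MvPolynomial.eval₂ (ψ E' φ) P.rep (f i) ≠ 0}

noncomputable instance : Fintype (NRo f φ E') := by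
  classical
  exact inferInstanceAs (Fintype {P : PP n E' // Npr P.rep (cj (k := k) P.rep) ∧ ∃ i, MvPolynomial.eval₂ (ψ E' φ) P.rep (f i) ≠ 0})
noncomputable instance : DecidableEq (NRo f φ E') := Classical.decEq _

/-- the value at a point -/
noncomputable def ew (P : NRo f φ E') (c : ι → k) : E' := val f (ψ E' φ) (up E' c) P.1.rep

/-- the centred number of these points -/
noncomputable def AB (E' : Type) [Field E'] [Fintype E'] [DecidableEq E'] [Algebra k E'] (c : ι → k) : ℝ :=
  ∑ P : NRo f φ E', g0 (ew f φ P c)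

variable {f φ}

/-- **The section.** -/
theorem exists_sec (h : Module.finrank k E' = 2) (hs : Separates3 f (ψ E' φ)) (P : NRo f φ E') (y : Fin (n + 1) → E')
    (hy : Npr P.1.rep y) (hy2 : Npr P.1.rep (cj (k := k) y)) :
    ∃ s : E' → (ι → k), ∀ w, ew f φ P (s w) = w ∧ val f (ψ E' φ) (up E' (s w)) y = 0 := by
  obtain ⟨c, hc, c1, c2, c3⟩ := hs P.1.rep (cj (k := k) P.1.rep) y (cj (k := k) y) P.2.1 hy hy2 P.2.2
  rw [eval_form] at hc c1 c2 c3
  refine ⟨fun w => tc ((w / val f (ψ E' φ) c P.1.rep) • c), fun w => ⟨?_, ?_⟩⟩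
  · unfold ew
    rw [val_tc f φ h, val_smul, val_smul, c1, mul_zero, map_zero, add_zero, div_mul_cancel₀ _ hc]
  · rw [val_tc f φ h, val_smul, val_smul, c2, c3, mul_zero, map_zero, add_zero]

theorem ew_add (P : NRo f φ E') (a b : ι → k) : ew f φ P (a + b) = ew f φ P a + ew f φ P b := val_up_add f φ a b _

theorem exists_sec1 (h : Module.finrank k E' = 2) (hs : Separates3 f (ψ E' φ)) (P : NRo f φ E') :
    ∃ s : E' → (ι → k), ∀ w, ew f φ P (s w) = w := by
  obtain ⟨c, hc, c1, _, _⟩ := hs P.1.rep (cj (k := k) P.1.rep) (cj (k := k) P.1.rep) (cj (k := k) P.1.rep)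
    P.2.1 P.2.1 P.2.1 P.2.2
  rw [eval_form] at hc c1
  refine ⟨fun w => tc ((w / val f (ψ E' φ) c P.1.rep) • c), fun w => ?_⟩
  unfold ew
  rw [val_tc f φ h, val_smul, val_smul, c1, mul_zero, map_zero, add_zero, div_mul_cancel₀ _ hc]

theorem E_one (h : Module.finrank k E' = 2) (hs : Separates3 f (ψ E' φ)) (P : NRo f φ E') (g : E' → ℝ) :
    E (fun t : ι → k => g (ew f φ P t)) = E g := by
  obtain ⟨s, hs'⟩ := exists_sec1 h hs P
  have := E_indep (fun t : ι → k => ew f φ P t) s (fun t w => by rw [ew_add, hs' w]) (fun _ => 1) (fun _ _ => rfl) g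
  simpa [E_const] using this

theorem E_AB (h : Module.finrank k E' = 2) (hs : Separates3 f (ψ E' φ)) : E (AB f φ E') = 0 := by
  have e : AB f φ E' = fun c => ∑ P : NRo f φ E', g0 (ew f φ P c) := rfl
  rw [e, E_sum]
  refine Finset.sum_eq_zero fun P _ => ?_
  rw [E_one h hs P, E_g0]

theorem E_pair (h : Module.finrank k E' = 2) (hs : Separates3 f (ψ E' φ)) (P Q : NRo f φ E') :
    E (fun t : ι → k => g0 (ew f φ P t) * g0 (ew f φ Q t)) ≤ (if Q.1 = P.1 then 1 / (Fintype.card E' : ℝ) else 0) +
      (if Q.1 = Projectivization.mk E' (cj (k := k) P.1.rep) (cj_ne P.1.rep_nonzero) then 1 / (Fintype.card E' : ℝ) else 0) := by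
  have hpos : 0 ≤ 1 / (Fintype.card E' : ℝ) := by positivity
  have hb : E (fun t : ι → k => g0 (ew f φ P t) * g0 (ew f φ Q t)) ≤ 1 / (Fintype.card E' : ℝ) := by
    have h1 : E (fun t : ι → k => g0 (ew f φ P t) * g0 (ew f φ Q t)) ≤
        E (fun t : ι → k => (1 / 2) * g0 (ew f φ P t) ^ 2 + (1 / 2) * g0 (ew f φ Q t) ^ 2) := by
      refine E_mono fun t => ?_
      nlinarith [sq_nonneg (g0 (ew f φ P t) - g0 (ew f φ Q t))]
    rw [E_add, E_mul, E_mul, E_one h hs P (fun x => g0 x ^ 2), E_one h hs Q (fun x => g0 x ^ 2)] at h1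
    have := E_g0_sq_le (k := E')
    linarith
  by_cases k1 : Npr P.1.rep Q.1.rep
  · by_cases k2 : Npr P.1.rep (cj (k := k) Q.1.rep)
    · obtain ⟨s, hs'⟩ := exists_sec h hs P Q.1.rep k1 k2
      have h2 := E_indep (fun t : ι → k => ew f φ P t) s (fun t w => by rw [ew_add, (hs' w).1])
        (fun t => g0 (ew f φ Q t)) (fun t w => by
          rw [ew_add]
          have : ew f φ Q (s w) = 0 := (hs' w).2
          rw [this, add_zero]) g0
      rw [h2, E_g0, zero_mul]
      split_ifs <;> positivity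
    · have h3 : ¬ Npr Q.1.rep (cj (k := k) P.1.rep) := fun h4 => k2 (npr_cj h h4).symm
      have h4 := eq_of_prop (cj_ne P.1.rep_nonzero) h3
      rw [if_pos h4]
      have : 0 ≤ (if Q.1 = P.1 then 1 / (Fintype.card E' : ℝ) else 0) := by split_ifs <;> positivity
      linarith
  · have h3 : Q.1 = P.1 := by
      by_contra hne
      exact k1 (not_prop (fun h5 => hne h5.symm))
    rw [if_pos h3]
    have : 0 ≤ (if Q.1 = Projectivization.mk E' (cj (k := k) P.1.rep) (cj_ne P.1.rep_nonzero) then 1 / (Fintype.card E' : ℝ) else 0) := by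
      split_ifs <;> positivity
    linarith

/-- **The variance.** -/
theorem E_AB_sq (h : Module.finrank k E' = 2) (hs : Separates3 f (ψ E' φ)) : E (fun t => AB f φ E' t ^ 2) ≤
    2 * (Fintype.card (NRo f φ E') / Fintype.card E') := by
  classical
  have e : (fun t => AB f φ E' t ^ 2) = fun t => ∑ P : NRo f φ E', ∑ Q : NRo f φ E', g0 (ew f φ P t) * g0 (ew f φ Q t) := by
    funext t
    unfold AB
    rw [sq, Finset.sum_mul_sum]
  rw [e, E_sum]
  simp only [E_sum]
  refine (Finset.sum_le_sum fun P _ => Finset.sum_le_sum fun Q _ => E_pair h hs P Q).trans ?_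
  have hone : ∀ R : PP n E', ∑ Q : NRo f φ E', (if Q.1 = R then 1 / (Fintype.card E' : ℝ) else 0) ≤ 1 / (Fintype.card E' : ℝ) := by
    intro R
    by_cases hR : ∃ Q : NRo f φ E', Q.1 = R
    · obtain ⟨Q0, hQ0⟩ := hR
      rw [Finset.sum_eq_single Q0]
      · rw [if_pos hQ0]
      · intro Q _ hne
        rw [if_neg]
        intro h2
        apply hne
        exact Subtype.ext (h2.trans hQ0.symm)
      · intro h2; exact absurd (Finset.mem_univ _) h2
    · push Not at hR
      rw [Finset.sum_eq_zero fun Q _ => if_neg (hR Q)]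
      positivity
  have h2 : ∀ P : NRo f φ E', ∑ Q : NRo f φ E', ((if Q.1 = P.1 then 1 / (Fintype.card E' : ℝ) else 0) +
      (if Q.1 = Projectivization.mk E' (cj (k := k) P.1.rep) (cj_ne P.1.rep_nonzero) then 1 / (Fintype.card E' : ℝ) else 0)) ≤
      2 / (Fintype.card E' : ℝ) := by
    intro P
    rw [Finset.sum_add_distrib]
    have := add_le_add (hone P.1) (hone (Projectivization.mk E' (cj (k := k) P.1.rep) (cj_ne P.1.rep_nonzero)))
    refine this.trans (le_of_eq ?_)
    ring
  refine (Finset.sum_le_sum fun P _ => h2 P).trans ?_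
  rw [Finset.sum_const, Finset.card_univ, nsmul_eq_mul]
  exact le_of_eq (by ring)

/-! ### the number of the points -/

/-- the base locus over the extension, and over the field -/
theorem zz_up (c : PP n k) : (∀ i, MvPolynomial.eval₂ (ψ E' φ) (fun j => algebraMap k E' (c.rep j)) (f i) = 0) ↔
    ∀ i, MvPolynomial.eval₂ φ c.rep (f i) = 0 := by
  refine forall_congr' fun i => ?_
  have h := MvPolynomial.eval₂_comp_left (algebraMap k E') φ c.rep (f i)
  have e : MvPolynomial.eval₂ (ψ E' φ) (fun j => algebraMap k E' (c.rep j)) (f i) =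
      algebraMap k E' (MvPolynomial.eval₂ φ c.rep (f i)) := by
    rw [h]; rfl
  rw [e]
  exact map_eq_zero _

theorem val_up (c : ι → k) (x : Fin (n + 1) → k) : val f (ψ E' φ) (up E' c) (fun j => algebraMap k E' (x j)) =
    algebraMap k E' (val f φ c x) := by
  unfold val up
  rw [map_sum]
  refine Finset.sum_congr rfl fun i _ => ?_
  rw [map_mul]
  congr 1
  have h := MvPolynomial.eval₂_comp_left (algebraMap k E') φ x (f i)
  rw [h]; rfl

theorem inv_base {d : ℕ} (hf : ∀ i, (f i).IsHomogeneous d) (a : E'ˣ) (x : Fin (n + 1) → E') :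
    (∀ i, MvPolynomial.eval₂ (ψ E' φ) (a • x) (f i) = 0) ↔ (∀ i, MvPolynomial.eval₂ (ψ E' φ) x (f i) = 0) := by
  have e : a • x = fun i => (a : E') * x i := by funext i; rfl
  rw [e]
  constructor
  · intro h i
    have h1 := h i
    rw [eval₂_smul (ψ E' φ) (f i) (hf i), mul_eq_zero] at h1
    exact h1.resolve_left (pow_ne_zero d a.ne_zero)
  · intro h i
    rw [eval₂_smul (ψ E' φ) (f i) (hf i), h i, mul_zero]

theorem inv_val' {d : ℕ} (hf : ∀ i, (f i).IsHomogeneous d) (c : ι → k) (a : E'ˣ) (x : Fin (n + 1) → E') :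
    val f (ψ E' φ) (up E' c) (a • x) = 0 ↔ val f (ψ E' φ) (up E' c) x = 0 := by
  have h := val_smul_vec f (ψ E' φ) hf (up E' c) (a : E') x
  have e : a • x = fun i => (a : E') * x i := by funext i; rfl
  rw [e, h, mul_eq_zero]
  have := pow_ne_zero d a.ne_zero
  tauto

/-- the points of the base locus that are not rational -/
noncomputable def zn (f : ι → MvPolynomial (Fin (n + 1)) A) (φ : A →+* k) (E' : Type) [Field E'] [Fintype E'] [Algebra k E'] : ℕ :=
  Nat.card {P : PP n E' // Npr P.rep (cj (k := k) P.rep) ∧ ∀ i, MvPolynomial.eval₂ (ψ E' φ) P.rep (f i) = 0}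

theorem zz_quad (h : Module.finrank k E' = 2) {d : ℕ} (hf : ∀ i, (f i).IsHomogeneous d) :
    zz f (ψ E' φ) = zz f φ + zn f φ E' := by
  have h1 := count_quad (n := n) h (fun x => ∀ i, MvPolynomial.eval₂ (ψ E' φ) x (f i) = 0) (fun a x => inv_base hf a x)
  unfold zz zn
  rw [h1]
  congr 1
  exact Nat.card_congr (Equiv.subtypeEquivRight fun p => zz_up p)

theorem card_nr (h : Module.finrank k E' = 2) : (Fintype.card (PP n E') : ℝ) = Fintype.card (PP n k) +
    (zn f φ E' + Fintype.card (NRo f φ E')) := by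
  classical
  have h1 := count_quad (n := n) h (fun _ => True) (fun _ _ => Iff.rfl)
  have h2 : Nat.card {P : PP n E' // True} = Fintype.card (PP n E') := by
    rw [Nat.card_eq_fintype_card]
    exact Fintype.card_congr (Equiv.subtypeUnivEquiv fun _ => trivial)
  have h3 : Nat.card {P : PP n k // True} = Fintype.card (PP n k) := by
    rw [Nat.card_eq_fintype_card]
    exact Fintype.card_congr (Equiv.subtypeUnivEquiv fun _ => trivial)
  have h4 : Nat.card {P : PP n E' // Npr P.rep (cj (k := k) P.rep) ∧ True} = zn f φ E' + Fintype.card (NRo f φ E') := by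
    unfold zn
    rw [Nat.card_eq_fintype_card, Nat.card_eq_fintype_card, ← Fintype.card_sum]
    refine Fintype.card_congr ?_
    refine (Equiv.ofBijective (fun z : {P : PP n E' // Npr P.rep (cj (k := k) P.rep) ∧ ∀ i, MvPolynomial.eval₂ (ψ E' φ) P.rep (f i) = 0} ⊕
        NRo f φ E' => (Sum.elim (fun P => ⟨P.1, P.2.1, trivial⟩) (fun P => ⟨P.1, P.2.1, trivial⟩) z :
        {P : PP n E' // Npr P.rep (cj (k := k) P.rep) ∧ True})) ⟨?_, ?_⟩).symm
    · rintro (⟨p, hp⟩ | ⟨p, hp⟩) (⟨p', hp'⟩ | ⟨p', hp'⟩) heq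
      · have : p = p' := congrArg Subtype.val heq
        subst this; rfl
      · have : p = p' := congrArg Subtype.val heq
        subst this
        obtain ⟨i, hi⟩ := hp'.2
        exact absurd (hp.2 i) hi
      · have : p = p' := congrArg Subtype.val heq
        subst this
        obtain ⟨i, hi⟩ := hp.2
        exact absurd (hp'.2 i) hi
      · have : p = p' := congrArg Subtype.val heq
        subst this; rfl
    · rintro ⟨p, hp⟩
      by_cases hb : ∀ i, MvPolynomial.eval₂ (ψ E' φ) p.rep (f i) = 0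
      · exact ⟨Sum.inl ⟨p, hp.1, hb⟩, rfl⟩
      · push Not at hb
        exact ⟨Sum.inr ⟨p, hp.1, hb⟩, rfl⟩
  have h5 : Nat.card {p : PP n k // (fun _ : Fin (n + 1) → E' => True) (fun i => algebraMap k E' (p.rep i))} = Nat.card {P : PP n k // True} := rfl
  rw [h5, h2, h3, h4] at h1
  rw [h1]
  push_cast
  ring

theorem cj_alg (x : Fin (n + 1) → k) : cj (k := k) (fun i => algebraMap k E' (x i)) = fun i => algebraMap k E' (x i) := by
  funext i
  exact AlgHom.commutes _ _

/-- The separation over the extension gives the separation over the field. -/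
theorem sep4_of (h : Module.finrank k E' = 2) (hs : Separates3 f (ψ E' φ)) : Sep4 (ev f φ) := by
  intro p p₁ p₂ p₃ h1 h2 h3
  have hN : ∀ p' : OffBase f φ, p ≠ p' → Npr (fun i => algebraMap k E' (p.1.rep i)) (fun i => algebraMap k E' (p'.1.rep i)) := by
    intro p' hne
    obtain ⟨i, j, hij⟩ := not_prop (fun h : p.1 = p'.1 => hne (Subtype.ext h))
    refine ⟨i, j, fun h2 => hij ?_⟩
    apply (algebraMap k E').injective
    rw [map_mul, map_mul]
    exact h2
  obtain ⟨c, hc, c1, c2, c3⟩ := hs _ _ _ _ (hN p₁ h1) (hN p₂ h2) (hN p₃ h3) (by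
    by_contra hcon
    push Not at hcon
    obtain ⟨i, hi⟩ := p.2
    exact hi ((zz_up (E' := E') p.1).1 hcon i))
  rw [eval_form] at hc c1 c2 c3
  obtain ⟨β, hβ⟩ := Algebra.trace_surjective k E' 1
  have key : ∀ x : Fin (n + 1) → k, algebraMap k E' (val f φ (tc ((β / val f (ψ E' φ) c (fun i => algebraMap k E' (p.1.rep i))) • c)) x) =
      algebraMap k E' (Algebra.trace k E' ((β / val f (ψ E' φ) c (fun i => algebraMap k E' (p.1.rep i))) *
        val f (ψ E' φ) c (fun i => algebraMap k E' (x i)))) := by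
    intro x
    rw [← val_up, val_tc f φ h, cj_alg, val_smul, ← trace_eq h]
  have z0 : ∀ x : Fin (n + 1) → k, val f (ψ E' φ) c (fun i => algebraMap k E' (x i)) = 0 →
      val f φ (tc ((β / val f (ψ E' φ) c (fun i => algebraMap k E' (p.1.rep i))) • c)) x = 0 := by
    intro x hx
    have h5 := key x
    rw [hx, mul_zero, map_zero, map_zero] at h5
    exact (map_eq_zero _).1 h5
  refine ⟨tc ((β / val f (ψ E' φ) c (fun i => algebraMap k E' (p.1.rep i))) • c), ?_, z0 _ c1, z0 _ c2, z0 _ c3⟩
  intro h0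
  have h5 := key p.1.rep
  have h6 : val f φ (tc ((β / val f (ψ E' φ) c (fun i => algebraMap k E' (p.1.rep i))) • c)) p.1.rep = 0 := h0
  rw [h6, div_mul_cancel₀ _ hc, hβ, map_zero, map_one] at h5
  exact zero_ne_one h5

/-- **The number of the points of a member over the quadratic extension.** -/
theorem card_pts2 (h : Module.finrank k E' = 2) {d : ℕ} (hf : ∀ i, (f i).IsHomogeneous d) (c : ι → k) :
    (Nat.card {P : PP n E' // val f (ψ E' φ) (up E' c) P.rep = 0} : ℝ) =
      Nat.card {p : PP n k // val f φ c p.rep = 0} + zn f φ E' + Fintype.card (NRo f φ E') / Fintype.card E' + AB f φ E' c := by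
  classical
  have h1 := count_quad (n := n) h (fun x => val f (ψ E' φ) (up E' c) x = 0) (fun a x => inv_val' hf c a x)
  have h2 : Nat.card {p : PP n k // (fun x => val f (ψ E' φ) (up E' c) x = 0) (fun i => algebraMap k E' (p.rep i))} =
      Nat.card {p : PP n k // val f φ c p.rep = 0} := by
    refine Nat.card_congr (Equiv.subtypeEquivRight fun p => ?_)
    show val f (ψ E' φ) (up E' c) (fun i => algebraMap k E' (p.rep i)) = 0 ↔ _
    rw [val_up]
    exact map_eq_zero _
  have h4 : Nat.card {P : PP n E' // Npr P.rep (cj (k := k) P.rep) ∧ (fun x => val f (ψ E' φ) (up E' c) x = 0) P.rep} =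
      zn f φ E' + Fintype.card {P : NRo f φ E' // ew f φ P c = 0} := by
    unfold zn
    rw [Nat.card_eq_fintype_card, Nat.card_eq_fintype_card, ← Fintype.card_sum]
    refine Fintype.card_congr ?_
    refine (Equiv.ofBijective (fun z : {P : PP n E' // Npr P.rep (cj (k := k) P.rep) ∧ ∀ i, MvPolynomial.eval₂ (ψ E' φ) P.rep (f i) = 0} ⊕
        {P : NRo f φ E' // ew f φ P c = 0} => (Sum.elim (fun P => ⟨P.1, P.2.1, by
          show val f (ψ E' φ) (up E' c) P.1.rep = 0
          unfold val
          exact Finset.sum_eq_zero fun i _ => by rw [P.2.2 i, mul_zero]⟩) (fun P => ⟨P.1.1, P.1.2.1, P.2⟩) z :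
        {P : PP n E' // Npr P.rep (cj (k := k) P.rep) ∧ (fun x => val f (ψ E' φ) (up E' c) x = 0) P.rep})) ⟨?_, ?_⟩).symm
    · rintro (⟨p, hp⟩ | ⟨⟨p, hp⟩, hp2⟩) (⟨p', hp'⟩ | ⟨⟨p', hp'⟩, hp2'⟩) heq
      · have : p = p' := congrArg Subtype.val heq
        subst this; rfl
      · have : p = p' := congrArg Subtype.val heq
        subst this
        obtain ⟨i, hi⟩ := hp'.2
        exact absurd (hp.2 i) hi
      · have : p = p' := congrArg Subtype.val heq
        subst this
        obtain ⟨i, hi⟩ := hp.2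
        exact absurd (hp'.2 i) hi
      · have : p = p' := congrArg Subtype.val heq
        subst this; rfl
    · rintro ⟨p, hp, hp2⟩
      by_cases hb : ∀ i, MvPolynomial.eval₂ (ψ E' φ) p.rep (f i) = 0
      · exact ⟨Sum.inl ⟨p, hp, hb⟩, rfl⟩
      · push Not at hb
        exact ⟨Sum.inr ⟨⟨p, hp, hb⟩, hp2⟩, rfl⟩
  have h5 : (Fintype.card {P : NRo f φ E' // ew f φ P c = 0} : ℝ) =
      Fintype.card (NRo f φ E') / Fintype.card E' + AB f φ E' c := by
    unfold AB g0
    rw [Finset.sum_sub_distrib, Finset.sum_const, Finset.card_univ, nsmul_eq_mul, Fintype.card_subtype,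
      Finset.card_filter]
    push_cast
    ring
  rw [h1, h2, h4]
  push_cast
  rw [h5]
  ring

end

end Run7.h876.LS
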