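import Pool.Agent.Run7.h876.LS.BadV
import Pool.Agent.Run7.h876.LS.Quad2
import Pool.Agent.Run7.h876.GN.Second

/-!
# Linear systems of hypersurfaces of odd dimension: the moments of the traces
-/

set_option autoImplicit false
set_option linter.unusedSectionVars false

namespace Run7.h876.LS

open NumberField IsDedekindDomain Finset
open Pool.Agent.Y722.HS (IsSmooth)
open Run7.h876.MM (nv kv two_le_nv nv_pos avg card_kv xv norm_xv instFieldKv instFintypeKv instDecKv
  norm_avg_le avg_sub' SZ mem_SZ)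
open Run7.h876.EN
open Run7.h876.HY (one_le_nv)
open Run7.h876.GN

section
variable {K : Type} [Field K] [NumberField K] {J : Type} [Fintype J] [DecidableEq J]

section
variable {n : ℕ} (f : J → MvPolynomial (Fin (n + 1)) (𝓞 K)) {b : ℕ} {α : (J → 𝓞 K) → HeightOneSpectrum (𝓞 K) → Fin b → ℂ}
  (hα : ∀ t, IsFrobenius f b t (α t))

/-- **The second trace in terms of the number of points over the quadratic extension.** -/
theorem tr_one {v : HeightOneSpectrum (𝓞 K)} {c : J → kv v} {d : ℕ} (hf : ∀ i, (f i).IsHomogeneous d) (h : SmoothMod f v c)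
    {E' : Type} [Field E'] [Fintype E'] [DecidableEq E'] [Algebra (kv v) E'] (hE : Module.finrank (kv v) E' = 2) :
    tr f hα v c 1 = (-1) ^ (n - 1) * ((Nat.card {P : PP n E' // val f (ψ E' (res v)) (up E' c) P.rep = 0} : ℝ) -
      ∑ i ∈ (Finset.range n).filter (fun i => 2 * i ≠ n - 1), ((nv v : ℝ) ^ 2) ^ i) := by
  classical
  have hg := (good_lift f).2 h
  have h1 := (hα (lift v c)).count v hg E'
  have hcE : Fintype.card E' = nv v ^ 2 := by rw [card_sq hE, card_kv]
  have hform : resForm f v E' (fun i => res v (lift v c i)) = form f (ψ E' (res v)) (up E' c) := by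
    rw [res_lift]; rfl
  rw [hform, cone_eq f (ψ E' (res v)) hf, hE, hcE] at h1
  have h2nv := two_le_nv v
  have h4 : 2 ≤ nv v ^ 2 := by nlinarith
  have e1 : ((Nat.card {P : PP n E' // val f (ψ E' (res v)) (up E' c) P.rep = 0} * (nv v ^ 2 - 1) : ℕ) : ℂ) =
      (((nv v ^ 2 : ℕ) : ℂ) - 1) * (Nat.card {P : PP n E' // val f (ψ E' (res v)) (up E' c) P.rep = 0} : ℂ) := by
    push_cast [Nat.cast_sub (by omega : 1 ≤ nv v ^ 2)]
    ring
  rw [e1] at h1
  have hq : (((nv v ^ 2 : ℕ) : ℂ) - 1) ≠ 0 := by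
    rw [sub_ne_zero]
    exact_mod_cast (by omega : nv v ^ 2 ≠ 1)
  have h2 := mul_left_cancel₀ hq h1
  have h5 : ((-1 : ℂ)) ^ (n - 1) * (-1) ^ (n - 1) = 1 := by
    rw [← mul_pow]; norm_num
  have h3 : ∑ j, α (lift v c) v j ^ (1 + 1) = (((-1) ^ (n - 1) * ((Nat.card {P : PP n E' // val f (ψ E' (res v)) (up E' c) P.rep = 0} : ℝ) -
      ∑ i ∈ (Finset.range n).filter (fun i => 2 * i ≠ n - 1), ((nv v : ℝ) ^ 2) ^ i) : ℝ) : ℂ) := by
    push_cast at h2 ⊢
    rw [h2, add_sub_cancel_left, ← mul_assoc, h5, one_mul]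
  unfold tr
  rw [if_pos h, h3, Complex.ofReal_re]

end

variable {i : ℕ} (f : J → MvPolynomial (Fin (2 * i + 2 + 1)) (𝓞 K)) {b : ℕ}
  {α : (J → 𝓞 K) → HeightOneSpectrum (𝓞 K) → Fin b → ℂ} (hα : ∀ t, IsFrobenius f b t (α t))

theorem filter_all : (Finset.range (2 * i + 2)).filter (fun j => 2 * j ≠ 2 * i + 2 - 1) = Finset.range (2 * i + 2) := by
  ext j
  simp only [Finset.mem_filter, Finset.mem_range]
  omega

/-- the main term of the traces -/
noncomputable def mo (v : HeightOneSpectrum (𝓞 K)) : ℝ := -(zz f (res v) : ℝ) + ((zz f (res v) : ℝ) - 1) / nv v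

theorem tr_odd {v : HeightOneSpectrum (𝓞 K)} {c : J → kv v} {d : ℕ} (hf : ∀ i, (f i).IsHomogeneous d) :
    tr f hα v c 0 = (mo f v - AA (ev f (res v)) c) * (1 - bad f v c) := by
  classical
  by_cases h : SmoothMod f v c
  · have hb : bad f v c = 0 := by unfold bad; rw [if_pos h]
    rw [hb, sub_zero, mul_one, tr_zero f hα hf h, card_pts f (res v) c, card_PP, card_kv, filter_all]
    have hq := nv_pos v
    have e1 : ((-1 : ℝ)) ^ (2 * i + 2 - 1) = -1 := by
      have : 2 * i + 2 - 1 = 2 * i + 1 := by omega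
      rw [this]
      exact Odd.neg_one_pow ⟨i, rfl⟩
    rw [e1, Finset.sum_range_succ' (n := 2 * i + 2)]
    have e3 : ∑ j ∈ Finset.range (2 * i + 2), (nv v : ℝ) ^ (j + 1) = nv v * ∑ j ∈ Finset.range (2 * i + 2), (nv v : ℝ) ^ j := by
      rw [Finset.mul_sum]
      exact Finset.sum_congr rfl fun i _ => by ring
    rw [e3]
    unfold mo
    field_simp
    ring
  · have hb : bad f v c = 1 := by unfold bad; rw [if_neg h]
    rw [hb, sub_self, mul_zero]
    unfold tr
    rw [if_neg h]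

/-- the value of the second moment -/
noncomputable def m2 (v : HeightOneSpectrum (𝓞 K)) : ℝ := (Fintype.card (OffBase f (res v)) : ℝ) * (1 / nv v - (1 / nv v) ^ 2)

theorem m2_eq (v : HeightOneSpectrum (𝓞 K)) : m2 f v = (nv v : ℝ) ^ (2 * i + 1) - (1 / (nv v : ℝ)) ^ 2 -
    zz f (res v) * (1 / nv v - (1 / nv v) ^ 2) := by
  have hq := nv_pos v
  have hg := mul_neg_geom_sum (nv v : ℝ) (2 * i + 2 + 1)
  unfold m2
  rw [card_off, card_PP, card_kv, sub_mul]
  congr 1
  have h1 : (∑ j ∈ Finset.range (2 * i + 2 + 1), (nv v : ℝ) ^ j) * ((nv v : ℝ) - 1) = (nv v : ℝ) ^ (2 * i + 2 + 1) - 1 := by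
    linarith
  have e2 : 1 / (nv v : ℝ) - (1 / nv v) ^ 2 = ((nv v : ℝ) - 1) / (nv v) ^ 2 := by field_simp
  rw [e2, ← mul_div_assoc, h1]
  field_simp
  ring

/-- the main term of the second traces -/
noncomputable def mo2 (v : HeightOneSpectrum (𝓞 K)) (E' : Type) [Field E'] [Fintype E'] [Algebra (kv v) E'] : ℝ :=
  -(1 / (nv v : ℝ)) ^ 2 - zz f (ψ E' (res v)) * (1 - (1 / (nv v : ℝ)) ^ 2) - m2 f v

theorem tr_odd2 {v : HeightOneSpectrum (𝓞 K)} {c : J → kv v} {d : ℕ} (hf : ∀ i, (f i).IsHomogeneous d)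
    {E' : Type} [Field E'] [Fintype E'] [DecidableEq E'] [Algebra (kv v) E'] (hE : Module.finrank (kv v) E' = 2) :
    tr f hα v c 1 = (mo2 f v E' - AA (ev f (res v)) c - AB f (res v) E' c) * (1 - bad f v c) := by
  classical
  by_cases h : SmoothMod f v c
  · have hb : bad f v c = 0 := by unfold bad; rw [if_pos h]
    rw [hb, sub_zero, mul_one, tr_one f hα hf h hE, card_pts2 hE hf c, card_pts f (res v) c, filter_all]
    have hq := nv_pos v
    have hNR := card_nr (f := f) (φ := res v) hE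
    have hzq := zz_quad (f := f) (φ := res v) hE hf
    have hoff := card_off f (res v)
    rw [card_PP, card_PP, card_sq hE, card_kv] at hNR
    rw [card_PP, card_kv] at hoff ⊢
    rw [card_sq hE, card_kv]
    unfold mo2 m2
    rw [hoff, hzq]
    have e1 : ((-1 : ℝ)) ^ (2 * i + 2 - 1) = -1 := by
      have : 2 * i + 2 - 1 = 2 * i + 1 := by omega
      rw [this]
      exact Odd.neg_one_pow ⟨i, rfl⟩
    rw [e1]
    push_cast at hNR ⊢
    rw [Finset.sum_range_succ' (f := fun j => ((nv v : ℝ) ^ 2) ^ j) (n := 2 * i + 2)] at hNR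
    have e3 : ∑ j ∈ Finset.range (2 * i + 2), ((nv v : ℝ) ^ 2) ^ (j + 1) = (nv v : ℝ) ^ 2 * ∑ j ∈ Finset.range (2 * i + 2), ((nv v : ℝ) ^ 2) ^ j := by
      rw [Finset.mul_sum]
      exact Finset.sum_congr rfl fun i _ => by ring
    rw [e3] at hNR
    have hNR' : (Fintype.card (NRo f (res v) E') : ℝ) = (nv v : ℝ) ^ 2 * ∑ j ∈ Finset.range (2 * i + 2), ((nv v : ℝ) ^ 2) ^ j +
        ((nv v : ℝ) ^ 2) ^ 0 - ∑ j ∈ Finset.range (2 * i + 2 + 1), (nv v : ℝ) ^ j - zn f (res v) E' := by linarith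
    rw [hNR']
    field_simp
    ring
  · have hb : bad f v c = 1 := by unfold bad; rw [if_neg h]
    rw [hb, sub_self, mul_zero]
    unfold tr
    rw [if_neg h]

end

end Run7.h876.LS
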