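import Pool.Agent.Run7.h876.LS.Odd

/-!
# Linear systems of hypersurfaces of odd dimension: the estimates
-/

set_option autoImplicit false
set_option linter.unusedSectionVars false

namespace Run7.h876.LS

open NumberField IsDedekindDomain Finset
open Pool.Agent.Y722.HS (IsSmooth)
open Run7.h876.MM (nv kv two_le_nv nv_pos avg card_kv xv norm_xv instFieldKv instFintypeKv instDecKv
  norm_avg_le avg_sub' SZ mem_SZ)
open Run7.h876.EN
open Run7.h876.HY (one_le_nv)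
open Run7.h876.GN

section
variable {K : Type} [Field K] [NumberField K] {J : Type} [Fintype J] [DecidableEq J]
variable {i : ℕ} (f : J → MvPolynomial (Fin (2 * i + 2 + 1)) (𝓞 K)) {b : ℕ}
  {α : (J → 𝓞 K) → HeightOneSpectrum (𝓞 K) → Fin b → ℂ} (hα : ∀ t, IsFrobenius f b t (α t))

/-- the constants -/
noncomputable def k1 (i : ℕ) (D : ℝ) : ℝ := Real.sqrt ((2 * i + 3) * Real.sqrt (6 * D) * D)
noncomputable def k2 (i : ℕ) (D : ℝ) : ℝ := (2 * i + 3) * Real.sqrt (6 * D)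
noncomputable def k3 (i : ℕ) (D : ℝ) : ℝ := Real.sqrt (2 * (2 * i + 3) * D)

/-- The moments of the noise restricted to the bad members. -/
theorem bad_moments {D : ℝ} (hD : 0 ≤ D) {v : HeightOneSpectrum (𝓞 K)} (hbad : E (bad f v) ≤ D / nv v)
    {E' : Type} [Field E'] [Fintype E'] [DecidableEq E'] [Algebra (kv v) E'] (hE : Module.finrank (kv v) E' = 2)
    (hs : Separates3 f (ψ E' (res v))) {x Q : ℝ} (hx1 : 1 ≤ x) (hx : x ^ 4 = nv v) (hQ : Q = (nv v : ℝ) ^ i) :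
    0 ≤ E (fun c => AA (ev f (res v)) c ^ 2 * bad f v c) ∧
    E (fun c => AA (ev f (res v)) c ^ 2 * bad f v c) ≤ k2 i D * (Q ^ 2 * x ^ 2) ∧
    |E (fun c => AA (ev f (res v)) c * bad f v c)| ≤ k1 i D * (Q / x) ∧
    |E (fun c => AB f (res v) E' c * bad f v c)| ≤ k3 i D * (Q ^ 2 * x ^ 2) := by
  have hq := nv_pos v
  have hq1 := one_le_nv v
  set q : ℝ := ((nv v : ℕ) : ℝ) with hqd
  have hx0 : 0 < x := by linarith
  have hQ1 : 1 ≤ Q := by rw [hQ]; exact one_le_pow₀ hq1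
  have hQ0 : 0 < Q := by linarith
  have hb2 : (fun c => bad f v c ^ 2) = bad f v := by funext c; exact bad_sq f v c
  have hb0 : 0 ≤ E (bad f v) := E_nonneg fun c => bad_nonneg f v c
  -- the number of the points off the base locus
  have hoff := card_off f (res v)
  have hz0 : (0 : ℝ) ≤ zz f (res v) := by positivity
  rw [card_PP, card_kv, ← hqd] at hoff
  have hsum : ∀ r : ℝ, 1 ≤ r → ∑ j ∈ Finset.range (2 * i + 2 + 1), r ^ j ≤ (2 * i + 3) * r ^ (2 * i + 2) := by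
    intro r hr
    have h3 : ∑ j ∈ Finset.range (2 * i + 2 + 1), r ^ j ≤ ∑ _j ∈ Finset.range (2 * i + 2 + 1), r ^ (2 * i + 2) := by
      refine Finset.sum_le_sum fun j hj => pow_le_pow_right₀ hr ?_
      have := Finset.mem_range.1 hj
      omega
    rw [Finset.sum_const, Finset.card_range, nsmul_eq_mul] at h3
    push_cast at h3
    have e : ((2 : ℝ) * i + 2 + 1) = 2 * i + 3 := by ring
    rw [e] at h3
    exact h3
  set T : ℝ := (2 * i + 3) * (Q ^ 2 * x ^ 4) with hT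
  have hT1 : 1 ≤ T := by
    have h1 : 1 ≤ Q ^ 2 * x ^ 4 := one_le_mul_of_one_le_of_one_le (one_le_pow₀ hQ1) (one_le_pow₀ hx1)
    have h2 : (1 : ℝ) ≤ 2 * i + 3 := by
      have : (0 : ℝ) ≤ i := by positivity
      linarith
    exact one_le_mul_of_one_le_of_one_le h2 h1
  have hPT : (Fintype.card (OffBase f (res v)) : ℝ) / Fintype.card (kv v) ≤ T := by
    rw [card_kv, ← hqd, div_le_iff₀ hq, hT, hoff]
    have h1 := hsum q hq1
    have e : (2 * (i : ℝ) + 3) * (Q ^ 2 * x ^ 4) * q = (2 * i + 3) * q ^ (2 * i + 2) := by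
      rw [hx, hQ]; ring
    rw [e]
    linarith
  have h4 : E (fun c => AA (ev f (res v)) c ^ 4) ≤ 6 * T ^ 2 := by
    refine (E_AA_four _ (nonz f (res v)) (sep4_of hE hs)).trans ?_
    have h5 : (0 : ℝ) ≤ (Fintype.card (OffBase f (res v)) : ℝ) / Fintype.card (kv v) := by positivity
    have h6 := pow_le_pow_left₀ h5 hPT 2
    have h7 : T ≤ T ^ 2 := le_self_pow₀ hT1 two_ne_zero
    linarith
  have hW0 : 0 ≤ E (fun c => AA (ev f (res v)) c ^ 2 * bad f v c) :=
    E_nonneg fun c => mul_nonneg (by positivity) (bad_nonneg f v c)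
  have hW : E (fun c => AA (ev f (res v)) c ^ 2 * bad f v c) ≤ k2 i D * (Q ^ 2 * x ^ 2) := by
    have h1 := abs_E_mul_le (fun c => AA (ev f (res v)) c ^ 2) (bad f v) (a := 6 * T ^ 2) (b := D / q) (by
      have : (fun c => (AA (ev f (res v)) c ^ 2) ^ 2) = fun c => AA (ev f (res v)) c ^ 4 := by funext c; ring
      rw [this]; exact h4) (by rw [hb2]; exact hbad)
    refine (le_abs_self _).trans (h1.trans (le_of_eq ?_))
    have e : 6 * T ^ 2 * (D / q) = (6 * D) * ((2 * i + 3) * (Q ^ 2 * x ^ 2)) ^ 2 := by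
      rw [hT, ← hx]
      field_simp
    rw [e, Real.sqrt_mul (by positivity), Real.sqrt_sq (by positivity)]
    unfold k2
    ring
  refine ⟨hW0, hW, ?_, ?_⟩
  · have h1 := abs_E_mul_le (fun c => AA (ev f (res v)) c * bad f v c) (bad f v) (a := k2 i D * (Q ^ 2 * x ^ 2)) (b := D / q) (by
      have : (fun c => (AA (ev f (res v)) c * bad f v c) ^ 2) = fun c => AA (ev f (res v)) c ^ 2 * bad f v c := by
        funext c; rw [mul_pow, bad_sq]
      rw [this]; exact hW) (by rw [hb2]; exact hbad)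
    have e0 : (fun c => AA (ev f (res v)) c * bad f v c * bad f v c) = fun c => AA (ev f (res v)) c * bad f v c := by
      funext c; rw [mul_assoc, ← sq, bad_sq]
    rw [e0] at h1
    refine h1.trans (le_of_eq ?_)
    have e : k2 i D * (Q ^ 2 * x ^ 2) * (D / q) = ((2 * i + 3) * Real.sqrt (6 * D) * D) * (Q / x) ^ 2 := by
      unfold k2
      rw [← hx]
      field_simp
    rw [e, Real.sqrt_mul (by positivity), Real.sqrt_sq (by positivity)]
    rfl
  · have hNR : (Fintype.card (NRo f (res v) E') : ℝ) / Fintype.card E' ≤ (2 * i + 3) * (Q ^ 4 * x ^ 8) := by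
      have h5 := card_nr (f := f) (φ := res v) hE
      have h6 : (0 : ℝ) ≤ Fintype.card (PP (2 * i + 2) (kv v)) := by positivity
      have h7 : (0 : ℝ) ≤ zn f (res v) E' := by positivity
      have h8 := card_PP (n := 2 * i + 2) (k := E')
      rw [card_sq hE, card_kv] at h8
      push_cast at h8
      rw [← hqd] at h8
      have h9 := hsum (q ^ 2) (one_le_pow₀ hq1)
      rw [card_sq hE, card_kv]
      push_cast
      rw [← hqd, div_le_iff₀ (by positivity)]
      have e : (2 * (i : ℝ) + 3) * (Q ^ 4 * x ^ 8) * q ^ 2 = (2 * i + 3) * (q ^ 2) ^ (2 * i + 2) := by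
        have : x ^ 8 = q ^ 2 := by rw [← hx]; ring
        rw [this, hQ]; ring
      rw [e]
      linarith
    have h1 := abs_E_mul_le (fun c => AB f (res v) E' c) (bad f v) (a := 2 * ((2 * i + 3) * (Q ^ 4 * x ^ 8))) (b := D / q)
      ((E_AB_sq hE hs).trans (by linarith)) (by rw [hb2]; exact hbad)
    refine h1.trans (le_of_eq ?_)
    have e : 2 * ((2 * i + 3) * (Q ^ 4 * x ^ 8)) * (D / q) = (2 * (2 * i + 3) * D) * (Q ^ 2 * x ^ 2) ^ 2 := by
      rw [← hx]
      field_simp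
    rw [e, Real.sqrt_mul (by positivity), Real.sqrt_sq (by positivity)]
    rfl

/-- the constant -/
noncomputable def CO (i : ℕ) (a D : ℝ) : ℝ :=
  a ^ 2 + 4 * a + 4 * a * D + 3 * a ^ 2 * D + 2 * a * k1 i D + k1 i D + k2 i D + k3 i D

/-- **The moments of the traces.** -/
theorem moments_odd {d : ℕ} (hf : ∀ i, (f i).IsHomogeneous d) {D C₀ : ℝ} {e : ℕ} (hD : 0 ≤ D) (hC₀ : 0 ≤ C₀)
    {v : HeightOneSpectrum (𝓞 K)} (hbad : E (bad f v) ≤ D / nv v)
    {E' : Type} [Field E'] [Fintype E'] [DecidableEq E'] [Algebra (kv v) E'] (hE : Module.finrank (kv v) E' = 2)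
    (hs : Separates3 f (ψ E' (res v))) {x Q : ℝ} (hx1 : 1 ≤ x) (hx : x ^ 4 = nv v) (hQ : Q = (nv v : ℝ) ^ i)
    (hZ : |(zz f (res v) : ℝ) - e * Q| ≤ C₀ * (Q / x ^ 2)) (hZ2 : (zz f (ψ E' (res v)) : ℝ) ≤ (2 * C₀ + 2 * e + 1) * Q ^ 2) :
    |E (fun c => tr f hα v c 0) + e * Q| ≤ CO i (2 * C₀ + 2 * e + 1) D * (Q / x) ∧
    |E (fun c => (tr f hα v c 0 + e * Q) ^ 2) - Q ^ 2 * x ^ 4| ≤ CO i (2 * C₀ + 2 * e + 1) D * (Q ^ 2 * x ^ 2) ∧
    |E (fun c => tr f hα v c 1) + Q ^ 2 * x ^ 4| ≤ CO i (2 * C₀ + 2 * e + 1) D * (Q ^ 2 * x ^ 2) := by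
  obtain ⟨w1, w2, w3, w4⟩ := bad_moments f hD hbad hE hs hx1 hx hQ
  have hAA := E_AA _ (nonz f (res v))
  have hAB := E_AB (f := f) (φ := res v) hE hs
  have hAA2 := E_AA_sq _ (nonz f (res v)) (sep4_of hE hs).sep2
  rw [card_kv] at hAA2
  have hm2 := m2_eq f v
  have hq := nv_pos v
  have hq1 := one_le_nv v
  have hk1 : 0 ≤ k1 i D := Real.sqrt_nonneg _
  have hk2 : 0 ≤ k2 i D := by unfold k2; positivity
  have hk3 : 0 ≤ k3 i D := Real.sqrt_nonneg _
  have htr := fun c => tr_odd f hα (v := v) (c := c) hf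
  have htr2 := fun c => tr_odd2 f hα (v := v) (c := c) hf hE
  have hmo : mo f v = -(zz f (res v) : ℝ) + ((zz f (res v) : ℝ) - 1) / nv v := rfl
  have hmo2 : mo2 f v E' = -(1 / (nv v : ℝ)) ^ 2 - zz f (ψ E' (res v)) * (1 - (1 / (nv v : ℝ)) ^ 2) - m2 f v := rfl
  have hm2' : E (fun c => AA (ev f (res v)) c ^ 2) = m2 f v := hAA2
  have hz0 : (0 : ℝ) ≤ zz f (res v) := by positivity
  have hz20 : (0 : ℝ) ≤ zz f (ψ E' (res v)) := by positivity
  have hB0 : 0 ≤ E (bad f v) := E_nonneg fun c => bad_nonneg f v c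
  generalize (zz f (res v) : ℝ) = z at hZ hmo hm2 hz0
  generalize (zz f (ψ E' (res v)) : ℝ) = z2 at hZ2 hmo2 hz20
  generalize m2 f v = M at hm2 hmo2 hm2'
  generalize mo f v = m0 at htr hmo
  generalize mo2 f v E' = m1 at htr2 hmo2
  set q : ℝ := ((nv v : ℕ) : ℝ) with hqd
  have hx0 : 0 < x := by linarith
  have hQ1 : 1 ≤ Q := by rw [hQ]; exact one_le_pow₀ hq1
  have hQ0 : 0 < Q := by linarith
  have hx2 : 1 ≤ x ^ 2 := one_le_pow₀ hx1
  have hx4 : 1 ≤ x ^ 4 := one_le_pow₀ hx1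
  have hQ2 : Q ≤ Q ^ 2 := le_self_pow₀ hQ1 two_ne_zero
  obtain ⟨a, ha⟩ : ∃ a, a = 2 * C₀ + 2 * (e : ℝ) + 1 := ⟨_, rfl⟩
  have he0 : (0 : ℝ) ≤ e := by positivity
  have ha1 : 1 ≤ a := by rw [ha]; linarith
  have ha0 : 0 ≤ a := by linarith
  rw [← ha] at hZ2 ⊢
  -- elementary comparisons
  have c1 : Q / x ^ 2 ≤ Q / x := div_le_div_of_nonneg_left hQ0.le hx0 (le_self_pow₀ hx1 two_ne_zero)
  have c2 : Q / x ^ 2 ≤ Q := div_le_self hQ0.le hx2
  have c3 : Q / x ≤ Q := div_le_self hQ0.le hx1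
  have c4 : Q ^ 2 ≤ Q ^ 2 * x ^ 2 := le_mul_of_one_le_right (by positivity) hx2
  have c5 : Q / x ^ 4 ≤ Q / x ^ 2 := div_le_div_of_nonneg_left hQ0.le (by positivity) (pow_le_pow_right₀ hx1 (by norm_num))
  have c6 : 1 / q ≤ Q / x ^ 2 := by
    rw [← hx]
    calc 1 / x ^ 4 ≤ Q / x ^ 4 := by gcongr
      _ ≤ _ := c5
  have hzle : z ≤ (e + C₀) * Q := by
    have h1 := (abs_le.1 hZ).2
    have h2 : C₀ * (Q / x ^ 2) ≤ C₀ * Q := by gcongr
    linarith
  have hBle : E (bad f v) ≤ D / x ^ 4 := by rw [hx]; exact hbad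
  have hBle1 : E (bad f v) ≤ D := hBle.trans (div_le_self hD hx4)
  have hzq : z / q ≤ (e + C₀) * (Q / x ^ 2) := by
    rw [← hx]
    calc z / x ^ 4 ≤ (e + C₀) * Q / x ^ 4 := by gcongr
      _ = (e + C₀) * (Q / x ^ 4) := by ring
      _ ≤ _ := by gcongr
  -- the main term
  obtain ⟨m, hm⟩ : ∃ m, m = m0 + e * Q := ⟨_, rfl⟩
  have hmb : |m| ≤ a * (Q / x ^ 2) := by
    have e1 : m = -(z - e * Q) + (z / q - 1 / q) := by rw [hm, hmo]; ring
    rw [e1]
    refine (abs_add_le _ _).trans ?_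
    rw [abs_neg]
    have h1 : |z / q - 1 / q| ≤ z / q + 1 / q := by
      refine (abs_sub _ _).trans ?_
      rw [abs_of_nonneg (by positivity : 0 ≤ z / q), abs_of_nonneg (by positivity : 0 ≤ 1 / q)]
    have h2 : a * (Q / x ^ 2) = C₀ * (Q / x ^ 2) + (e + C₀) * (Q / x ^ 2) + (Q / x ^ 2) + e * (Q / x ^ 2) := by rw [ha]; ring
    have h3 : 0 ≤ e * (Q / x ^ 2) := by positivity
    rw [h2]
    linarith
  have hmb1 : |m| ≤ a * Q := hmb.trans (by gcongr)
  have hm0b : |m0| ≤ a * Q := by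
    have e1 : m0 = -z + (z / q - 1 / q) := by rw [hmo]; ring
    rw [e1, abs_le]
    have h1 : 0 ≤ z / q := by positivity
    have h2 : 0 ≤ 1 / q := by positivity
    have h3 : 1 / q ≤ Q := c6.trans c2
    have h4 : z / q ≤ (e + C₀) * Q := hzq.trans (by gcongr)
    have h5 : a * Q = 2 * ((e + C₀) * Q) + Q := by rw [ha]; ring
    constructor <;> linarith
  have hm0B : |m0| * E (bad f v) ≤ a * D * (Q / x) := by
    calc |m0| * E (bad f v) ≤ (a * Q) * (D / x ^ 4) := mul_le_mul hm0b hBle hB0 (by positivity)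
      _ = a * D * (Q / x ^ 4) := by ring
      _ ≤ _ := mul_le_mul_of_nonneg_left (c5.trans c1) (by positivity)
  have hMb : |M - Q ^ 2 * x ^ 4| ≤ a * Q := by
    have e1 : M - Q ^ 2 * x ^ 4 = -((1 / q) ^ 2 + z * (1 / q - (1 / q) ^ 2)) := by
      rw [hm2, hx, hQ]; ring
    rw [e1, abs_neg]
    have h1 : 1 / q ≤ 1 := by rw [div_le_one hq]; exact hq1
    have h2 : 0 < 1 / q := by positivity
    have h3 : (1 / q) ^ 2 ≤ 1 / q := pow_le_of_le_one h2.le h1 two_ne_zero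
    have h4 : 0 ≤ z * (1 / q - (1 / q) ^ 2) := mul_nonneg hz0 (by linarith)
    have h5 : z * (1 / q - (1 / q) ^ 2) ≤ z / q := by
      have : 0 ≤ z * (1 / q) ^ 2 := by positivity
      have e : z / q = z * (1 / q) := by ring
      rw [e]; linarith
    have h6 : (0 : ℝ) ≤ (1 / q) ^ 2 := by positivity
    rw [abs_of_nonneg (by linarith)]
    have h7 : 1 / q ≤ Q := c6.trans c2
    have h8 : z / q ≤ (e + C₀) * Q := hzq.trans (by gcongr)
    have h9 : a * Q = 2 * ((e + C₀) * Q) + Q := by rw [ha]; ring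
    have h10 : 0 ≤ (e + C₀) * Q := by positivity
    linarith
  refine ⟨?_, ?_, ?_⟩
  · -- first moment
    have e2 : E (fun c => tr f hα v c 0) = m0 - m0 * E (bad f v) + E (fun c => AA (ev f (res v)) c * bad f v c) := by
      have e3 : (fun c => tr f hα v c 0) = fun c => ((m0 - AA (ev f (res v)) c) - m0 * bad f v c) +
          AA (ev f (res v)) c * bad f v c := by
        funext c
        rw [htr]
        ring
      rw [e3, E_add, E_sub, E_sub, E_const, E_mul, hAA, sub_zero]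
    rw [e2]
    have e4 : m0 - m0 * E (bad f v) + E (fun c => AA (ev f (res v)) c * bad f v c) + e * Q =
        m - m0 * E (bad f v) + E (fun c => AA (ev f (res v)) c * bad f v c) := by rw [hm]; ring
    rw [e4]
    refine (abs_add_le _ _).trans ((add_le_add (abs_sub _ _) le_rfl).trans ?_)
    rw [abs_mul, abs_of_nonneg hB0]
    have h1 : |m| ≤ a * (Q / x) := hmb.trans (by gcongr)
    have h2 : CO i a D * (Q / x) = a * (Q / x) + a * D * (Q / x) + k1 i D * (Q / x) +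
        (a ^ 2 + 3 * a + 3 * a * D + 3 * a ^ 2 * D + 2 * a * k1 i D + k2 i D + k3 i D) * (Q / x) := by
      unfold CO; ring
    have h3 : 0 ≤ (a ^ 2 + 3 * a + 3 * a * D + 3 * a ^ 2 * D + 2 * a * k1 i D + k2 i D + k3 i D) * (Q / x) := by positivity
    rw [h2]
    linarith
  · -- second moment
    have e2 : E (fun c => (tr f hα v c 0 + e * Q) ^ 2) = m ^ 2 + M + m0 * (m0 - 2 * m) * E (bad f v) +
        2 * m * E (fun c => AA (ev f (res v)) c * bad f v c) - E (fun c => AA (ev f (res v)) c ^ 2 * bad f v c) := by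
      have e3 : (fun c => (tr f hα v c 0 + e * Q) ^ 2) = fun c => (((((m ^ 2 + AA (ev f (res v)) c ^ 2) +
          m0 * (m0 - 2 * m) * bad f v c) + 2 * m * (AA (ev f (res v)) c * bad f v c)) -
          AA (ev f (res v)) c ^ 2 * bad f v c) - 2 * m * AA (ev f (res v)) c) := by
        funext c
        rw [htr]
        have hb := bad_sq f v c
        have hmm : e * Q = m - m0 := by rw [hm]; ring
        rw [hmm]
        linear_combination (m0 - AA (ev f (res v)) c) ^ 2 * hb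
      rw [e3, E_sub, E_sub, E_add, E_add, E_add, E_const, E_mul, E_mul, E_mul, hAA, hm2']
      ring
    rw [e2]
    have e4 : m ^ 2 + M + m0 * (m0 - 2 * m) * E (bad f v) +
        2 * m * E (fun c => AA (ev f (res v)) c * bad f v c) - E (fun c => AA (ev f (res v)) c ^ 2 * bad f v c) - Q ^ 2 * x ^ 4 =
        m ^ 2 + (M - Q ^ 2 * x ^ 4) + m0 * (m0 - 2 * m) * E (bad f v) +
        2 * m * E (fun c => AA (ev f (res v)) c * bad f v c) - E (fun c => AA (ev f (res v)) c ^ 2 * bad f v c) := by ring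
    rw [e4]
    have t1 : |m ^ 2| ≤ a ^ 2 * Q ^ 2 := by
      rw [abs_pow]
      have := pow_le_pow_left₀ (abs_nonneg _) hmb1 2
      rwa [mul_pow] at this
    have t2 : |M - Q ^ 2 * x ^ 4| ≤ a * Q ^ 2 := hMb.trans (by gcongr)
    have t3 : |m0 * (m0 - 2 * m) * E (bad f v)| ≤ 3 * a ^ 2 * D * Q ^ 2 := by
      rw [abs_mul, abs_mul, abs_of_nonneg hB0]
      have h1 : |m0 - 2 * m| ≤ 3 * (a * Q) := by
        refine (abs_sub _ _).trans ?_
        rw [abs_mul, abs_two]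
        linarith
      calc |m0| * |m0 - 2 * m| * E (bad f v) ≤ (a * Q) * (3 * (a * Q)) * D := by gcongr
        _ = _ := by ring
    have t4 : |2 * m * E (fun c => AA (ev f (res v)) c * bad f v c)| ≤ 2 * a * k1 i D * Q ^ 2 := by
      rw [abs_mul, abs_mul, abs_two]
      calc 2 * |m| * |E (fun c => AA (ev f (res v)) c * bad f v c)| ≤ 2 * (a * Q) * (k1 i D * Q) := by
            gcongr
            exact w3.trans (by gcongr)
        _ = _ := by ring
    have t5 : |E (fun c => AA (ev f (res v)) c ^ 2 * bad f v c)| ≤ k2 i D * (Q ^ 2 * x ^ 2) := by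
      rw [abs_of_nonneg w1]; exact w2
    refine (abs_sub _ _).trans ((add_le_add ((abs_add_le _ _).trans (add_le_add ((abs_add_le _ _).trans (add_le_add
      (abs_add_le _ _) le_rfl)) le_rfl)) le_rfl).trans ?_)
    have h2 : CO i a D * (Q ^ 2 * x ^ 2) = (a ^ 2 + a + 3 * a ^ 2 * D + 2 * a * k1 i D) * (Q ^ 2 * x ^ 2) +
        k2 i D * (Q ^ 2 * x ^ 2) + (3 * a + 4 * a * D + k1 i D + k3 i D) * (Q ^ 2 * x ^ 2) := by
      unfold CO; ring
    have h3 : 0 ≤ (3 * a + 4 * a * D + k1 i D + k3 i D) * (Q ^ 2 * x ^ 2) := by positivity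
    have h4 : (a ^ 2 + a + 3 * a ^ 2 * D + 2 * a * k1 i D) * Q ^ 2 ≤
        (a ^ 2 + a + 3 * a ^ 2 * D + 2 * a * k1 i D) * (Q ^ 2 * x ^ 2) := by gcongr
    have h5 : (a ^ 2 + a + 3 * a ^ 2 * D + 2 * a * k1 i D) * Q ^ 2 =
        a ^ 2 * Q ^ 2 + a * Q ^ 2 + 3 * a ^ 2 * D * Q ^ 2 + 2 * a * k1 i D * Q ^ 2 := by ring
    rw [h2]
    linarith
  · -- the second traces
    have e2 : E (fun c => tr f hα v c 1) = m1 - m1 * E (bad f v) + E (fun c => AA (ev f (res v)) c * bad f v c) +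
        E (fun c => AB f (res v) E' c * bad f v c) := by
      have e3 : (fun c => tr f hα v c 1) = fun c => ((((m1 - AA (ev f (res v)) c) - AB f (res v) E' c) - m1 * bad f v c) +
          AA (ev f (res v)) c * bad f v c) + AB f (res v) E' c * bad f v c := by
        funext c
        rw [htr2]
        ring
      have e5 : E (fun c => AB f (res v) E' c) = 0 := hAB
      rw [e3, E_add, E_add, E_sub, E_sub, E_sub, E_const, E_mul, hAA, e5, sub_zero, sub_zero]
    rw [e2]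
    have hm1 : |m1 + Q ^ 2 * x ^ 4| ≤ 3 * a * Q ^ 2 := by
      have e1 : m1 + Q ^ 2 * x ^ 4 = -((1 / q) ^ 2 + z2 * (1 - (1 / q) ^ 2)) - (M - Q ^ 2 * x ^ 4) := by rw [hmo2]; ring
      rw [e1]
      refine (abs_sub _ _).trans ?_
      rw [abs_neg]
      have h1 : 1 / q ≤ 1 := by rw [div_le_one hq]; exact hq1
      have h2 : 0 < 1 / q := by positivity
      have h3 : (1 / q) ^ 2 ≤ 1 := pow_le_one₀ h2.le h1
      have h4 : 0 ≤ z2 * (1 - (1 / q) ^ 2) := mul_nonneg hz20 (by linarith)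
      have h5 : z2 * (1 - (1 / q) ^ 2) ≤ z2 := mul_le_of_le_one_right hz20 (sub_le_self _ (sq_nonneg _))
      rw [abs_of_nonneg (by positivity)]
      have h6 : a * Q ≤ a * Q ^ 2 := by gcongr
      have h7 : 1 ≤ a * Q ^ 2 := one_le_mul_of_one_le_of_one_le ha1 (one_le_pow₀ hQ1)
      linarith
    have hm1b : |m1| ≤ 4 * a * (Q ^ 2 * x ^ 4) := by
      have h1 : |m1| ≤ |m1 + Q ^ 2 * x ^ 4| + |Q ^ 2 * x ^ 4| := by
        have := abs_sub (m1 + Q ^ 2 * x ^ 4) (Q ^ 2 * x ^ 4)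
        simpa using this
      rw [abs_of_nonneg (by positivity : 0 ≤ Q ^ 2 * x ^ 4)] at h1
      have h2 : Q ^ 2 ≤ Q ^ 2 * x ^ 4 := le_mul_of_one_le_right (by positivity) hx4
      have h3 : 3 * a * Q ^ 2 ≤ 3 * a * (Q ^ 2 * x ^ 4) := by gcongr
      have h4 : Q ^ 2 * x ^ 4 ≤ a * (Q ^ 2 * x ^ 4) := le_mul_of_one_le_left (by positivity) ha1
      linarith
    have t1 : |m1| * E (bad f v) ≤ 4 * a * D * Q ^ 2 := by
      calc |m1| * E (bad f v) ≤ (4 * a * (Q ^ 2 * x ^ 4)) * (D / x ^ 4) := mul_le_mul hm1b hBle hB0 (by positivity)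
        _ = _ := by field_simp
    have t2 : |E (fun c => AA (ev f (res v)) c * bad f v c)| ≤ k1 i D * Q ^ 2 := w3.trans (by gcongr; exact c3.trans hQ2)
    have e4 : m1 - m1 * E (bad f v) + E (fun c => AA (ev f (res v)) c * bad f v c) +
        E (fun c => AB f (res v) E' c * bad f v c) + Q ^ 2 * x ^ 4 =
        (m1 + Q ^ 2 * x ^ 4) - m1 * E (bad f v) + E (fun c => AA (ev f (res v)) c * bad f v c) +
        E (fun c => AB f (res v) E' c * bad f v c) := by ring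
    rw [e4]
    refine (abs_add_le _ _).trans ((add_le_add ((abs_add_le _ _).trans (add_le_add (abs_sub _ _) le_rfl)) le_rfl).trans ?_)
    rw [abs_mul, abs_of_nonneg hB0]
    have h2 : CO i a D * (Q ^ 2 * x ^ 2) = (3 * a + 4 * a * D + k1 i D) * (Q ^ 2 * x ^ 2) +
        k3 i D * (Q ^ 2 * x ^ 2) + (a ^ 2 + a + 3 * a ^ 2 * D + 2 * a * k1 i D + k2 i D) * (Q ^ 2 * x ^ 2) := by
      unfold CO; ring
    have h3 : 0 ≤ (a ^ 2 + a + 3 * a ^ 2 * D + 2 * a * k1 i D + k2 i D) * (Q ^ 2 * x ^ 2) := by positivity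
    have h4 : (3 * a + 4 * a * D + k1 i D) * Q ^ 2 ≤ (3 * a + 4 * a * D + k1 i D) * (Q ^ 2 * x ^ 2) := by gcongr
    have h5 : (3 * a + 4 * a * D + k1 i D) * Q ^ 2 = 3 * a * Q ^ 2 + 4 * a * D * Q ^ 2 + k1 i D * Q ^ 2 := by ring
    rw [h2]
    linarith

end

end Run7.h876.LS
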