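import Pool.Agent.Run7.h876.LS.OddMain
import Pool.Agent.Run7.h876.LN.Loc
import Pool.Agent.Run7.h876.PW.AllC

/-!
# Linear systems of hypersurfaces of odd dimension: the central products
-/

set_option autoImplicit false
set_option linter.unusedSectionVars false

namespace Run7.h876.LS

open NumberField IsDedekindDomain Finset Filter Topology
open Pool.Agent.Y722.HS (IsSmooth)
open Run7.h876.MM (nv kv two_le_nv nv_pos avg card_kv xv norm_xv instFieldKv instFintypeKv instDecKv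
  norm_avg_le avg_sub' SZ mem_SZ)
open Run7.h876.EN
open Run7.h876.HY (one_le_nv)
open Run7.h876.GN
open Run7.h9.BS Run7.h9.BS.LocalData Run7.h9.TP

section
variable {K : Type} [Field K] [NumberField K] {J : Type} [Fintype J] [DecidableEq J] {i : ℕ}
  (f : J → MvPolynomial (Fin (2 * i + 2 + 1)) (𝓞 K)) {b : ℕ} {α : (J → 𝓞 K) → HeightOneSpectrum (𝓞 K) → Fin b → ℂ}
  (hα : ∀ t, IsFrobenius f b t (α t))

theorem CO_nonneg' {i : ℕ} {a D : ℝ} (ha : 0 ≤ a) (hD : 0 ≤ D) : 0 ≤ CO i a D := by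
  have hk1 : 0 ≤ k1 i D := Real.sqrt_nonneg _
  have hk2 : 0 ≤ k2 i D := by unfold k2; positivity
  have hk3 : 0 ≤ k3 i D := Real.sqrt_nonneg _
  unfold CO; positivity

/-- **The moments of the traces at all but finitely many places.** -/
theorem main_odd {d : ℕ} (hd : 1 ≤ d) (hf : ∀ i, (f i).IsHomogeneous d) (hs : (smooth f).Nonempty)
    (S : Set (HeightOneSpectrum (𝓞 K))) (hS : S.Finite)
    (hsep : ∀ v, v ∉ S → ∀ (E' : Type) [Field E'] [Fintype E'] [Algebra (kv v) E'], Module.finrank (kv v) E' = 2 →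
      Separates3 f ((algebraMap (kv v) E').comp (res v))) (e : ℕ) {C₀ : ℝ} (hC₀ : 0 ≤ C₀)
    (hZ : ∀ v, v ∉ S → ∀ (E' : Type) [Field E'] [Fintype E'] [Algebra (kv v) E'], Module.finrank (kv v) E' ≤ 2 →
      |(baseCone f ((algebraMap (kv v) E').comp (res v)) : ℝ) / ((Fintype.card E' : ℝ) - 1) - e * (Fintype.card E' : ℝ) ^ i| ≤
        C₀ * (Fintype.card E' : ℝ) ^ ((i : ℝ) - 1 / 2)) :
    ∃ (C : ℝ) (B : Set (HeightOneSpectrum (𝓞 K))), 0 ≤ C ∧ B.Finite ∧ ∀ v, v ∉ B →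
      |E (fun c => tr f hα v c 0) + e * (nv v : ℝ) ^ i| ≤ C * (nv v : ℝ) ^ ((i : ℝ) - 1 / 4) ∧
      |E (fun c => (tr f hα v c 0 + e * (nv v : ℝ) ^ i) ^ 2) - (nv v : ℝ) ^ (2 * i + 1)| ≤
        C * (nv v : ℝ) ^ (2 * (i : ℝ) + 1 / 2) ∧
      |E (fun c => tr f hα v c 1) + (nv v : ℝ) ^ (2 * i + 1)| ≤ C * (nv v : ℝ) ^ (2 * (i : ℝ) + 1 / 2) := by
  obtain ⟨D, Bd, hD, hBd, hbad, _⟩ := exists_bad f hd hf hs
  have hCO : 0 ≤ CO i (2 * C₀ + 2 * e + 1) D := CO_nonneg' (by positivity) hD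
  refine ⟨CO i (2 * C₀ + 2 * e + 1) D, Bd ∪ S, hCO, hBd.union hS, ?_⟩
  intro v hv
  rw [Set.mem_union, not_or] at hv
  have hq := nv_pos v
  have hq1 := one_le_nv v
  have h2nv := two_le_nv v
  obtain ⟨E', i1, i2, i3, i4, hfr, hcard⟩ := exists_ext (k := kv v) 2 (by omega)
  obtain ⟨x, hxd⟩ : ∃ x : ℝ, x = (nv v : ℝ) ^ (1 / 4 : ℝ) := ⟨_, rfl⟩
  obtain ⟨Q, hQ⟩ : ∃ Q : ℝ, Q = (nv v : ℝ) ^ i := ⟨_, rfl⟩
  have hx1 : 1 ≤ x := by rw [hxd]; exact Real.one_le_rpow hq1 (by norm_num)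
  have hx0 : 0 < x := by linarith
  have hx : x ^ 4 = nv v := by
    rw [hxd, ← Real.rpow_natCast, ← Real.rpow_mul hq.le]
    norm_num
  have hQr : Q = (nv v : ℝ) ^ (i : ℝ) := by rw [hQ, Real.rpow_natCast]
  have hQx : Q / x = (nv v : ℝ) ^ ((i : ℝ) - 1 / 4) := by
    rw [hQr, hxd, ← Real.rpow_sub hq]
  have hQx2 : Q / x ^ 2 = (nv v : ℝ) ^ ((i : ℝ) - 1 / 2) := by
    rw [hQr, hxd, ← Real.rpow_natCast, ← Real.rpow_mul hq.le, ← Real.rpow_sub hq]
    congr 1; push_cast; ring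
  have hQ2x2 : Q ^ 2 * x ^ 2 = (nv v : ℝ) ^ (2 * (i : ℝ) + 1 / 2) := by
    rw [hQr, hxd, ← Real.rpow_natCast, ← Real.rpow_natCast, ← Real.rpow_mul hq.le, ← Real.rpow_mul hq.le, ← Real.rpow_add hq]
    congr 1; push_cast; ring
  have hQ2x4 : Q ^ 2 * x ^ 4 = (nv v : ℝ) ^ (2 * i + 1) := by
    rw [hx, hQ]; ring
  -- the base locus over the residue field
  have hq1' : (0 : ℝ) < (nv v : ℝ) - 1 := by
    have : (2 : ℝ) ≤ nv v := by exact_mod_cast h2nv
    linarith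
  have hz1 : |(zz f (res v) : ℝ) - e * Q| ≤ C₀ * (Q / x ^ 2) := by
    have h1 := hZ v hv.2 (kv v) (by rw [Module.finrank_self]; norm_num)
    rw [Algebra.algebraMap_self, RingHom.id_comp, card_kv] at h1
    have hzz : (zz f (res v) : ℝ) = (baseCone f (res v) : ℝ) / ((nv v : ℝ) - 1) := by
      rw [baseCone_eq f (res v) hf, card_kv]
      have : ((zz f (res v) * (nv v - 1) : ℕ) : ℝ) = zz f (res v) * ((nv v : ℝ) - 1) := by
        push_cast [Nat.cast_sub (by omega : 1 ≤ nv v)]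
        ring
      rw [this]
      field_simp
    rw [hzz, hQ, ← hQ, hQx2, hQ]
    exact h1
  -- the base locus over the quadratic extension
  have hz2 : (zz f (ψ E' (res v)) : ℝ) ≤ (2 * C₀ + 2 * e + 1) * Q ^ 2 := by
    have h1 := hZ v hv.2 E' (by rw [hfr])
    have hcE : (Fintype.card E' : ℝ) = (nv v : ℝ) ^ 2 := by
      rw [card_sq hfr, card_kv]; push_cast; rfl
    have h4 : 2 ≤ nv v ^ 2 := by nlinarith
    have h4' : (0 : ℝ) < (nv v : ℝ) ^ 2 - 1 := by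
      have : (2 : ℝ) ≤ (nv v : ℝ) ^ 2 := by exact_mod_cast h4
      linarith
    have hzz : (zz f (ψ E' (res v)) : ℝ) = (baseCone f (ψ E' (res v)) : ℝ) / ((nv v : ℝ) ^ 2 - 1) := by
      rw [baseCone_eq f (ψ E' (res v)) hf, card_sq hfr, card_kv]
      have : ((zz f (ψ E' (res v)) * (nv v ^ 2 - 1) : ℕ) : ℝ) = zz f (ψ E' (res v)) * ((nv v : ℝ) ^ 2 - 1) := by
        push_cast [Nat.cast_sub (by omega : 1 ≤ nv v ^ 2)]
        ring
      rw [this]
      field_simp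
    rw [hcE] at h1
    have h5 : (zz f (ψ E' (res v)) : ℝ) ≤ e * ((nv v : ℝ) ^ 2) ^ i + C₀ * ((nv v : ℝ) ^ 2) ^ ((i : ℝ) - 1 / 2) := by
      rw [hzz]
      have := (abs_le.1 h1).2
      linarith
    have h6 : ((nv v : ℝ) ^ 2) ^ ((i : ℝ) - 1 / 2) ≤ Q ^ 2 := by
      have h7 : (1 : ℝ) ≤ (nv v : ℝ) ^ 2 := one_le_pow₀ hq1
      calc ((nv v : ℝ) ^ 2) ^ ((i : ℝ) - 1 / 2) ≤ ((nv v : ℝ) ^ 2) ^ (i : ℝ) :=
            Real.rpow_le_rpow_of_exponent_le h7 (by linarith)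
        _ = Q ^ 2 := by rw [Real.rpow_natCast, hQ, ← pow_mul, ← pow_mul, mul_comm]
    have h7 : ((nv v : ℝ) ^ 2) ^ i = Q ^ 2 := by rw [hQ, ← pow_mul, ← pow_mul, mul_comm]
    rw [h7] at h5
    have h8 : C₀ * ((nv v : ℝ) ^ 2) ^ ((i : ℝ) - 1 / 2) ≤ C₀ * Q ^ 2 := by gcongr
    have h9 : (2 * C₀ + 2 * e + 1) * Q ^ 2 = e * Q ^ 2 + C₀ * Q ^ 2 + (C₀ + e + 1) * Q ^ 2 := by ring
    have h10 : 0 ≤ (C₀ + e + 1) * Q ^ 2 := by positivity
    rw [h9]
    linarith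
  have h := moments_odd f hα hf (e := e) hD hC₀ (hbad v hv.1) hfr (hsep v hv.2 E' hfr) hx1 hx hQ hz1 hz2
  rw [hQx, hQ2x2, hQ2x4, hQ] at h
  exact h

/-- the traces, divided by the powers of `Nv^i` -/
noncomputable def trC (v : HeightOneSpectrum (𝓞 K)) (c : J → kv v) (m : ℕ) : ℝ :=
  tr f hα v c m / ((nv v : ℝ) ^ i) ^ (m + 1)

theorem trC_bound (v : HeightOneSpectrum (𝓞 K)) (c : J → kv v) (m : ℕ) :
    |trC f hα v c m| ≤ b * Real.sqrt (nv v) ^ (m + 1) := by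
  have hn := nv_pos v
  have h1 := (LD f hα).bound v c m
  have hQ : 0 < (nv v : ℝ) ^ i := by positivity
  have h2 : (LD f hα).h = i + 1 / 2 := LD_h2 f hα
  have h3 : (nv v : ℝ) ^ ((i : ℝ) + 1 / 2) = (nv v : ℝ) ^ i * Real.sqrt (nv v) := by
    rw [Real.rpow_add hn, Real.rpow_natCast, Real.sqrt_eq_rpow]
  rw [h2, h3, mul_pow] at h1
  unfold trC
  rw [abs_div, abs_of_pos (by positivity : 0 < ((nv v : ℝ) ^ i) ^ (m + 1)), div_le_iff₀ (by positivity)]
  refine h1.trans (le_of_eq ?_)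
  show (b : ℝ) * _ = _
  ring

theorem trC_eq {v : HeightOneSpectrum (𝓞 K)} {t : J → 𝓞 K} (h : GoodAt f t v) (m : ℕ) :
    (trC f hα v (rd v t) m : ℂ) = ∑ j, (α t v j / (nv v : ℂ) ^ i) ^ (m + 1) := by
  have hsm : SmoothMod f v (rd v t) := h
  have e1 : ((tr f hα v (rd v t) m : ℝ) : ℂ) = ∑ j, α t v j ^ (m + 1) := by
    unfold tr
    rw [if_pos hsm, power_sum_real f hα ((good_lift f).2 hsm)]
    refine (power_sum_eq f hα (fun i => ?_) h m).symm
    exact (congrFun (res_lift v (rd v t)) i).symm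
  unfold trC
  rw [Complex.ofReal_div, e1, Finset.sum_div]
  refine Finset.sum_congr rfl fun j _ => ?_
  rw [div_pow]
  push_cast
  rfl

theorem trC_bad {v : HeightOneSpectrum (𝓞 K)} {t : J → 𝓞 K} (h : ¬ GoodAt f t v) (m : ℕ) :
    trC f hα v (rd v t) m = 0 := by
  have hsm : ¬ SmoothMod f v (rd v t) := h
  unfold trC tr
  rw [if_neg hsm, zero_div]

open Classical in
/-- The product over the places `Nv ≤ Z` at which `X_t` is smooth of the inverses `∏_j |1 - α_j / Nv^(i+1)|` of the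
Euler factors of the middle cohomology `H^(2i+1)` at the centre `s = i + 1`. -/
noncomputable def centralProduct {b : ℕ} (Z : ℕ) (t : J → 𝓞 K) (α : HeightOneSpectrum (𝓞 K) → Fin b → ℂ) : ℝ :=
  ∏ v ∈ SZ K Z, if GoodAt f t v then ∏ j, ‖1 - α v j / (nv v : ℂ) ^ (i + 1)‖ else 1

/-- **The logarithm of a factor of the product.** -/
theorem exp_lam (v : HeightOneSpectrum (𝓞 K)) (t : J → 𝓞 K) [Decidable (GoodAt f t v)] :
    Real.exp (lamOf (nv v) (trC f hα v (rd v t))) =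
      if GoodAt f t v then ∏ j, ‖1 - α t v j / (nv v : ℂ) ^ (i + 1)‖ else 1 := by
  have hq := nv_pos v
  have h2nv : (2 : ℝ) ≤ nv v := by exact_mod_cast two_le_nv v
  have hqc : (nv v : ℂ) ≠ 0 := by exact_mod_cast (by exact_mod_cast hq.ne' : (nv v : ℕ) ≠ 0)
  split_ifs with h
  · have hlt : ∀ j, ‖(α t v j / (nv v : ℂ) ^ i) * ((1 / (nv v : ℝ) : ℝ) : ℂ)‖ < 1 := by
      intro j
      have h1 := (hα t).bound v h j
      have e0 : (((2 * i + 2 : ℕ) : ℝ) - 1) / 2 = i + 1 / 2 := by push_cast; ring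
      have h3 : (nv v : ℝ) ^ ((i : ℝ) + 1 / 2) = (nv v : ℝ) ^ i * Real.sqrt (nv v) := by
        rw [Real.rpow_add hq, Real.rpow_natCast, Real.sqrt_eq_rpow]
      rw [e0, h3] at h1
      have hQ : 0 < (nv v : ℝ) ^ i := by positivity
      rw [norm_mul, Complex.norm_real, Real.norm_of_nonneg (by positivity), mul_one_div, div_lt_one hq, norm_div, norm_pow,
        Complex.norm_natCast, div_lt_iff₀ hQ]
      refine h1.trans_lt ?_
      rw [mul_comm]
      refine mul_lt_mul_of_pos_right ?_ hQ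
      rw [Real.sqrt_lt' hq]
      nlinarith
    have e2 : ell (fun m => (trC f hα v (rd v t) m : ℂ)) ((1 / (nv v : ℝ) : ℝ) : ℂ) =
        ∑ j, ell (fun _ => 1) ((α t v j / (nv v : ℂ) ^ i) * ((1 / (nv v : ℝ) : ℝ) : ℂ)) := by
      unfold ell
      rw [← Summable.tsum_finsetSum]
      · refine tsum_congr fun m => ?_
        simp only
        rw [trC_eq f hα h, Finset.sum_mul, Finset.sum_div]
        refine Finset.sum_congr rfl fun j _ => ?_
        rw [mul_pow, one_mul]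
      · intro j _
        exact ell_summable (a := fun _ => (1 : ℂ)) (D := 1) (Q := 1) zero_le_one zero_le_one one_bound (by
          rw [one_mul]; exact hlt j)
    have e3 : Complex.exp (ell (fun m => (trC f hα v (rd v t) m : ℂ)) ((1 / (nv v : ℝ) : ℝ) : ℂ)) =
        ∏ j, (1 - (α t v j / (nv v : ℂ) ^ i) * ((1 / (nv v : ℝ) : ℝ) : ℂ))⁻¹ := by
      rw [e2, Complex.exp_sum]
      exact Finset.prod_congr rfl fun j _ => exp_ell_one (hlt j)
    have e4 : ((Real.exp (lamOf (nv v) (trC f hα v (rd v t))) : ℝ) : ℂ) =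
        ∏ j, (1 - (α t v j / (nv v : ℂ) ^ i) * ((1 / (nv v : ℝ) : ℝ) : ℂ)) := by
      rw [Complex.ofReal_exp, lamOf_eq, Complex.exp_neg, e3, Finset.prod_inv_distrib, inv_inv]
    have e5 : ‖((Real.exp (lamOf (nv v) (trC f hα v (rd v t))) : ℝ) : ℂ)‖ = Real.exp (lamOf (nv v) (trC f hα v (rd v t))) := by
      rw [Complex.norm_real, Real.norm_of_nonneg (Real.exp_pos _).le]
    rw [← e5, e4, norm_prod]
    refine Finset.prod_congr rfl fun j _ => ?_
    congr 1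
    push_cast
    rw [pow_succ]
    field_simp
  · have e : trC f hα v (rd v t) = fun _ => 0 := funext fun m => trC_bad f hα h m
    rw [e]
    unfold lamOf
    simp

include hα in
/-- **The local data of the logarithm of the central product.** -/
theorem exists_data {d : ℕ} (hd : 1 ≤ d) (hf : ∀ i, (f i).IsHomogeneous d) (hs : (smooth f).Nonempty)
    (S : Set (HeightOneSpectrum (𝓞 K))) (hS : S.Finite)
    (hsep : ∀ v, v ∉ S → ∀ (E' : Type) [Field E'] [Fintype E'] [Algebra (kv v) E'], Module.finrank (kv v) E' = 2 →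
      Separates3 f ((algebraMap (kv v) E').comp (res v))) (e : ℕ) {C₀ : ℝ} (hC₀ : 0 ≤ C₀)
    (hZ : ∀ v, v ∉ S → ∀ (E' : Type) [Field E'] [Fintype E'] [Algebra (kv v) E'], Module.finrank (kv v) E' ≤ 2 →
      |(baseCone f ((algebraMap (kv v) E').comp (res v)) : ℝ) / ((Fintype.card E' : ℝ) - 1) - e * (Fintype.card E' : ℝ) ^ i| ≤
        C₀ * (Fintype.card E' : ℝ) ^ ((i : ℝ) - 1 / 2)) :
    ∃ 𝓛 : LocalData K J, 𝓛.m = e + 1 / 2 ∧ 𝓛.D = 1 ∧ (∀ v t, |𝓛.lam v t| ≤ (4 * b + 1) / Real.sqrt (nv v)) ∧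
      ∀ Z t, centralProduct f Z t (α t) = Real.exp (𝓛.W Z t) := by
  classical
  obtain ⟨C, B, hC, hB, h⟩ := main_odd f hα hd hf hs S hS hsep e hC₀ hZ
  have hE1 : ∀ v, (fun c => trC f hα v c 0) = fun c => (1 / (nv v : ℝ) ^ i) * tr f hα v c 0 := by
    intro v
    funext c
    unfold trC
    rw [zero_add, pow_one]
    ring
  have hE2 : ∀ v, (fun c => trC f hα v c 1) = fun c => (1 / ((nv v : ℝ) ^ i) ^ 2) * tr f hα v c 1 := by
    intro v
    funext c
    unfold trC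
    ring
  have hE3 : ∀ v, (fun c => (trC f hα v c 0 + (e : ℝ)) ^ 2) =
      fun c => (1 / ((nv v : ℝ) ^ i) ^ 2) * (tr f hα v c 0 + e * (nv v : ℝ) ^ i) ^ 2 := by
    intro v
    funext c
    have hQ : (nv v : ℝ) ^ i ≠ 0 := pow_ne_zero _ (nv_pos v).ne'
    unfold trC
    rw [zero_add, pow_one]
    field_simp
  refine ⟨Run7.h876.LN.weakData (trC f hα) b e C (by positivity) (by positivity) hC B hB
    (trC_bound f hα) (fun v hv => ?_) (fun v hv => ?_) (fun v hv => ?_), rfl, rfl, fun v t => ?_, fun Z t => ?_⟩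
  · have h1 := (h v hv).1
    have hq := nv_pos v
    have hQ : 0 < (nv v : ℝ) ^ i := by positivity
    rw [hE1, E_mul]
    have e1 : 1 / (nv v : ℝ) ^ i * E (fun c => tr f hα v c 0) + (e : ℝ) =
        (E (fun c => tr f hα v c 0) + e * (nv v : ℝ) ^ i) / (nv v : ℝ) ^ i := by field_simp
    rw [e1, abs_div, abs_of_pos hQ, div_le_iff₀ hQ]
    refine h1.trans (le_of_eq ?_)
    rw [mul_assoc, ← Real.rpow_natCast, ← Real.rpow_add hq]
    congr 2
    ring
  · have h1 := (h v hv).2.1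
    have hq := nv_pos v
    have hQ : 0 < ((nv v : ℝ) ^ i) ^ 2 := by positivity
    rw [hE3, E_mul]
    have e1 : 1 / ((nv v : ℝ) ^ i) ^ 2 * E (fun c => (tr f hα v c 0 + e * (nv v : ℝ) ^ i) ^ 2) - nv v =
        (E (fun c => (tr f hα v c 0 + e * (nv v : ℝ) ^ i) ^ 2) - (nv v : ℝ) ^ (2 * i + 1)) / ((nv v : ℝ) ^ i) ^ 2 := by
      field_simp
      ring
    rw [e1, abs_div, abs_of_pos hQ, div_le_iff₀ hQ]
    refine h1.trans (le_of_eq ?_)
    rw [mul_assoc, ← Real.rpow_natCast, ← Real.rpow_natCast, ← Real.rpow_mul hq.le, ← Real.rpow_add hq]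
    congr 2
    push_cast
    ring
  · have h1 := (h v hv).2.2
    have hq := nv_pos v
    have hQ : 0 < ((nv v : ℝ) ^ i) ^ 2 := by positivity
    rw [hE2, E_mul]
    have e1 : 1 / ((nv v : ℝ) ^ i) ^ 2 * E (fun c => tr f hα v c 1) + nv v =
        (E (fun c => tr f hα v c 1) + (nv v : ℝ) ^ (2 * i + 1)) / ((nv v : ℝ) ^ i) ^ 2 := by
      field_simp
      ring
    rw [e1, abs_div, abs_of_pos hQ, div_le_iff₀ hQ]
    refine h1.trans (le_of_eq ?_)
    rw [mul_assoc, ← Real.rpow_natCast, ← Real.rpow_natCast, ← Real.rpow_mul hq.le, ← Real.rpow_add hq]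
    congr 2
    push_cast
    ring
  · refine (Run7.h876.PW.Al.lamOf_le (by positivity) (by exact_mod_cast two_le_nv v) _ (trC_bound f hα v t)).trans ?_
    have := nv_pos v
    gcongr
    linarith
  · show centralProduct f Z t (α t) = Real.exp (∑ v ∈ SZ K Z, lamOf (nv v) (trC f hα v (rd v t)))
    rw [Real.exp_sum]
    unfold centralProduct
    refine Finset.prod_congr rfl fun v _ => ?_
    rw [exp_lam]

end

end Run7.h876.LS
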