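import Pool.Agent.Run7.h876.LS.Count

/-!
# Points over a quadratic extension of a finite field
-/

set_option autoImplicit false
set_option linter.unusedSectionVars false

namespace Run7.h876.LS

open Finset
open scoped LinearAlgebra.Projectivization

/-- Every point off the base locus can be separated from any three other points. -/
def Separates3 {n : ℕ} {ι : Type} [Fintype ι] {A E : Type} [CommRing A] [CommRing E]
    (f : ι → MvPolynomial (Fin (n + 1)) A) (φ : A →+* E) : Prop :=
  ∀ x y₁ y₂ y₃ : Fin (n + 1) → E, (∃ i j, x i * y₁ j ≠ x j * y₁ i) → (∃ i j, x i * y₂ j ≠ x j * y₂ i) →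
    (∃ i j, x i * y₃ j ≠ x j * y₃ i) → (∃ i, MvPolynomial.eval₂ φ x (f i) ≠ 0) →
    ∃ c : ι → E, MvPolynomial.eval x (form f φ c) ≠ 0 ∧ MvPolynomial.eval y₁ (form f φ c) = 0 ∧
      MvPolynomial.eval y₂ (form f φ c) = 0 ∧ MvPolynomial.eval y₃ (form f φ c) = 0

/-- not proportional -/
def Npr {n : ℕ} {E : Type} [CommRing E] (x y : Fin (n + 1) → E) : Prop := ∃ i j, x i * y j ≠ x j * y i

section
variable {k : Type} [Field k] [Fintype k] {E' : Type} [Field E'] [Fintype E'] [Algebra k E']

/-- the Frobenius -/
noncomputable def fr : E' →ₐ[k] E' := FiniteField.frobeniusAlgHom k E'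

theorem fr_apply (x : E') : fr (k := k) x = x ^ Fintype.card k := rfl

theorem fr_inj : Function.Injective (fr (k := k) : E' → E') := (fr (k := k) : E' →ₐ[k] E').toRingHom.injective

theorem card_sq (h : Module.finrank k E' = 2) : Fintype.card E' = Fintype.card k ^ 2 := by
  rw [← h]
  exact Module.card_eq_pow_finrank

theorem fr_fr (h : Module.finrank k E' = 2) (x : E') : fr (k := k) (fr (k := k) x) = x := by
  rw [fr_apply, fr_apply, ← pow_mul, ← sq, ← card_sq h, FiniteField.pow_card]

theorem trace_eq (h : Module.finrank k E' = 2) (x : E') : algebraMap k E' (Algebra.trace k E' x) = x + fr (k := k) x := by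
  rw [FiniteField.algebraMap_trace_eq_sum_pow, h]
  simp [Finset.sum_range_succ, fr_apply, Nat.card_eq_fintype_card]

/-- The fixed elements are in the small field. -/
theorem fixed (h : Module.finrank k E' = 2) {x : E'} (hx : fr (k := k) x = x) : ∃ z : k, algebraMap k E' z = x := by
  obtain ⟨β, hβ⟩ := Algebra.trace_surjective k E' 1
  refine ⟨Algebra.trace k E' (x * β), ?_⟩
  rw [trace_eq h, map_mul, hx, ← mul_add, ← trace_eq h, hβ, map_one, mul_one]

section
variable {n : ℕ}

/-- the conjugate vector -/
noncomputable def cj (x : Fin (n + 1) → E') : Fin (n + 1) → E' := fun i => fr (k := k) (x i)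

theorem Npr.symm {x y : Fin (n + 1) → E'} (h : Npr x y) : Npr y x := by
  obtain ⟨i, j, h⟩ := h
  exact ⟨i, j, fun h2 => h (by rw [mul_comm, ← h2, mul_comm])⟩

theorem npr_cj (h : Module.finrank k E' = 2) {x y : Fin (n + 1) → E'} (hxy : Npr x (cj (k := k) y)) : Npr (cj (k := k) x) y := by
  obtain ⟨i, j, hij⟩ := hxy
  refine ⟨i, j, fun h2 => hij ?_⟩
  have h3 := congrArg (fr (k := k)) h2
  unfold cj at h3 ⊢
  rw [map_mul, map_mul, fr_fr h, fr_fr h] at h3
  exact h3

theorem cj_ne {x : Fin (n + 1) → E'} (hx : x ≠ 0) : cj (k := k) x ≠ 0 := by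
  intro h
  apply hx
  funext i
  have := congrFun h i
  exact (map_eq_zero _).1 this

/-- Two points are equal if they are proportional. -/
theorem eq_of_prop {k : Type} [Field k] [Fintype k] {p : PP n k} {y : Fin (n + 1) → k} (hy : y ≠ 0) (h : ¬ Npr p.rep y) :
    p = Projectivization.mk k y hy := by
  classical
  by_contra hne
  obtain ⟨i, j, hij⟩ := not_prop hne
  obtain ⟨a, ha⟩ := Projectivization.exists_smul_eq_mk_rep k y hy
  apply h
  rw [← ha] at hij
  refine ⟨i, j, fun h2 => hij ?_⟩
  simp only [Pi.smul_apply, Units.smul_def, smul_eq_mul]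
  linear_combination (a : k) * h2

/-- The points over the quadratic extension: the points over the field and the others. -/
theorem count_quad (h : Module.finrank k E' = 2) (Q : (Fin (n + 1) → E') → Prop) (hQ : ∀ (a : E'ˣ) x, Q (a • x) ↔ Q x) :
    Nat.card {P : PP n E' // Q P.rep} = Nat.card {p : PP n k // Q (fun i => algebraMap k E' (p.rep i))} +
      Nat.card {P : PP n E' // Npr P.rep (cj (k := k) P.rep) ∧ Q P.rep} := by
  classical
  have hne : ∀ p : PP n k, (fun i => algebraMap k E' (p.rep i)) ≠ 0 := by
    intro p h0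
    apply p.rep_nonzero
    funext i
    have := congrFun h0 i
    exact (map_eq_zero _).1 this
  rw [Nat.card_eq_fintype_card, Nat.card_eq_fintype_card, Nat.card_eq_fintype_card, ← Fintype.card_sum]
  refine Fintype.card_congr (Equiv.ofBijective (fun z : {p : PP n k // Q (fun i => algebraMap k E' (p.rep i))} ⊕
      {P : PP n E' // Npr P.rep (cj (k := k) P.rep) ∧ Q P.rep} => (Sum.elim
        (fun p => ⟨Projectivization.mk E' (fun i => algebraMap k E' (p.1.rep i)) (hne p.1), by
          obtain ⟨a, ha⟩ := Projectivization.exists_smul_eq_mk_rep E' _ (hne p.1)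
          rw [← ha, hQ]
          exact p.2⟩) (fun P => ⟨P.1, P.2.2⟩) z : {P : PP n E' // Q P.rep})) ⟨?_, ?_⟩).symm
  · rintro (⟨p, hp⟩ | ⟨P, hP⟩) (⟨p', hp'⟩ | ⟨P', hP'⟩) heq
    · have h1 : Projectivization.mk E' (fun i => algebraMap k E' (p.rep i)) (hne p) =
          Projectivization.mk E' (fun i => algebraMap k E' (p'.rep i)) (hne p') := congrArg Subtype.val heq
      rw [Projectivization.mk_eq_mk_iff] at h1
      obtain ⟨a, ha⟩ := h1
      have h2 : p = p' := by
        by_contra hpp
        obtain ⟨i, j, hij⟩ := not_prop hpp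
        apply hij
        apply (algebraMap k E').injective
        have ei : (a : E') * algebraMap k E' (p'.rep i) = algebraMap k E' (p.rep i) := congrFun ha i
        have ej : (a : E') * algebraMap k E' (p'.rep j) = algebraMap k E' (p.rep j) := congrFun ha j
        rw [map_mul, map_mul, ← ei, ← ej]
        ring
      subst h2
      rfl
    · exfalso
      have h1 : Projectivization.mk E' (fun i => algebraMap k E' (p.rep i)) (hne p) = P' := congrArg Subtype.val heq
      obtain ⟨a, ha⟩ := Projectivization.exists_smul_eq_mk_rep E' _ (hne p)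
      obtain ⟨⟨i, j, hij⟩, _⟩ := hP'
      apply hij
      rw [← h1, ← ha]
      show (a : E') * algebraMap k E' (p.rep i) * fr (k := k) ((a : E') * algebraMap k E' (p.rep j)) =
        (a : E') * algebraMap k E' (p.rep j) * fr (k := k) ((a : E') * algebraMap k E' (p.rep i))
      rw [map_mul, map_mul, AlgHom.commutes, AlgHom.commutes]
      ring
    · exfalso
      have h1 : P = Projectivization.mk E' (fun i => algebraMap k E' (p'.rep i)) (hne p') := congrArg Subtype.val heq
      obtain ⟨a, ha⟩ := Projectivization.exists_smul_eq_mk_rep E' _ (hne p')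
      obtain ⟨⟨i, j, hij⟩, _⟩ := hP
      apply hij
      rw [h1, ← ha]
      show (a : E') * algebraMap k E' (p'.rep i) * fr (k := k) ((a : E') * algebraMap k E' (p'.rep j)) =
        (a : E') * algebraMap k E' (p'.rep j) * fr (k := k) ((a : E') * algebraMap k E' (p'.rep i))
      rw [map_mul, map_mul, AlgHom.commutes, AlgHom.commutes]
      ring
    · have : P = P' := congrArg Subtype.val heq
      subst this; rfl
  · rintro ⟨P, hP⟩
    by_cases hb : Npr P.rep (cj (k := k) P.rep)
    · exact ⟨Sum.inr ⟨P, hb, hP⟩, rfl⟩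
    · obtain ⟨j, hj⟩ := Function.ne_iff.1 P.rep_nonzero
      have hj' : P.rep j ≠ 0 := hj
      have hfj : fr (k := k) (P.rep j) ≠ 0 := fun h0 => hj' ((map_eq_zero _).1 h0)
      have hfix : ∀ i, fr (k := k) (P.rep i / P.rep j) = P.rep i / P.rep j := by
        intro i
        rw [map_div₀, div_eq_div_iff hfj hj']
        by_contra hc
        apply hb
        refine ⟨i, j, fun h2 => hc ?_⟩
        unfold cj at h2
        rw [mul_comm, ← h2]
      choose z hz using fun i => fixed h (hfix i)
      have hz0 : z ≠ 0 := by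
        intro h0
        have h1 := hz j
        rw [h0, Pi.zero_apply, map_zero, div_self hj'] at h1
        exact zero_ne_one h1
      obtain ⟨a, ha⟩ := Projectivization.exists_smul_eq_mk_rep k z hz0
      have hrep : (fun i => algebraMap k E' ((Projectivization.mk k z hz0).rep i)) =
          fun i => (algebraMap k E' a / P.rep j) * P.rep i := by
        funext i
        rw [← ha]
        show algebraMap k E' ((a : k) * z i) = _
        rw [map_mul, hz]
        ring
      have hu : (algebraMap k E' a / P.rep j) ≠ 0 := div_ne_zero (by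
        intro h0
        exact a.ne_zero ((map_eq_zero _).1 h0)) hj'
      refine ⟨Sum.inl ⟨Projectivization.mk k z hz0, ?_⟩, ?_⟩
      · rw [hrep]
        exact (hQ (Units.mk0 _ hu) P.rep).2 hP
      · apply Subtype.ext
        show Projectivization.mk E' (fun i => algebraMap k E' ((Projectivization.mk k z hz0).rep i)) _ = P
        conv_rhs => rw [← P.mk_rep]
        rw [Projectivization.mk_eq_mk_iff]
        exact ⟨Units.mk0 _ hu, hrep.symm⟩

end
end

end Run7.h876.LS
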